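import Pool.Agent.BSpi.Orth.Tri3
import Pool.Agent.BSpi.PSLn.All

set_option autoImplicit false
set_option linter.unusedSimpArgs false
set_option linter.unusedVariables false
set_option linter.unusedSectionVars false

open Matrix Matrix.SpecialLinearGroup
open scoped MatrixGroups

namespace Pool.Agent.BSpi.Orth

open Pool.Agent.BSpi.PSL Pool.Agent.BSpi.Cls

section

variable {K V : Type} [Field K] [AddCommGroup V] [Module K V] {π : Set ℕ}

/-- There are no orthogonal disjoint lines in dimension seven. -/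
lemma noFour7 [FiniteDimensional K V] {B : QF K V} (hn : Module.finrank K V = 7) : NoFour B := by
  intro u v s t hF
  have hind := hF.2.2.2.2.2.2
  have hW : Module.finrank K (Submodule.span K (Set.range ![u, v, s, t])) = 4 := by
    rw [finrank_span_eq_card hind, Fintype.card_fin]
  obtain ⟨hL, hM, e1, e2, e3, e4, -⟩ := id hF
  have f1 : B.h u s = 0 := by rw [B.symm, e1]
  have f2 : B.h v s = 0 := by rw [B.symm, e2]
  have f3 : B.h u t = 0 := by rw [B.symm, e3]
  have f4 : B.h v t = 0 := by rw [B.symm, e4]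
  have hle : Submodule.span K (Set.range ![u, v, s, t]) ≤ B.perp ![u, v, s, t] := by
    rw [Submodule.span_le]
    rintro _ ⟨i, rfl⟩ j
    fin_cases i <;> fin_cases j
    · exact hL.1.hself
    · exact hL.huv
    · exact f1
    · exact f3
    · exact hL.hvu
    · exact hL.2.1.hself
    · exact f2
    · exact f4
    · exact e1
    · exact e2
    · exact hM.1.hself
    · exact hM.huv
    · exact e3
    · exact e4
    · exact hM.hvu
    · exact hM.2.1.hself
  have h1 := Submodule.finrank_mono hle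
  have h2 := finrank_perp_eq (B := B) _ hind
  omega

/-- Simple groups of isometries of quadratic forms are good. -/
theorem orth_goodAt [Finite K] [FiniteDimensional K V] [Finite V] {B : QF K V} {p : ℕ}
    [hp : Fact p.Prime] [CharP K p] {G : Type} [Group G] [Finite G] (D : RepO B G)
    (hn : 7 ≤ Module.finrank K V)
    (hS : IsSimpleGroup (Pr G)) (hinj : Function.Injective (MulAut.conj : Pr G →* MulAut (Pr G)))
    {r : ℕ} (hr : r.Prime) (hr2 : r ≠ 2) : GoodAt π r (Pr G) := by
  have hpres : ∀ f : MulAut (Pr G), Pres D.R f := D.pres_all (p := p) hn hS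
  refine goodAt_of_root (F := K) (p := p) hinj (D.geo (p := p) hn hS) ?_ ?_ D.conj_pres
    (Or.inl hpres) hr hr2 (fun f _ => hpres f) (D.hcount hn) (D.hcard hn) ?_
  · obtain ⟨u, v, h⟩ := RepO.exists_ln (B := B) hn
    exact ⟨D.A u v, ⟨u, v, h, rfl⟩, pj (D.es u v), (D.mem_A' h).2 ⟨1, by rw [one_smul]⟩,
      D.pj_es_ne (p := p) hn h⟩
  · rintro _ ⟨u, v, h, rfl⟩ _ ⟨u', v', h', rfl⟩ ho
    exact D.isSL2 (p := p) hn h h' ((D.opp_iff hn h h').1 ho)
  · intro f hf hbad _
    by_cases h8 : Module.finrank K V = 8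
    · exact D.hmove8 (p := p) h8 hinj hr hr2 hf hbad ⟨hpres f, hpres f⁻¹⟩
    left
    obtain ⟨m, hm⟩ := hr.odd_of_ne_two hr2
    have h1 : f ^ (2 * m + 1) = 1 := by rw [← hm, ← hf]; exact pow_orderOf_eq_one f
    have hN : 9 ≤ Module.finrank K V ∨ NoFour B := by
      by_cases h9 : 9 ≤ Module.finrank K V
      · exact Or.inl h9
      · exact Or.inr (noFour7 (by omega))
    refine D.hmove hn hN h1 ⟨hpres f, hpres f⁻¹⟩ ?_
    rintro rfl
    rw [orderOf_one] at hf
    exact hr.one_lt.ne hf

end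

/-- Isometries of a quadratic form. -/
def IsoSet {F V : Type} [Field F] [AddCommGroup V] [Module F V] (Q : QuadraticForm F V) :
    Set (V ≃ₗ[F] V) := {g | ∀ x, Q (g x) = Q x}

lemma isoSet_mul {F V : Type} [Field F] [AddCommGroup V] [Module F V] (Q : QuadraticForm F V)
    {g g' : V ≃ₗ[F] V} (hg : g ∈ IsoSet Q) (hg' : g' ∈ IsoSet Q) : g * g' ∈ IsoSet Q :=
  fun x => (hg (g' x)).trans (hg' x)

lemma isoSet_one {F V : Type} [Field F] [AddCommGroup V] [Module F V] (Q : QuadraticForm F V) :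
    (1 : V ≃ₗ[F] V) ∈ IsoSet Q := fun x => rfl

lemma isoSet_inv {F V : Type} [Field F] [AddCommGroup V] [Module F V] (Q : QuadraticForm F V)
    {g : V ≃ₗ[F] V} (hg : g ∈ IsoSet Q) : g⁻¹ ∈ IsoSet Q := fun x => by
  have h1 := hg (g⁻¹ x)
  rw [← h1]
  congr 1
  exact g.apply_symm_apply x

/-- The group of isometries of a quadratic form. -/
def OGrp {F V : Type} [Field F] [AddCommGroup V] [Module F V] (Q : QuadraticForm F V) :
    Subgroup (V ≃ₗ[F] V) where
  carrier := IsoSet Q
  mul_mem' := isoSet_mul Q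
  one_mem' := isoSet_one Q
  inv_mem' := isoSet_inv Q

section

variable {K V : Type} [Field K] [AddCommGroup V] [Module K V] {Q : QuadraticForm K V}

/-- Quadratic forms in the sense of Mathlib. -/
def ofQ (Q : QuadraticForm K V) (hQ : ∀ x, (∀ y, QuadraticMap.polar Q x y = 0) → x = 0) :
    QF K V where
  Q x := Q x
  h x y := QuadraticMap.polar Q x y
  add_left x y z := QuadraticMap.polar_add_left Q x y z
  smul_left a x y := by rw [QuadraticMap.polar_smul_left, smul_eq_mul]
  symm x y := QuadraticMap.polar_comm Q y x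
  qadd x y := by
    rw [QuadraticMap.polar]
    ring
  qsmul a x := by rw [QuadraticMap.map_smul, smul_eq_mul]
  nondeg x hx := hQ x hx

variable {B : QF K V}

lemma E_inv {u v : V} (hu : B.Q u = 0) (hv : B.h v u = 0) (x : V) :
    E B u v (E B u (-v) x) = x := by
  rw [E_comp hu hv (by rw [B.neg_left, hv, neg_zero]), add_neg_cancel, E_apply, B.zero_right,
    B.qzero]
  module

/-- Siegel transformations as linear equivalences. -/
def Eeq (B : QF K V) {u v : V} (hu : B.Q u = 0) (hv : B.h v u = 0) : V ≃ₗ[K] V :=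
  LinearEquiv.ofLinearMap (E B u v) (E B u (-v))
    (LinearMap.ext fun x => E_inv hu hv x)
    (LinearMap.ext fun x => by
      have h1 := E_inv (v := -v) hu (by rw [B.neg_left, hv, neg_zero]) x
      rwa [neg_neg] at h1)

lemma Eeq_apply {u v : V} (hu : B.Q u = 0) (hv : B.h v u = 0) (x : V) :
    Eeq B hu hv x = E B u v x := rfl

/-- Reflections. -/
def refl (B : QF K V) (c : V) : Module.End K V where
  toFun x := x - (B.h x c / B.Q c) • c
  map_add' x y := by
    rw [B.add_left, add_div]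
    module
  map_smul' a x := by
    rw [B.smul_left, RingHom.id_apply, mul_div_assoc]
    module

lemma refl_apply (c x : V) : refl B c x = x - (B.h x c / B.Q c) • c := rfl

lemma refl_refl {c : V} (hc : B.Q c ≠ 0) (x : V) : refl B c (refl B c x) = x := by
  rw [refl_apply, refl_apply, B.sub_left, B.smul_left, B.hself]
  have h1 : (B.h x c - B.h x c / B.Q c * (2 * B.Q c)) / B.Q c = -(B.h x c / B.Q c) := by
    field_simp
    ring
  rw [h1]
  module

lemma refl_iso {c : V} (hc : B.Q c ≠ 0) (x : V) : B.Q (refl B c x) = B.Q x := by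
  rw [refl_apply, B.qsub, B.qsmul, B.smul_right]
  field_simp
  ring

/-- Reflections as linear equivalences. -/
def reflEq (B : QF K V) {c : V} (hc : B.Q c ≠ 0) : V ≃ₗ[K] V :=
  LinearEquiv.ofLinearMap (refl B c) (refl B c) (LinearMap.ext fun x => refl_refl hc x)
    (LinearMap.ext fun x => refl_refl hc x)

/-- Orthogonal complements of isotropic lines contain nonsingular vectors. -/
lemma exists_nonsing [FiniteDimensional K V] (hn : 7 ≤ Module.finrank K V) (u v : V) :
    ∃ c, B.Q c ≠ 0 ∧ B.h c u = 0 ∧ B.h c v = 0 := by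
  obtain ⟨x, hxc, hxn⟩ := B.perp_not ![u, v] ![u, v] (by omega)
  have hxu : B.h x u = 0 := hxc 0
  have hxv : B.h x v = 0 := hxc 1
  have h1 : ∃ z, B.h z u = 0 ∧ B.h z v = 0 ∧ B.h z x ≠ 0 := by
    by_contra hcon
    push Not at hcon
    obtain ⟨a, ha⟩ := B.span_of_perp ![u, v] (x := x) (fun z hz => hcon z (hz 0) (hz 1))
    apply hxn
    rw [ha]
    exact Submodule.sum_mem _ fun i _ => Submodule.smul_mem _ _ (Submodule.subset_span ⟨i, rfl⟩)
  obtain ⟨z, hzu, hzv, hzx⟩ := h1
  by_cases h2 : B.Q x = 0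
  · by_cases h3 : B.Q z = 0
    · refine ⟨z + x, ?_, by rw [B.add_left, hzu, hxu, add_zero], by
        rw [B.add_left, hzv, hxv, add_zero]⟩
      rw [B.qadd, h2, h3, zero_add, zero_add]
      exact hzx
    · exact ⟨z, h3, hzu, hzv⟩
  · exact ⟨x, h2, hxu, hxv⟩

end

section

variable {K V : Type} [Field K] [AddCommGroup V] [Module K V] {Q : QuadraticForm K V}
variable (hQ : ∀ x, (∀ y, QuadraticMap.polar Q x y = 0) → x = 0)

lemma mem_OGrp {g : V ≃ₗ[K] V} : g ∈ OGrp Q ↔ ∀ x, Q (g x) = Q x := Iff.rfl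

/-- Siegel transformations as isometries. -/
def Eo {u v : V} (hu : (ofQ Q hQ).Q u = 0) (hv : (ofQ Q hQ).h v u = 0) : OGrp Q :=
  ⟨Eeq (ofQ Q hQ) hu hv, fun x => E_iso (ofQ Q hQ) hu hv x⟩

lemma Eo_apply {u v : V} (hu : (ofQ Q hQ).Q u = 0) (hv : (ofQ Q hQ).h v u = 0) (x : V) :
    (Eo hQ hu hv).1 x = E (ofQ Q hQ) u v x := rfl

lemma Eo_mul {u v v' : V} (hu : (ofQ Q hQ).Q u = 0) (hv : (ofQ Q hQ).h v u = 0)
    (hv' : (ofQ Q hQ).h v' u = 0) (hvv : (ofQ Q hQ).h (v + v') u = 0) :
    Eo hQ hu hvv = Eo hQ hu hv * Eo hQ hu hv' := by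
  apply Subtype.ext
  ext x
  exact (E_comp hu hv hv' x).symm

/-- Siegel transformations attached to nonsingular vectors are commutators. -/
lemma Eo_comm {u c : V} (hu : (ofQ Q hQ).Sg u) (hc : (ofQ Q hQ).h c u = 0)
    (hcQ : (ofQ Q hQ).Q c ≠ 0) : Eo hQ hu.2 hc ∈ commutator (OGrp Q) := by
  set B := ofQ Q hQ with hB
  -- a vector orthogonal to `u` and not to `c`
  obtain ⟨v, hvu, hvc⟩ : ∃ v, B.h v u = 0 ∧ B.h v c ≠ 0 := by
    by_contra hcon
    push Not at hcon
    obtain ⟨a, ha⟩ := B.span_of_perp ![u] (x := c) (fun z hz => hcon z (hz 0))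
    rw [Fin.sum_univ_one] at ha
    have ha' : c = a 0 • u := ha
    apply hcQ
    rw [ha', B.qsmul, hu.2, mul_zero]
  set w := (-(B.Q c / B.h v c)) • v with hw
  have hwu : B.h w u = 0 := by rw [hw, B.smul_left, hvu, mul_zero]
  clear_value w
  have hrw : refl B c w = w + c := by
    rw [refl_apply, hw, B.smul_left]
    have h1 : -(B.Q c / B.h v c) * B.h v c / B.Q c = -1 := by field_simp
    rw [h1]
    module
  have hru : refl B c u = u := by
    rw [refl_apply, B.symm c u, hc]
    simp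
  let r : OGrp Q := ⟨reflEq B hcQ, fun x => refl_iso hcQ x⟩
  have hrr : ∀ x, r.1 x = refl B c x := fun x => rfl
  have hri : ∀ x, (r⁻¹).1 x = refl B c x := fun x => rfl
  have hnw : B.h (-w) u = 0 := by rw [B.neg_left, hwu, neg_zero]
  have key : Eo hQ hu.2 hc = r * Eo hQ hu.2 hwu * r⁻¹ * (Eo hQ hu.2 hwu)⁻¹ := by
    have h1 : (Eo hQ hu.2 hwu)⁻¹ = Eo hQ hu.2 hnw := by
      rw [inv_eq_iff_mul_eq_one]
      apply Subtype.ext
      ext x
      exact E_inv hu.2 hwu x
    rw [h1]
    apply Subtype.ext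
    ext x
    change E B u c x = refl B c (E B u w (refl B c (E B u (-w) x)))
    have h2 : ∀ y, refl B c (E B u w (refl B c y)) = E B u (w + c) y := by
      intro y
      have h3 : ∀ z, B.h (refl B c y) z = B.h y (refl B c z) := by
        intro z
        rw [refl_apply, refl_apply, B.sub_left, B.smul_left, B.sub_right, B.smul_right,
          B.symm z c]
        ring
      rw [E_apply, E_apply, map_sub, map_sub, map_add, map_smul, map_smul, map_smul, refl_refl hcQ,
        h3, h3, hru, hrw]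
      have h5 : B.Q (w + c) = B.Q w := by rw [← hrw, refl_iso hcQ]
      rw [h5]
    rw [h2, E_comp hu.2 (by rw [B.add_left, hwu, hc, add_zero]) hnw]
    congr 2
    abel
  rw [key]
  exact Subgroup.commutator_mem_commutator (Subgroup.mem_top r) (Subgroup.mem_top (Eo hQ hu.2 hwu))

/-- Siegel transformations lie in the commutator subgroup. -/
lemma Eo_mem [FiniteDimensional K V] (hn : 7 ≤ Module.finrank K V) {u v : V}
    (hu : (ofQ Q hQ).Q u = 0) (hv : (ofQ Q hQ).h v u = 0) :
    Eo hQ hu hv ∈ commutator (OGrp Q) := by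
  by_cases hu0 : u = 0
  · have h1 : Eo hQ hu hv = 1 := by
      apply Subtype.ext
      ext x
      change E (ofQ Q hQ) u v x = x
      rw [E_apply, hu0, (ofQ Q hQ).zero_right]
      module
    rw [h1]
    exact one_mem _
  · by_cases hvQ : (ofQ Q hQ).Q v = 0
    · obtain ⟨c, hc, hcu, hcv⟩ := exists_nonsing (B := ofQ Q hQ) hn u v
      have h1 : (ofQ Q hQ).h (v - c) u = 0 := by rw [(ofQ Q hQ).sub_left, hv, hcu, sub_zero]
      have h2 : (ofQ Q hQ).Q (v - c) ≠ 0 := by
        rw [(ofQ Q hQ).qsub, hvQ, (ofQ Q hQ).symm c v, hcv, zero_add, sub_zero]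
        exact hc
      have h3 : (ofQ Q hQ).h (v - c + c) u = 0 := by rw [sub_add_cancel]; exact hv
      have h4 : Eo hQ hu hv = Eo hQ hu h3 := by
        apply Subtype.ext
        ext x
        change E (ofQ Q hQ) u v x = E (ofQ Q hQ) u (v - c + c) x
        rw [sub_add_cancel]
      rw [h4, Eo_mul hQ hu h1 hcu]
      exact mul_mem (Eo_comm hQ ⟨hu0, hu⟩ h1 h2) (Eo_comm hQ ⟨hu0, hu⟩ hcu hc)
    · exact Eo_comm hQ ⟨hu0, hu⟩ hv hvQ

/-- The representation of the commutator subgroup. -/
def oRep [FiniteDimensional K V] (hn : 7 ≤ Module.finrank K V) :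
    RepO (ofQ Q hQ) (commutator (OGrp Q)) where
  ρ :=
    { toFun := fun g => (g.1.1 : V →ₗ[K] V)
      map_one' := rfl
      map_mul' := fun g g' => rfl }
  inj g g' h := by
    apply Subtype.ext
    apply Subtype.ext
    ext x
    exact congrArg (fun T : V →ₗ[K] V => T x) h
  iso g x := g.1.2 x
  ex u v hu hv := ⟨⟨Eo hQ hu hv, Eo_mem hQ hn hu hv⟩, rfl⟩

end

/-- The simple groups `PΩ(V, Q)` are good at all odd primes. -/
lemma o_goodAt {π : Set ℕ} {S : Type} [Group S] (hS : IsSimpleGroup S)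
    (hna : ∃ a b : S, a * b ≠ b * a) {r : ℕ} (hr : r.Prime) (hr2 : r ≠ 2) (F V : Type) [Field F]
    [Finite F] [AddCommGroup V] [Module F V] (Q : QuadraticForm F V)
    (hn : 7 ≤ Module.finrank F V)
    (hQ : ∀ x, (∀ y, QuadraticMap.polar Q x y = 0) → x = 0)
    (e : S ≃* (commutator (OGrp Q) ⧸ Subgroup.center (commutator (OGrp Q)))) :
    GoodAt π r S := by
  have hfd : FiniteDimensional F V := FiniteDimensional.of_finrank_pos (by omega)
  have hfin : Finite V := Module.finite_of_finite F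
  obtain ⟨p, hp, hcp⟩ : ∃ p : ℕ, Fact p.Prime ∧ CharP F p := by
    have hne : ringChar F ≠ 0 := by
      intro h0
      have : CharZero F := (CharP.ringChar_zero_iff_CharZero F).1 h0
      exact not_finite F
    have : NeZero (ringChar F) := ⟨hne⟩
    exact ⟨ringChar F, CharP.char_is_prime_of_pos F (ringChar F), inferInstance⟩
  have hinj := conj_injective_congr e (conj_injective_of_simple hS hna)
  have hfinG : Finite (commutator (OGrp Q)) :=
    Finite.of_injective (fun g => ((g.1.1 : V ≃ₗ[F] V) : V → V)) (by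
      intro g g' h
      apply Subtype.ext
      apply Subtype.ext
      exact DFunLike.coe_injective h)
  have hS' : IsSimpleGroup (Pr (commutator (OGrp Q))) := (MulEquiv.isSimpleGroup_congr e).1 hS
  exact (orth_goodAt (p := p) (oRep hQ hn) hn hS' hinj hr hr2).congr e

end Pool.Agent.BSpi.Orth
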