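import Pool.Agent.BSpi.Orth.Syl

set_option autoImplicit false
set_option linter.unusedSimpArgs false
set_option linter.unusedVariables false
set_option linter.unusedSectionVars false

open Matrix Matrix.SpecialLinearGroup
open scoped MatrixGroups

namespace Pool.Agent.BSpi.Orth

open Pool.Agent.BSpi.PSL Pool.Agent.BSpi.Cls

variable {K V : Type} [Field K] [AddCommGroup V] [Module K V] {B : QF K V}
variable {p : ℕ} [hp : Fact p.Prime] [CharP K p] {G : Type} [Group G]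

lemma E_polar {z y : V} (hz : B.Q z = 0) (hy : B.h y z = 0) (a b : V) :
    B.h (E B z y a) (E B z y b) = B.h a b := by
  have h1 := B.qadd (E B z y a) (E B z y b)
  rw [← map_add, E_iso B hz hy, E_iso B hz hy, E_iso B hz hy, B.qadd] at h1
  linear_combination -h1

lemma E_left {z y w : V} (h1 : B.h z w = 0) (h2 : B.h y w = 0) (x : V) :
    B.h (E B z y x) w = B.h x w := by
  rw [E_apply, B.sub_left, B.sub_left, B.add_left, B.smul_left, B.smul_left, B.smul_left, h1, h2]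
  ring

lemma pairs_dvd [Finite K] [FiniteDimensional K V] [Finite V] (hn : 7 ≤ Module.finrank K V)
    {u v : V} (h : B.Ln u v) (u' v' : V) :
    p ∣ Nat.card {q : V × V // Dual B u v q.1 q.2 ∧ B.dl q.1 q.2 u' v' ≠ 0} := by
  obtain ⟨z, hz, hzc⟩ := B.sg_perp ![u, v, u', v'] (by omega)
  have z1 : B.h z u = 0 := hzc 0
  have z2 : B.h z v = 0 := hzc 1
  have z3 : B.h z u' = 0 := hzc 2
  have z4 : B.h z v' = 0 := hzc 3
  obtain ⟨y, hyc, hyn⟩ := B.perp_not ![u, v, u', v', z] ![z] (by omega)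
  have y1 : B.h y u = 0 := hyc 0
  have y2 : B.h y v = 0 := hyc 1
  have y3 : B.h y u' = 0 := hyc 2
  have y4 : B.h y v' = 0 := hyc 3
  have hy : B.h y z = 0 := hyc 4
  have hne : ∀ c : K, y ≠ c • z := by
    intro c hc
    apply hyn
    rw [hc]
    exact Submodule.smul_mem _ _ (Submodule.subset_span ⟨0, rfl⟩)
  let P := {q : V × V // Dual B u v q.1 q.2 ∧ B.dl q.1 q.2 u' v' ≠ 0}
  have hP : ∀ s t s' t' : V, Dual B u v s t ∧ B.dl s t u' v' ≠ 0 → B.Q s' = 0 → B.Q t' = 0 →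
      B.h t' s' = 0 → (∀ w, B.h z w = 0 → B.h y w = 0 → B.h s' w = B.h s w) →
      (∀ w, B.h z w = 0 → B.h y w = 0 → B.h t' w = B.h t w) →
      Dual B u v s' t' ∧ B.dl s' t' u' v' ≠ 0 := by
    rintro s t s' t' ⟨H, hd⟩ h1 h2 h3 h4 h5
    have e1 := (h4 u z1 y1).trans H.su
    have e2 := (h4 v z2 y2).trans H.sv
    have e3 := (h5 u z1 y1).trans H.tu
    have e4 := (h5 v z2 y2).trans H.tv
    refine ⟨⟨h, QF.ln_dual h h1 h2 h3 e1 e2 e3 e4, e1, e2, e3, e4⟩, ?_⟩
    rw [QF.dl, h4 u' z3 y3, h4 v' z4 y4, h5 u' z3 y3, h5 v' z4 y4]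
    exact hd
  let f : P → P := fun q => ⟨(E B z y q.1.1, E B z y q.1.2), hP q.1.1 q.1.2 _ _ q.2
    (by rw [E_iso B hz.2 hy]; exact q.2.1.M.1.2) (by rw [E_iso B hz.2 hy]; exact q.2.1.M.2.1.2)
    (by rw [E_polar hz.2 hy]; exact q.2.1.M.hvu) (fun w h1 h2 => E_left h1 h2 _)
    (fun w h1 h2 => E_left h1 h2 _)⟩
  have hfi : ∀ n x, ((f^[n] x : P) : V × V) = ((E B z y)^[n] x.1.1, (E B z y)^[n] x.1.2) := by
    intro n
    induction n with
    | zero => intro x; rfl
    | succ n ih =>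
      intro x
      rw [Function.iterate_succ_apply', Function.iterate_succ_apply', Function.iterate_succ_apply']
      change (E B z y (f^[n] x).1.1, E B z y (f^[n] x).1.2) = _
      rw [ih]
  have h1 := card_fix (p := p) f (by
    funext x
    apply Subtype.ext
    rw [hfi, E_iter_p hz.2 hy, E_iter_p hz.2 hy]
    rfl)
  have hfz : ∀ q : P, f q = q → (B.h q.1.1 z = 0 ∧ B.h q.1.1 y = 0) ∧
      (B.h q.1.2 z = 0 ∧ B.h q.1.2 y = 0) := fun q hq =>
    ⟨E_fix hz hy hne (congrArg (fun x => x.1.1) hq), E_fix hz hy hne (congrArg (fun x => x.1.2) hq)⟩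
  have hzf : ∀ q : P, B.h q.1.1 z = 0 → B.h q.1.1 y = 0 → B.h q.1.2 z = 0 → B.h q.1.2 y = 0 →
      f q = q := fun q h1 h2 h3 h4 => Subtype.ext (Prod.ext (fix_E h1 h2) (fix_E h3 h4))
  let f2 : {x // f x = x} → {x // f x = x} := fun q =>
    ⟨⟨(q.1.1.1 + (1 : K) • z, q.1.1.2), hP q.1.1.1 q.1.1.2 _ _ q.1.2 (by
        rw [one_smul, B.qadd, q.1.2.1.M.1.2, hz.2, (hfz q.1 q.2).1.1]
        ring) q.1.2.1.M.2.1.2 (by
        rw [one_smul, B.add_right, q.1.2.1.M.hvu, (hfz q.1 q.2).2.1, add_zero]) (fun w h1 h2 => by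
        rw [one_smul, B.add_left, h1, add_zero]) (fun w h1 h2 => rfl)⟩, hzf _ (by
      change B.h (q.1.1.1 + (1 : K) • z) z = 0
      rw [one_smul, B.add_left, hz.hself, (hfz q.1 q.2).1.1, add_zero]) (by
      change B.h (q.1.1.1 + (1 : K) • z) y = 0
      rw [one_smul, B.add_left, (hfz q.1 q.2).1.2, B.symm y z, hy, add_zero])
      (hfz q.1 q.2).2.1 (hfz q.1 q.2).2.2⟩
  have hf2 : f2^[p] = id := by
    have h3 : ∀ n x, ((f2^[n] x).1.1.1 : V) = x.1.1.1 + (n : K) • z ∧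
        (f2^[n] x).1.1.2 = x.1.1.2 := by
      intro n
      induction n with
      | zero => intro x; simp
      | succ n ih =>
        intro x
        rw [Function.iterate_succ_apply']
        refine ⟨?_, (ih x).2⟩
        change (f2^[n] x).1.1.1 + (1 : K) • z = _
        rw [(ih x).1, add_assoc, ← add_smul]
        push_cast
        rfl
    funext x
    apply Subtype.ext
    apply Subtype.ext
    refine Prod.ext ?_ (h3 p x).2
    rw [(h3 p x).1, CharP.cast_eq_zero, zero_smul, add_zero]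
    rfl
  have h2 := dvd_free (p := p) f2 hf2 (fun x hx => by
      have h3 : x.1.1.1 + (1 : K) • z = x.1.1.1 := congrArg (fun y => y.1.1.1) hx
      rw [one_smul, add_eq_left] at h3
      exact hz.1 h3)
  exact (h1.dvd_iff (dvd_refl p)).2 h2

namespace RepO

variable (D : RepO B G)

lemma hcount [Finite K] [FiniteDimensional K V] [Finite V] (hn : 7 ≤ Module.finrank K V) :
    ∀ X ∈ D.R, ∀ Y ∈ D.R, p ∣ Nat.card {C : D.R // Opp p X C.1 ∧ Opp p C.1 Y} := by
  rintro _ ⟨u, v, h, rfl⟩ _ ⟨u', v', h', rfl⟩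
  have h1 := pairs_dvd (p := p) hn h u' v'
  rwa [Nat.card_congr (Equiv.ofBijective (fun q : {q : V × V //
      Dual B u v q.1 q.2 ∧ B.dl q.1 q.2 u' v' ≠ 0} =>
    (⟨⟨D.A q.1.1 q.1.2, ⟨_, _, q.2.1.M, rfl⟩⟩, (D.opp_iff hn h q.2.1.M).2 (by
        rw [QF.dl, q.2.1.us, q.2.1.ut, q.2.1.vs, q.2.1.vt]
        simp), (D.opp_iff hn q.2.1.M h').2 q.2.2⟩ :
      {C : D.R // Opp p (D.A u v) C.1 ∧ Opp p C.1 (D.A u' v')})) ⟨?_, ?_⟩)] at h1
  · rintro ⟨⟨s, t⟩, H, hd⟩ ⟨⟨s', t'⟩, H', hd'⟩ he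
    have he' : D.A s t = D.A s' t' := congrArg (fun x => x.1.1) he
    have h2 : pj (D.es s t) ∈ D.A s' t' := by
      rw [← he']
      exact (D.mem_A' H.M).2 ⟨1, by rw [one_smul]⟩
    obtain ⟨⟨a, b, hab⟩, ⟨c, d, hcd⟩⟩ := D.in_of_A (p := p) hn H.M H'.M h2
    change s = _ at hab
    change t = _ at hcd
    have e1 := H.su
    have e2 := H.sv
    have e3 := H.tu
    have e4 := H.tv
    change B.h s u = 0 at e1
    change B.h s v = -1 at e2
    change B.h t u = 1 at e3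
    change B.h t v = 0 at e4
    have f1 : B.h s' u = 0 := H'.su
    have f2 : B.h s' v = -1 := H'.sv
    have f3 : B.h t' u = 1 := H'.tu
    have f4 : B.h t' v = 0 := H'.tv
    rw [hab, B.add_left, B.smul_left, B.smul_left, f1, f3] at e1
    rw [hab, B.add_left, B.smul_left, B.smul_left, f2, f4] at e2
    rw [hcd, B.add_left, B.smul_left, B.smul_left, f1, f3] at e3
    rw [hcd, B.add_left, B.smul_left, B.smul_left, f2, f4] at e4
    have hb : b = 0 := by linear_combination e1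
    have ha : a = 1 := by linear_combination -e2
    have hd1 : d = 1 := by linear_combination e3
    have hc : c = 0 := by linear_combination -e4
    apply Subtype.ext
    refine Prod.ext ?_ ?_
    · change s = s'
      rw [hab, ha, hb]
      module
    · change t = t'
      rw [hcd, hc, hd1]
      module
  · rintro ⟨⟨_, ⟨u1, v1, h1, rfl⟩⟩, ho1, ho2⟩
    change Opp p (D.A u v) (D.A u1 v1) at ho1
    change Opp p (D.A u1 v1) (D.A u' v') at ho2
    have hd := (D.opp_iff hn h h1).1 ho1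
    obtain ⟨s, t, hst, hs, ht, e1, e2, e3, e4⟩ := QF.dual h h1 hd
    have hA := D.A_eq h1 hst hs ht
    refine ⟨⟨(s, t), ⟨h, hst, e1, e2, e3, e4⟩, ?_⟩, Subtype.ext (Subtype.ext hA)⟩
    rw [← hA] at ho2
    exact (D.opp_iff hn hst h').1 ho2

end RepO

end Pool.Agent.BSpi.Orth
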