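import Pool.Agent.BSpi.Orth.Quo

set_option autoImplicit false
set_option linter.unusedSimpArgs false
set_option linter.unusedVariables false
set_option linter.unusedSectionVars false

open Matrix Matrix.SpecialLinearGroup
open scoped MatrixGroups

namespace Pool.Agent.BSpi.Orth

open Pool.Agent.BSpi.PSL Pool.Agent.BSpi.Cls

variable {K V : Type} [Field K] [AddCommGroup V] [Module K V] {B : QF K V}

namespace QF

/-- Restrictions to nondegenerate subspaces. -/
def res (B : QF K V) (W : Submodule K V) (hW : ∀ z, ∃ y ∈ W, ∀ x ∈ W, B.h x y = B.h x z) :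
    QF K W where
  Q x := B.Q x
  h x y := B.h x y
  add_left x y z := B.add_left _ _ _
  smul_left a x y := B.smul_left _ _ _
  symm x y := B.symm _ _
  qadd x y := B.qadd _ _
  qsmul a x := B.qsmul _ _
  nondeg x hx := by
    apply Subtype.ext
    refine B.nondeg _ fun z => ?_
    obtain ⟨y, hy, hyz⟩ := hW z
    rw [← hyz x x.2]
    exact hx ⟨y, hy⟩

lemma res2 {s w : V} (hs : B.Sg s) (hw : B.Sg w) (hsw : B.h s w = 1) (z : V) :
    ∃ y ∈ B.perp ![s, w], ∀ x ∈ B.perp ![s, w], B.h x y = B.h x z := by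
  have hws : B.h w s = 1 := by rw [B.symm, hsw]
  refine ⟨z - B.h z w • s - B.h z s • w, ?_, fun x hx => ?_⟩
  · intro i
    fin_cases i
    · change B.h _ s = 0
      rw [B.sub_left, B.sub_left, B.smul_left, B.smul_left, hs.hself, hws]
      ring
    · change B.h _ w = 0
      rw [B.sub_left, B.sub_left, B.smul_left, B.smul_left, hw.hself, hsw]
      ring
  · have h1 : B.h x s = 0 := hx 0
    have h2 : B.h x w = 0 := hx 1
    rw [B.sub_right, B.sub_right, B.smul_right, B.smul_right, h1, h2]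
    ring

/-- Points opposite to two given points. -/
lemma pcommon [Finite K] [FiniteDimensional K V] (hn : 3 ≤ Module.finrank K V) {a b : V}
    (ha : B.Sg a) (hb : B.Sg b) : ∃ c, B.Sg c ∧ B.h c a ≠ 0 ∧ B.h c b ≠ 0 := by
  by_cases hab : B.h a b = 0
  · by_cases hc : ∃ c : K, b = c • a
    · obtain ⟨c, rfl⟩ := hc
      obtain ⟨w, hw, haw⟩ := partner ha
      have h1 : B.h w a = 1 := by rw [B.symm, haw]
      refine ⟨w, hw, by rw [h1]; exact one_ne_zero, ?_⟩
      rw [B.smul_right, h1, mul_one]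
      rintro rfl
      exact hb.1 (zero_smul _ _)
    · push Not at hc
      have hL : B.Ln a b := ⟨ha, hb, by rw [B.symm, hab], hc⟩
      obtain ⟨z, hza, hzb⟩ := hL.vals 1 1
      have hza' : B.h z a ≠ 0 := by rw [hza]; exact one_ne_zero
      refine ⟨_, correct ha hza', ?_, ?_⟩
      · rw [B.sub_left, B.smul_left, ha.hself, hza]
        simp
      · rw [B.sub_left, B.smul_left, hab, hzb]
        simp
  · have hba : B.h b a ≠ 0 := by rw [B.symm]; exact hab
    obtain ⟨s, hs, hsa, hsb⟩ : ∃ s, B.Q s ≠ 0 ∧ B.h s a = 0 ∧ B.h s b = 0 := by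
      obtain ⟨x, hxc, hxn⟩ := B.perp_not ![a, b] (fun i : Fin 0 => i.elim0) (by omega)
      have hxa : B.h x a = 0 := hxc 0
      have hxb : B.h x b = 0 := hxc 1
      have hx0 : x ≠ 0 := by
        rintro rfl
        exact hxn (Submodule.zero_mem _)
      by_cases hxQ : B.Q x = 0
      swap
      · exact ⟨x, hxQ, hxa, hxb⟩
      have hx : B.Sg x := ⟨hx0, hxQ⟩
      obtain ⟨y, hy⟩ : ∃ y, B.h x y ≠ 0 := by
        by_contra hcon
        push Not at hcon
        exact hx.1 (B.nondeg x hcon)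
      set y' := y - (B.h y b / B.h a b) • a - (B.h y a / B.h b a) • b with hy'
      have h1 : B.h y' a = 0 := by
        rw [hy', B.sub_left, B.sub_left, B.smul_left, B.smul_left, ha.hself, div_mul_cancel₀ _ hba]
        ring
      have h2 : B.h y' b = 0 := by
        rw [hy', B.sub_left, B.sub_left, B.smul_left, B.smul_left, hb.hself, div_mul_cancel₀ _ hab]
        ring
      have h3 : B.h x y' = B.h x y := by
        rw [hy', B.sub_right, B.sub_right, B.smul_right, B.smul_right, hxa, hxb]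
        ring
      by_cases h4 : B.Q y' = 0
      · refine ⟨x + y', ?_, ?_, ?_⟩
        · rw [B.qadd, hx.2, h4, h3, zero_add, zero_add]
          exact hy
        · rw [B.add_left, hxa, h1, add_zero]
        · rw [B.add_left, hxb, h2, add_zero]
      · exact ⟨y', h4, h1, h2⟩
    have hc1 : B.h (a - (B.Q s / B.h a b) • b + s) a = - B.Q s := by
      rw [B.add_left, B.sub_left, B.smul_left, hsa, ha.hself, B.symm a b, div_mul_cancel₀ _ hab]
      ring
    refine ⟨a - (B.Q s / B.h a b) • b + s, ⟨?_, ?_⟩, ?_, ?_⟩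
    · intro h0
      rw [h0, B.zero_left] at hc1
      exact hs (neg_eq_zero.1 hc1.symm)
    · rw [B.qadd, B.qsub, B.qsmul, ha.2, hb.2, B.smul_right, B.sub_left, B.smul_left, B.symm s a,
        B.symm s b, hsa, hsb, div_mul_cancel₀ _ hab]
      ring
    · rw [hc1]
      exact neg_ne_zero.2 hs
    · rw [B.add_left, B.sub_left, B.smul_left, hsb, hb.hself]
      simpa using hab

/-- Points orthogonal to a given point and opposite to two given points. -/
lemma perp2 [Finite K] [FiniteDimensional K V] (hn : 5 ≤ Module.finrank K V) {s a b : V}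
    (hs : B.Sg s) (ha : B.Ln s a) (hb : B.Ln s b) :
    ∃ y, B.Sg y ∧ B.h y s = 0 ∧ B.h y a ≠ 0 ∧ B.h y b ≠ 0 := by
  obtain ⟨w, hw, hsw⟩ := partner hs
  let B' := B.res (B.perp ![s, w]) (res2 hs hw hsw)
  have hfr : 3 ≤ Module.finrank K (B.perp ![s, w]) := by
    have := B.finrank_perp ![s, w]
    omega
  have key : ∀ a, B.Ln s a → ∃ a' : B.perp ![s, w], B'.Sg a' ∧ (a' : V) = a - B.h a w • s := by
    intro a ha
    have hm : a - B.h a w • s ∈ B.perp ![s, w] := by
      intro i
      fin_cases i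
      · change B.h _ s = 0
        rw [B.sub_left, B.smul_left, hs.hself, ha.hvu]
        ring
      · change B.h _ w = 0
        rw [B.sub_left, B.smul_left, hsw]
        ring
    refine ⟨⟨_, hm⟩, ⟨fun h0 => ?_, ?_⟩, rfl⟩
    · exact ha.2.2.2 _ (sub_eq_zero.1 (congrArg Subtype.val h0))
    · change B.Q (a - B.h a w • s) = 0
      rw [B.qsub, B.qsmul, ha.2.1.2, hs.2, B.smul_right, ha.hvu]
      ring
  obtain ⟨a', ha', haa⟩ := key a ha
  obtain ⟨b', hb', hbb⟩ := key b hb
  obtain ⟨y, hy, hya, hyb⟩ := pcommon (B := B') hfr ha' hb'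
  have hys : B.h y s = 0 := y.2 0
  refine ⟨y, ⟨fun h0 => hy.1 (Subtype.ext h0), hy.2⟩, hys, ?_, ?_⟩
  · have h1 : B.h y a' ≠ 0 := hya
    rwa [haa, B.sub_right, B.smul_right, hys, mul_zero, sub_zero] at h1
  · have h1 : B.h y b' ≠ 0 := hyb
    rwa [hbb, B.sub_right, B.smul_right, hys, mul_zero, sub_zero] at h1

/-- The Gram determinant. -/
def dl (B : QF K V) (u v u' v' : V) : K := B.h u u' * B.h v v' - B.h u v' * B.h v u'

lemma dl_symm (u v u' v' : V) : B.dl u' v' u v = B.dl u v u' v' := by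
  rw [dl, dl, B.symm u u', B.symm v u', B.symm u v', B.symm v v']
  ring

/-- Lines opposite to two given lines. -/
lemma lcommon [Finite K] [FiniteDimensional K V] (hn : 5 ≤ Module.finrank K V) {u v u' v' : V}
    (h : B.Ln u v) (h' : B.Ln u' v') :
    ∃ s t, B.Ln s t ∧ B.dl u v s t ≠ 0 ∧ B.dl u' v' s t ≠ 0 := by
  obtain ⟨s, hs, hsu, hsu'⟩ := pcommon (by omega) h.1 h'.1
  have key : ∀ u v, B.Ln u v → B.h s u ≠ 0 → B.Ln s (v - (B.h s v / B.h s u) • u) ∧
      ∀ t, B.h t (v - (B.h s v / B.h s u) • u) ≠ 0 → B.dl u v s t ≠ 0 := by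
    intro u v h hsu
    have h1 : B.h (v - (B.h s v / B.h s u) • u) s = 0 := by
      rw [B.sub_left, B.smul_left, B.symm s v, B.symm s u, div_mul_cancel₀ _ hsu]
      ring
    have h2 : B.h (v - (B.h s v / B.h s u) • u) u = 0 := by
      rw [B.sub_left, B.smul_left, h.hvu, h.1.hself]
      ring
    have h3 : v - (B.h s v / B.h s u) • u ≠ 0 := sub_ne_zero.2 (h.2.2.2 _)
    refine ⟨⟨hs, ⟨h3, ?_⟩, h1, fun c hc => ?_⟩, fun t ht h0 => ht ?_⟩
    · exact h.q ⟨-(B.h s v / B.h s u), 1, by module⟩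
    · rw [hc, B.smul_left] at h2
      have h4 := (mul_eq_zero.1 h2).resolve_right hsu
      exact h3 (by rw [hc, h4, zero_smul])
    · rw [dl, B.symm s u, B.symm s v, B.symm t v, B.symm t u] at h0
      rw [B.sub_right, B.smul_right]
      field_simp
      linear_combination h0
  obtain ⟨h1, h2⟩ := key u v h hsu
  obtain ⟨h3, h4⟩ := key u' v' h' hsu'
  obtain ⟨t, ht, hts, hta, htb⟩ := perp2 hn hs h1 h3
  refine ⟨s, t, ⟨hs, ht, hts, fun c hc => hta ?_⟩, h2 t hta, h4 t htb⟩
  rw [hc, B.smul_left, h1.huv, mul_zero]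

/-- Dual bases. -/
lemma dual {u v u' v' : V} (h : B.Ln u v) (h' : B.Ln u' v') (hd : B.dl u v u' v' ≠ 0) :
    ∃ s t, B.Ln s t ∧ In s u' v' K ∧ In t u' v' K ∧ B.h s u = 0 ∧ B.h s v = -1 ∧ B.h t u = 1 ∧
      B.h t v = 0 := by
  set a := B.h u u' with ha
  set b := B.h u v' with hb
  set c := B.h v u' with hc
  set d := B.h v v' with hd'
  have hdl : B.dl u v u' v' = a * d - b * c := rfl
  rw [hdl] at hd
  set δ := a * d - b * c with hδ
  have e1 : B.h u' u = a := by rw [B.symm u u']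
  have e2 : B.h v' u = b := by rw [B.symm u v']
  have e3 : B.h u' v = c := by rw [B.symm v u']
  have e4 : B.h v' v = d := by rw [B.symm v v']
  have hs : In ((b / δ) • u' + (-a / δ) • v') u' v' K := ⟨_, _, rfl⟩
  have ht : In ((d / δ) • u' + (-c / δ) • v') u' v' K := ⟨_, _, rfl⟩
  have f1 : B.h ((b / δ) • u' + (-a / δ) • v') u = 0 := by
    rw [B.add_left, B.smul_left, B.smul_left, e1, e2]
    ring
  have f2 : B.h ((b / δ) • u' + (-a / δ) • v') v = -1 := by
    rw [B.add_left, B.smul_left, B.smul_left, e3, e4]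
    field_simp
    rw [hδ]
    ring
  have f3 : B.h ((d / δ) • u' + (-c / δ) • v') u = 1 := by
    rw [B.add_left, B.smul_left, B.smul_left, e1, e2]
    field_simp
    rw [hδ]
    ring
  have f4 : B.h ((d / δ) • u' + (-c / δ) • v') v = 0 := by
    rw [B.add_left, B.smul_left, B.smul_left, e3, e4]
    ring
  refine ⟨_, _, h'.of_in hs ht ?_ ?_, hs, ht, f1, f2, f3, f4⟩
  · intro h0
    rw [h0, B.zero_left] at f2
    exact one_ne_zero (neg_eq_zero.1 f2.symm)
  · intro c hc
    rw [hc, B.smul_left, f1, mul_zero] at f3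
    exact zero_ne_one f3

lemma ln_dual {u v s t : V} (h : B.Ln u v) (hs : B.Q s = 0) (ht : B.Q t = 0) (hst : B.h t s = 0)
    (h1 : B.h s u = 0) (h2 : B.h s v = -1) (h3 : B.h t u = 1) (h4 : B.h t v = 0) :
    B.Ln s t := by
  refine ⟨⟨?_, hs⟩, ⟨?_, ht⟩, hst, ?_⟩
  · rintro rfl
    rw [B.zero_left] at h2
    exact one_ne_zero (neg_eq_zero.1 h2.symm)
  · rintro rfl
    rw [B.zero_left] at h3
    exact zero_ne_one h3
  · rintro c rfl
    rw [B.smul_left, h1, mul_zero] at h3
    exact zero_ne_one h3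

/-- New bases. -/
lemma Ln.base {u v : V} (h : B.Ln u v) {α β : K} (hne : α ≠ 0 ∨ β ≠ 0) :
    ∃ y, B.Ln (α • u + β • v) y ∧ In y u v K := by
  by_cases hα : α = 0
  · subst hα
    have hβ : β ≠ 0 := hne.resolve_left (fun h => h rfl)
    refine ⟨u, h.of_in ⟨_, _, rfl⟩ (In.left u v) ?_ ?_, In.left u v⟩
    · rw [zero_smul, zero_add]
      exact smul_ne_zero hβ h.2.1.1
    · intro c hc
      have h1 := h.zero (a := (1 : K)) (b := -(c * β)) (by
        rw [one_smul]
        nth_rewrite 1 [hc]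
        module)
      exact one_ne_zero h1.1
  · refine ⟨v, h.of_in ⟨_, _, rfl⟩ (In.right u v) ?_ ?_, In.right u v⟩
    · intro h0
      exact hα (h.zero h0).1
    · intro c hc
      have h1 := h.zero (a := c * α) (b := c * β - 1) (by
        have : (c * α) • u + (c * β - 1) • v = c • (α • u + β • v) - v := by module
        rw [this, ← hc, sub_self])
      have hc0 : c = 0 := (mul_eq_zero.1 h1.1).resolve_right hα
      have h2 := h1.2
      rw [hc0, zero_mul, zero_sub] at h2
      exact one_ne_zero (neg_eq_zero.1 h2)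

/-- Points of a line orthogonal to a non-opposite line. -/
lemma exists_rad {u v u' v' : V} (h : B.Ln u v) (hd : B.dl u v u' v' = 0) :
    ∃ x y, B.Ln x y ∧ In x u v K ∧ In y u v K ∧ B.h x u' = 0 ∧ B.h x v' = 0 := by
  obtain ⟨α, β, hne, h1, h2⟩ : ∃ α β : K, (α ≠ 0 ∨ β ≠ 0) ∧ α * B.h u u' + β * B.h v u' = 0 ∧
      α * B.h u v' + β * B.h v v' = 0 := by
    rw [dl] at hd
    by_cases h1 : B.h u u' = 0 ∧ B.h v u' = 0
    · by_cases h2 : B.h u v' = 0 ∧ B.h v v' = 0
      · exact ⟨1, 0, Or.inl one_ne_zero, by rw [h1.1, h1.2]; ring, by rw [h2.1, h2.2]; ring⟩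
      · refine ⟨B.h v v', -B.h u v', ?_, by rw [h1.1, h1.2]; ring, by ring⟩
        by_cases h3 : B.h v v' = 0
        · right
          exact neg_ne_zero.2 (fun h4 => h2 ⟨h4, h3⟩)
        · exact Or.inl h3
    · refine ⟨B.h v u', -B.h u u', ?_, by ring, by linear_combination -hd⟩
      by_cases h3 : B.h v u' = 0
      · right
        exact neg_ne_zero.2 (fun h4 => h1 ⟨h4, h3⟩)
      · exact Or.inl h3
  obtain ⟨y, hy, hyin⟩ := h.base hne
  exact ⟨_, y, hy, ⟨_, _, rfl⟩, hyin, by rw [B.add_left, B.smul_left, B.smul_left, h1],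
    by rw [B.add_left, B.smul_left, B.smul_left, h2]⟩

end QF

end Pool.Agent.BSpi.Orth
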