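import Pool.Agent.BSpi.Orth.Geo
import Pool.Agent.BSpi.Cls.Syl

set_option autoImplicit false
set_option linter.unusedSimpArgs false
set_option linter.unusedVariables false
set_option linter.unusedSectionVars false

open Matrix Matrix.SpecialLinearGroup
open scoped MatrixGroups

namespace Pool.Agent.BSpi.Orth

open Pool.Agent.BSpi.PSL Pool.Agent.BSpi.Cls

variable {K V : Type} [Field K] [AddCommGroup V] [Module K V] {B : QF K V}
variable {p : ℕ} [hp : Fact p.Prime] [CharP K p] {G : Type} [Group G]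

/-- The action of `SL(2, K)` on a pair of opposite lines. -/
def L2 (B : QF K V) (u v s t : V) (M : SL(2, K)) : Module.End K V where
  toFun x := x + (M 0 0 - 1) • (B.h x t • u - B.h x s • v) + M 0 1 • (B.h x u • v - B.h x v • u) +
    M 1 0 • (B.h x t • s - B.h x s • t) + (M 1 1 - 1) • (B.h x u • t - B.h x v • s)
  map_add' x y := by
    simp only [B.add_left]
    module
  map_smul' c x := by
    simp only [B.smul_left, RingHom.id_apply]
    module

lemma L2_apply (B : QF K V) (u v s t : V) (M : SL(2, K)) (x : V) : L2 B u v s t M x =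
    x + (M 0 0 - 1) • (B.h x t • u - B.h x s • v) + M 0 1 • (B.h x u • v - B.h x v • u) +
    M 1 0 • (B.h x t • s - B.h x s • t) + (M 1 1 - 1) • (B.h x u • t - B.h x v • s) := rfl

/-- Opposite pairs with dual bases. -/
structure Dual (B : QF K V) (u v s t : V) : Prop where
  L : B.Ln u v
  M : B.Ln s t
  su : B.h s u = 0
  sv : B.h s v = -1
  tu : B.h t u = 1
  tv : B.h t v = 0

lemma Dual.us {u v s t : V} (h : Dual B u v s t) : B.h u s = 0 := by rw [B.symm s u, h.su]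
lemma Dual.vs {u v s t : V} (h : Dual B u v s t) : B.h v s = -1 := by rw [B.symm s v, h.sv]
lemma Dual.ut {u v s t : V} (h : Dual B u v s t) : B.h u t = 1 := by rw [B.symm t u, h.tu]
lemma Dual.vt {u v s t : V} (h : Dual B u v s t) : B.h v t = 0 := by rw [B.symm t v, h.tv]

lemma L2_mul {u v s t : V} (h : Dual B u v s t) (M N : SL(2, K)) :
    L2 B u v s t (M * N) = L2 B u v s t M * L2 B u v s t N := by
  ext x
  change L2 B u v s t (M * N) x = L2 B u v s t M (L2 B u v s t N x)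
  rw [L2_apply B u v s t (M * N), L2_apply B u v s t M, L2_apply B u v s t N]
  simp only [B.add_left, B.sub_left, B.smul_left, h.L.1.hself, h.L.2.1.hself, h.M.1.hself,
    h.M.2.1.hself, h.L.huv, h.L.hvu, h.M.huv, h.M.hvu, h.su, h.sv, h.tu, h.tv, h.us, h.vs, h.ut,
    h.vt, mul00, mul01, mul10, mul11]
  module

lemma L2_one (u v s t : V) : L2 B u v s t 1 = 1 := by
  ext x
  rw [L2_apply]
  simp

lemma L2_u {u v s t : V} (hv : B.Q v = 0) (a : K) : L2 B u v s t (PSL.u a) = E B u (a • v) := by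
  ext x
  rw [L2_apply, E_apply, B.qsmul, hv, B.smul_right]
  simp only [u00, u01, u10, u11]
  module

lemma L2_v {u v s t : V} (ht : B.Q t = 0) (a : K) : L2 B u v s t (PSL.v a) = E B s (-a • t) := by
  ext x
  rw [L2_apply, E_apply, B.qsmul, ht, B.smul_right]
  simp only [v00, v01, v10, v11]
  module

lemma L2_inj {u v s t : V} (h : Dual B u v s t) {M : SL(2, K)} (hM : L2 B u v s t M = 1) :
    M = 1 := by
  have h1 : L2 B u v s t M u = u := by rw [hM]; rfl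
  have h2 : L2 B u v s t M s = s := by rw [hM]; rfl
  rw [L2_apply] at h1 h2
  have e1 := congrArg (fun x => B.h x t) h1
  have e2 := congrArg (fun x => B.h x v) h1
  have e3 := congrArg (fun x => B.h x t) h2
  have e4 := congrArg (fun x => B.h x v) h2
  simp only [B.add_left, B.sub_left, B.smul_left, h.L.1.hself, h.L.2.1.hself, h.M.1.hself,
    h.M.2.1.hself, h.L.huv, h.L.hvu, h.M.huv, h.M.hvu, h.su, h.sv, h.tu, h.tv, h.us, h.vs, h.ut,
    h.vt] at e1 e2 e3 e4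
  apply sl_ext
  · rw [one00]
    linear_combination e1
  · rw [one01]
    linear_combination e3
  · rw [one10]
    linear_combination -e2
  · rw [one11]
    linear_combination -e4

namespace RepO

variable (D : RepO B G)

include hp in
lemma Nm_iff [Finite K] [FiniteDimensional K V] (hn : 7 ≤ Module.finrank K V)
    {u v : V} (h : B.Ln u v) {g : G} :
    Nm (D.A u v) (pj g) ↔ In (D.ρ g u) u v K ∧ In (D.ρ g v) u v K := by
  rw [Nm, D.A_conj h]
  constructor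
  · intro e
    have h1 : pj (D.es (D.ρ g u) (D.ρ g v)) ∈ D.A u v := by
      rw [← e]
      exact (D.mem_A' (D.ln_map h g)).2 ⟨1, by rw [one_smul]⟩
    exact D.in_of_A (p := p) hn (D.ln_map h g) h h1
  · rintro ⟨h1, h2⟩
    exact D.A_eq h (D.ln_map h g) h1 h2

lemma A_pgroup {u v : V} (h : B.Ln u v) : IsPGroup p (D.A u v) := by
  rintro ⟨x, hx⟩
  obtain ⟨a, rfl⟩ := (D.mem_A' h).1 hx
  refine ⟨1, Subtype.ext ?_⟩
  change pj (D.es u (a • v)) ^ p ^ 1 = 1
  rw [← map_pow, D.es_p1 h.1.2 (by rw [B.smul_left, h.hvu, mul_zero]), map_one]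

lemma QP_pgroup {u : V} (hu : B.Sg u) : IsPGroup p ((D.QP u).map pj : Subgroup (Pr G)) := by
  rintro ⟨_, g, hg, rfl⟩
  refine ⟨1, Subtype.ext ?_⟩
  change pj g ^ p ^ 1 = 1
  rw [pow_one, ← map_pow, D.QP_pow (p := p) hu hg, map_one]

lemma QL_pgroup {u v : V} (h : B.Ln u v) : IsPGroup p ((D.QL u v).map pj : Subgroup (Pr G)) := by
  rintro ⟨_, g, hg, rfl⟩
  refine ⟨2, Subtype.ext ?_⟩
  change pj g ^ p ^ 2 = 1
  rw [← map_pow, D.QL_pow (p := p) h hg, map_one]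

/-- Conjugates of the unipotent group of a point. -/
lemma QP_Nm {u : V} {g : G} {c : K} (hc : c ≠ 0) (hg : D.ρ g u = c • u) :
    Nm ((D.QP u).map pj : Subgroup (Pr G)) (pj g) := by
  have h3 : D.ρ g⁻¹ u = c⁻¹ • u := by
    have h4 := D.inv_self_apply g u
    rw [hg, map_smul] at h4
    rw [← h4, smul_smul, inv_mul_cancel₀ hc, one_smul, h4]
  ext x
  constructor
  · rintro ⟨_, ⟨q, hq, rfl⟩, rfl⟩
    refine ⟨g * q * g⁻¹, D.QP_conj hc hg hq, ?_⟩
    change pj _ = pj g * pj q * (pj g)⁻¹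
    rw [map_mul, map_mul, map_inv]
  · rintro ⟨q, hq, rfl⟩
    refine ⟨pj (g⁻¹ * q * g⁻¹⁻¹), ⟨_, D.QP_conj (inv_ne_zero hc) h3 hq, rfl⟩, ?_⟩
    change pj g * pj (g⁻¹ * q * g⁻¹⁻¹) * (pj g)⁻¹ = pj q
    rw [← map_inv, ← map_mul, ← map_mul]
    congr 1
    group

lemma QL_fix {u v : V} {q : G} (hq : q ∈ D.QL u v) {x : V} (hx : In x u v K) : D.ρ q x = x := by
  obtain ⟨a, b, rfl⟩ := hx
  rw [map_add, map_smul, map_smul, hq.1, hq.2.1]

lemma in_inv {u v : V} (h : B.Ln u v) {g : G} (h1 : In (D.ρ g u) u v K)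
    (h2 : In (D.ρ g v) u v K) : In (D.ρ g⁻¹ u) u v K ∧ In (D.ρ g⁻¹ v) u v K := by
  obtain ⟨h3, h4⟩ := (D.ln_map h g).in_of h1 h2
  have h5 := h3.map D g⁻¹
  have h6 := h4.map D g⁻¹
  rw [D.inv_self_apply, D.inv_self_apply] at h5 h6
  exact ⟨h5, h6⟩

lemma QL_conj {u v : V} (h : B.Ln u v) {g q : G} (h1 : In (D.ρ g u) u v K)
    (h2 : In (D.ρ g v) u v K) (hq : q ∈ D.QL u v) : g * q * g⁻¹ ∈ D.QL u v := by
  obtain ⟨h3, h4⟩ := D.in_inv h h1 h2
  refine ⟨?_, ?_, fun x hx hx' => ?_⟩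
  · rw [D.mul_apply, D.mul_apply, D.QL_fix hq h3, D.self_inv_apply]
  · rw [D.mul_apply, D.mul_apply, D.QL_fix hq h4, D.self_inv_apply]
  · obtain ⟨a, b, hab⟩ := hq.2.2 (D.ρ g⁻¹ x) (by rw [D.hiso_inv]; exact h1.h0' hx hx')
      (by rw [D.hiso_inv]; exact h2.h0' hx hx')
    obtain ⟨c, d, hcd⟩ := (In.smul a h1).add (In.smul b h2)
    refine ⟨c, d, ?_⟩
    rw [D.mul_apply, D.mul_apply, hab, map_add, map_add, map_smul, map_smul, D.self_inv_apply,
      add_assoc, hcd, add_assoc]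

include hp in
lemma QL_Nm [Finite K] [FiniteDimensional K V] (hn : 7 ≤ Module.finrank K V)
    {u v : V} (h : B.Ln u v) {s : Pr G} (hs : Nm (D.A u v) s) :
    Nm ((D.QL u v).map pj : Subgroup (Pr G)) s := by
  obtain ⟨g, rfl⟩ := mk_surjective s
  obtain ⟨h1, h2⟩ := (D.Nm_iff (p := p) hn h).1 hs
  obtain ⟨h3, h4⟩ := D.in_inv h h1 h2
  ext x
  constructor
  · rintro ⟨_, ⟨q, hq, rfl⟩, rfl⟩
    refine ⟨g * q * g⁻¹, D.QL_conj h h1 h2 hq, ?_⟩
    change pj _ = pj g * pj q * (pj g)⁻¹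
    rw [map_mul, map_mul, map_inv]
  · rintro ⟨q, hq, rfl⟩
    refine ⟨pj (g⁻¹ * q * g⁻¹⁻¹), ⟨_, D.QL_conj h h3 h4 hq, rfl⟩, ?_⟩
    change pj g * pj (g⁻¹ * q * g⁻¹⁻¹) * (pj g)⁻¹ = pj q
    rw [← map_inv, ← map_mul, ← map_mul]
    congr 1
    group

include hp in
lemma QL_le [Finite K] [FiniteDimensional K V] (hn : 7 ≤ Module.finrank K V)
    {u v : V} (h : B.Ln u v) {s : Pr G} (hs : s ∈ ((D.QL u v).map pj : Subgroup (Pr G))) :
    Nm (D.A u v) s := by
  obtain ⟨g, hg, rfl⟩ := hs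
  exact (D.Nm_iff (p := p) hn h).2 ⟨by rw [hg.1]; exact In.left u v, by
    rw [hg.2.1]; exact In.right u v⟩

lemma A_le_QP {u v : V} (h : B.Ln u v) : D.A u v ≤ (D.QP u).map pj := by
  intro x hx
  obtain ⟨a, rfl⟩ := (D.mem_A' h).1 hx
  exact ⟨_, D.es_mem h.1.2 (by rw [B.smul_left, h.hvu, mul_zero]), rfl⟩

include hp in
lemma not_opp [Finite K] [FiniteDimensional K V] (hn : 7 ≤ Module.finrank K V)
    {u v u' v' : V} (h : B.Ln u v) (h' : B.Ln u' v') (hd : B.dl u v u' v' = 0) :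
    ¬ Opp p (D.A u v) (D.A u' v') := by
  obtain ⟨x, y, hxy, hx, hy, h1, h2⟩ := QF.exists_rad h hd
  rw [Opp, not_not, ← D.A_eq h hxy hx hy]
  have h3 : IsPGroup p (((D.QP x).map pj) ⊔ D.A u' v' : Subgroup (Pr G)) := by
    refine IsPGroup.to_sup_of_normal_left' (D.QP_pgroup hxy.1) (D.A_pgroup h')
      (le_normalizer fun s hs => ?_)
    obtain ⟨a, rfl⟩ := (D.mem_A' h').1 hs
    refine D.QP_Nm one_ne_zero ?_
    rw [D.es_apply h'.1.2 (by rw [B.smul_left, h'.hvu, mul_zero]), h1, B.smul_right, h2]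
    module
  exact h3.to_le (sup_le_sup_right (D.A_le_QP hxy) _)

lemma ex_L2 {u v s t : V} (h : Dual B u v s t) (M : SL(2, K)) :
    ∃ g, D.ρ g = L2 B u v s t M := by
  refine gen (fun M => ∃ g, D.ρ g = L2 B u v s t M) ?_ ?_ ?_ M
  · intro a
    rw [L2_u h.L.2.1.2]
    exact D.ex _ _ h.L.1.2 (by rw [B.smul_left, h.L.hvu, mul_zero])
  · intro a
    rw [L2_v h.M.2.1.2]
    exact D.ex _ _ h.M.1.2 (by rw [B.smul_left, h.M.hvu, mul_zero])
  · rintro M N ⟨g, hg⟩ ⟨g', hg'⟩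
    exact ⟨g * g', by rw [map_mul, hg, hg', L2_mul h]⟩

/-- The subgroup `SL(2, K)` attached to two opposite lines. -/
noncomputable def phi {u v s t : V} (h : Dual B u v s t) : SL(2, K) →* G where
  toFun M := (D.ex_L2 h M).choose
  map_one' := D.inj (by rw [(D.ex_L2 h 1).choose_spec, L2_one, map_one])
  map_mul' M N := D.inj (by
    rw [map_mul, (D.ex_L2 h _).choose_spec, (D.ex_L2 h _).choose_spec,
      (D.ex_L2 h _).choose_spec, L2_mul h])

lemma phi_rho {u v s t : V} (h : Dual B u v s t) (M : SL(2, K)) :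
    D.ρ (D.phi h M) = L2 B u v s t M := (D.ex_L2 h M).choose_spec

lemma phi_u {u v s t : V} (h : Dual B u v s t) (a : K) :
    D.phi h (PSL.u a) = D.es u (a • v) := by
  apply D.ext
  intro x
  rw [D.phi_rho, L2_u h.L.2.1.2, D.es_apply h.L.1.2 (by rw [B.smul_left, h.L.hvu, mul_zero])]
  rfl

lemma phi_v {u v s t : V} (h : Dual B u v s t) (a : K) :
    D.phi h (PSL.v a) = D.es s (-a • t) := by
  apply D.ext
  intro x
  rw [D.phi_rho, L2_v h.M.2.1.2, D.es_apply h.M.1.2 (by rw [B.smul_left, h.M.hvu, mul_zero])]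
  rfl

include hp in
/-- Opposite root groups generate `SL(2, K)`. -/
lemma isSL2 [Finite K] [FiniteDimensional K V] (hn : 7 ≤ Module.finrank K V)
    {u v u' v' : V} (h : B.Ln u v) (h' : B.Ln u' v') (hd : B.dl u v u' v' ≠ 0) :
    IsSL2 K (D.A u v) (D.A u' v') := by
  obtain ⟨s, t, hst, hs, ht, h1, h2, h3, h4⟩ := QF.dual h h' hd
  have H : Dual B u v s t := ⟨h, hst, h1, h2, h3, h4⟩
  rw [← D.A_eq h' hst hs ht]
  refine ⟨pj.comp (D.phi H), ?_, ?_, ?_, ?_⟩
  · rw [injective_iff_map_eq_one]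
    intro M hM
    have h1 : D.phi H M ∈ Subgroup.center G := mk_eq_one.1 hM
    obtain ⟨l, hl⟩ := D.center_scalar hn h1
    obtain ⟨z, hz, hzc⟩ := B.sg_perp ![u, v, s, t] (by omega)
    have e1 : B.h z u = 0 := hzc 0
    have e2 : B.h z v = 0 := hzc 1
    have e3 : B.h z s = 0 := hzc 2
    have e4 : B.h z t = 0 := hzc 3
    have h2 := hl z
    rw [D.phi_rho, L2_apply, e1, e2, e3, e4] at h2
    simp only [zero_smul, sub_zero, smul_zero, add_zero] at h2
    have h3 : l = 1 := by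
      have h4 : (l - 1) • z = 0 := by rw [sub_smul, one_smul, ← h2, sub_self]
      exact sub_eq_zero.1 ((smul_eq_zero.1 h4).resolve_right hz.1)
    apply L2_inj H
    ext x
    rw [← D.phi_rho H, hl, h3, one_smul]
    rfl
  · intro x
    rw [D.mem_A' h]
    constructor
    · rintro ⟨a, rfl⟩
      exact ⟨a, by rw [MonoidHom.comp_apply, D.phi_u]⟩
    · rintro ⟨a, rfl⟩
      exact ⟨a, by rw [MonoidHom.comp_apply, D.phi_u]⟩
  · intro x
    rw [D.mem_A' hst]
    constructor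
    · rintro ⟨a, rfl⟩
      exact ⟨-a, by rw [MonoidHom.comp_apply, D.phi_v, neg_neg]⟩
    · rintro ⟨a, rfl⟩
      exact ⟨-a, by rw [MonoidHom.comp_apply, D.phi_v]⟩
  · intro x hx
    obtain ⟨g, rfl⟩ := mk_surjective x
    have hav : ∀ a : K, B.h (a • v) u = 0 := fun a => by rw [B.smul_left, h.hvu, mul_zero]
    have h5 : pj (D.es (D.ρ g u) (D.ρ g v)) ∈ D.A u v := by
      obtain ⟨b, hb⟩ := hx 1
      rw [MonoidHom.comp_apply, D.phi_u, MonoidHom.comp_apply, D.phi_u, one_smul, ← map_inv,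
        ← map_mul, ← map_mul, D.es_conj h.1.2 h.hvu] at hb
      exact (D.mem_A' h).2 ⟨b, hb⟩
    obtain ⟨⟨α, β, hα⟩, ⟨γ, δ, hγ⟩⟩ := D.in_of_A (p := p) hn (D.ln_map h g) h h5
    refine ⟨α * δ - β * γ, fun a => ?_⟩
    rw [MonoidHom.comp_apply, D.phi_u, MonoidHom.comp_apply, D.phi_u, ← map_inv, ← map_mul,
      ← map_mul, D.es_conj h.1.2 (hav a), map_smul, hα, hγ, D.es_det h, mul_comm a]

lemma opp_iff [Finite K] [FiniteDimensional K V] (hn : 7 ≤ Module.finrank K V)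
    {u v u' v' : V} (h : B.Ln u v) (h' : B.Ln u' v') :
    Opp p (D.A u v) (D.A u' v') ↔ B.dl u v u' v' ≠ 0 := by
  constructor
  · intro h1 h0
    exact D.not_opp hn h h' h0 h1
  · intro h1
    exact (D.isSL2 (p := p) hn h h' h1).opp

lemma es_mem_QL {u v d : V} (h : B.Ln u v) (h1 : B.h d u = 0) (h2 : B.h d v = 0) :
    D.es u d ∈ D.QL u v := by
  refine ⟨?_, ?_, fun x hx hx' => ⟨-B.h x d, 0, ?_⟩⟩
  · rw [D.es_apply h.1.2 h1, h.1.hself, B.symm d u, h1]
    module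
  · rw [D.es_apply h.1.2 h1, h.hvu, B.symm d v, h2]
    module
  · rw [D.es_apply h.1.2 h1, hx]
    module

lemma es_mem_QL' {u v d : V} (h : B.Ln u v) (h1 : B.h d u = 0) (h2 : B.h d v = 0) :
    D.es v d ∈ D.QL u v := by
  refine ⟨?_, ?_, fun x hx hx' => ⟨0, -B.h x d, ?_⟩⟩
  · rw [D.es_apply h.2.1.2 h2, h.huv, B.symm d u, h1]
    module
  · rw [D.es_apply h.2.1.2 h2, h.2.1.hself, B.symm d v, h2]
    module
  · rw [D.es_apply h.2.1.2 h2, hx']
    module

lemma exists_siegel {u v s t s' t' : V} (H : Dual B u v s t) (H' : Dual B u v s' t') :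
    ∃ g ∈ D.QL u v, D.ρ g s = s' ∧ D.ρ g t = t' := by
  set d := t' - t with hd
  have hdu : B.h d u = 0 := by rw [hd, B.sub_left, H.tu, H'.tu, sub_self]
  have hdv : B.h d v = 0 := by rw [hd, B.sub_left, H.tv, H'.tv, sub_self]
  set s1 := s - B.h s t' • u with hs1
  set e := s1 - s' with he
  have f1 : B.h s1 u = 0 := by rw [hs1, B.sub_left, B.smul_left, H.su, H.L.1.hself]; ring
  have f2 : B.h s1 v = -1 := by rw [hs1, B.sub_left, B.smul_left, H.sv, H.L.huv]; ring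
  have f3 : B.Q s1 = 0 := by
    rw [hs1, B.qsub, B.qsmul, H.M.1.2, H.L.1.2, B.smul_right, H.su]
    ring
  have f4 : B.h s1 t' = 0 := by
    rw [hs1, B.sub_left, B.smul_left, H'.ut]
    ring
  have heu : B.h e u = 0 := by rw [he, B.sub_left, f1, H'.su, sub_self]
  have hev : B.h e v = 0 := by rw [he, B.sub_left, f2, H'.sv, sub_self]
  refine ⟨D.es v e * D.es u d, mul_mem (D.es_mem_QL' H.L heu hev) (D.es_mem_QL H.L hdu hdv), ?_, ?_⟩
  · have g1 : D.ρ (D.es u d) s = s1 := by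
      rw [D.es_apply H.L.1.2 hdu, H.su, hd, B.sub_right, H.M.huv, sub_zero, hs1]
      module
    have g2 : B.Q e = - B.h s1 s' := by
      rw [he, B.qsub, f3, H'.M.1.2]
      ring
    have g3 : B.h s1 e = - B.h s1 s' := by
      rw [he, B.sub_right, B.hself, f3]
      ring
    rw [D.mul_apply, g1, D.es_apply H.L.2.1.2 hev, f2, g2, g3, he]
    module
  · have g1 : D.ρ (D.es u d) t = t' := by
      have g2 : B.Q d = - B.h t t' := by
        rw [hd, B.qsub, H.M.2.1.2, H'.M.2.1.2, B.symm t t']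
        ring
      have g3 : B.h t d = B.h t t' := by
        rw [hd, B.sub_right, B.hself, H.M.2.1.2]
        ring
      rw [D.es_apply H.L.1.2 hdu, H.tu, g2, g3, hd]
      module
    have g3 : B.h t' e = 0 := by
      rw [he, B.sub_right, B.symm s1 t', f4, H'.M.hvu, sub_zero]
    rw [D.mul_apply, g1, D.es_apply H.L.2.1.2 hev, H'.tv, g3]
    module

lemma conj_pres (s : Pr G) : Pres D.R (MulAut.conj s) := by
  rintro _ ⟨u, v, h, rfl⟩
  obtain ⟨g, rfl⟩ := mk_surjective s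
  exact ⟨D.ρ g u, D.ρ g v, D.ln_map h g, D.A_conj h g⟩

include hp in
lemma pj_es_ne [Finite K] [FiniteDimensional K V] (hn : 7 ≤ Module.finrank K V) {u v : V}
    (h : B.Ln u v) : pj (D.es u v) ≠ 1 := by
  intro h0
  have h1 := D.mk_p_inj (p := p) hn (D.es_p1 h.1.2 h.hvu) (s' := 1) (one_pow _) (by
    rw [h0, map_one])
  obtain ⟨c, hc⟩ := D.es_inj h.1 h.hvu (B.zero_left u) (by rw [h1, D.es_zero h.1.2])
  rw [zero_add] at hc
  exact h.2.2.2 c hc

lemma exists_ln [Finite K] [FiniteDimensional K V] (hn : 7 ≤ Module.finrank K V) :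
    ∃ u v, B.Ln u v := by
  obtain ⟨u, hu, -⟩ := B.sg_perp (k := 0) (fun i => i.elim0) (by omega)
  obtain ⟨w, v, v', hw, hv, hv', huw, hvv', huv, huv', hwv, hwv'⟩ := QF.exists_quad hn hu
  exact ⟨u, v, QF.ln_of_h hu hv (by rw [B.symm, huv]) (by rw [huw]; exact one_ne_zero)
    (by rw [B.symm, hwv])⟩

/-- The geometry of root groups. -/
lemma geo [Finite K] [FiniteDimensional K V] (hn : 7 ≤ Module.finrank K V)
    (hS : IsSimpleGroup (Pr G)) : Geo p D.R where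
  pgroup := by
    rintro _ ⟨u, v, h, rfl⟩
    exact D.A_pgroup h
  trans := by
    rintro _ ⟨u, v, h, rfl⟩
    refine ⟨(D.QL u v).map pj, D.QL_pgroup h, fun s hs => D.QL_le (p := p) hn h hs,
      fun s hs => D.QL_Nm (p := p) hn h hs, ?_⟩
    rintro _ ⟨u1, v1, h1, rfl⟩ _ ⟨u2, v2, h2, rfl⟩ ho1 ho2
    rw [D.opp_iff hn h h1] at ho1
    rw [D.opp_iff hn h h2] at ho2
    obtain ⟨s, t, hst, hs, ht, e1, e2, e3, e4⟩ := QF.dual h h1 ho1
    obtain ⟨s', t', hst', hs', ht', e1', e2', e3', e4'⟩ := QF.dual h h2 ho2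
    obtain ⟨g, hg, hgs, hgt⟩ := D.exists_siegel ⟨h, hst, e1, e2, e3, e4⟩
      ⟨h, hst', e1', e2', e3', e4'⟩
    refine ⟨pj g, ⟨g, hg, rfl⟩, ?_⟩
    rw [← D.A_eq h1 hst hs ht, D.A_conj hst, hgs, hgt, D.A_eq h2 hst' hs' ht']
  common := by
    rintro _ ⟨u, v, h, rfl⟩ _ ⟨u', v', h', rfl⟩
    obtain ⟨s, t, hst, h1, h2⟩ := QF.lcommon (by omega) h h'
    exact ⟨D.A s t, ⟨s, t, hst, rfl⟩, (D.opp_iff hn h hst).2 h1, (D.opp_iff hn h' hst).2 h2⟩
  gen := by
    intro H hH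
    let T : Set (Pr G) := {x | ∃ u v, B.Ln u v ∧ x ∈ D.A u v}
    have h1 : Subgroup.normalClosure T ≤ H := by
      rw [Subgroup.normalClosure, Subgroup.closure_le]
      intro x hx
      rw [Group.mem_conjugatesOfSet_iff] at hx
      obtain ⟨y, ⟨u, v, h, hy⟩, hxy⟩ := hx
      obtain ⟨c, rfl⟩ := isConj_iff.1 hxy
      obtain ⟨u', v', h', hAw⟩ := D.conj_pres c (D.A u v) ⟨u, v, h, rfl⟩
      apply hH (D.A u' v') ⟨u', v', h', rfl⟩
      rw [← hAw]
      exact ⟨y, hy, rfl⟩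
    obtain ⟨u, v, h⟩ := exists_ln (B := B) hn
    rcases hS.eq_bot_or_eq_top_of_normal (Subgroup.normalClosure T) inferInstance with h2 | h2
    · exfalso
      apply D.pj_es_ne (p := p) hn h
      rw [← Subgroup.mem_bot, ← h2]
      exact Subgroup.subset_normalClosure ⟨u, v, h, (D.mem_A' h).2 ⟨1, by rw [one_smul]⟩⟩
    · rw [h2] at h1
      exact top_le_iff.1 h1

end RepO

end Pool.Agent.BSpi.Orth
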