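import Pool.Agent.BSpi.Orth.QF
import Pool.Agent.BSpi.Cls.Quo
import Pool.Agent.BSpi.Cls.GeoF

set_option autoImplicit false
set_option linter.unusedSimpArgs false
set_option linter.unusedVariables false
set_option linter.unusedSectionVars false

open Matrix Matrix.SpecialLinearGroup
open scoped MatrixGroups

namespace Pool.Agent.BSpi.Orth

open Pool.Agent.BSpi.PSL Pool.Agent.BSpi.Cls

variable {K V : Type} [Field K] [AddCommGroup V] [Module K V]

/-- Siegel transformations. -/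
def E (B : QF K V) (u v : V) : Module.End K V where
  toFun x := x + B.h x u • v - B.h x v • u - (B.Q v * B.h x u) • u
  map_add' x y := by
    rw [B.add_left, B.add_left, mul_add]
    simp only [add_smul]
    abel
  map_smul' a x := by
    rw [B.smul_left, B.smul_left, RingHom.id_apply]
    module

lemma E_apply (B : QF K V) (u v x : V) :
    E B u v x = x + B.h x u • v - B.h x v • u - (B.Q v * B.h x u) • u := rfl

lemma E_iso (B : QF K V) {u v : V} (hu : B.Q u = 0) (hv : B.h v u = 0) (x : V) :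
    B.Q (E B u v x) = B.Q x := by
  have huu : B.h u u = 0 := by rw [B.hself, hu, mul_zero]
  rw [E_apply]
  simp only [B.qsub, B.qadd, B.qsmul, hu, B.sub_left, B.add_left, B.smul_left, B.smul_right, hv, huu,
    B.symm v u, B.symm v x, B.symm u v]
  ring

/-- Groups of isometries containing the Siegel transformations. -/
structure RepO (B : QF K V) (G : Type) [Group G] where
  ρ : G →* Module.End K V
  inj : Function.Injective ρ
  iso : ∀ g x, B.Q (ρ g x) = B.Q x
  ex : ∀ u v, B.Q u = 0 → B.h v u = 0 → ∃ g, ρ g = E B u v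

variable {B : QF K V} {G : Type} [Group G]

namespace RepO

variable (D : RepO B G)

lemma mul_apply (g g' : G) (x : V) : D.ρ (g * g') x = D.ρ g (D.ρ g' x) := by
  rw [map_mul]; rfl

lemma one_apply (x : V) : D.ρ 1 x = x := by
  rw [map_one]; rfl

lemma inv_self_apply (g : G) (x : V) : D.ρ g⁻¹ (D.ρ g x) = x := by
  rw [← D.mul_apply, inv_mul_cancel, D.one_apply]

lemma self_inv_apply (g : G) (x : V) : D.ρ g (D.ρ g⁻¹ x) = x := by
  rw [← D.mul_apply, mul_inv_cancel, D.one_apply]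

lemma ext {g g' : G} (h : ∀ x, D.ρ g x = D.ρ g' x) : g = g' := D.inj (LinearMap.ext h)

lemma hiso (g : G) (x y : V) : B.h (D.ρ g x) (D.ρ g y) = B.h x y := by
  have h1 := B.qadd (D.ρ g x) (D.ρ g y)
  rw [← map_add, D.iso, D.iso, D.iso, B.qadd] at h1
  linear_combination -h1

lemma hiso_inv (g : G) (x y : V) : B.h (D.ρ g⁻¹ x) y = B.h x (D.ρ g y) := by
  rw [← D.hiso g (D.ρ g⁻¹ x) y, D.self_inv_apply]

lemma ne_zero (g : G) {x : V} (hx : x ≠ 0) : D.ρ g x ≠ 0 := by
  intro h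
  apply hx
  rw [← D.inv_self_apply g x, h, map_zero]

lemma sg (g : G) {x : V} (hx : B.Sg x) : B.Sg (D.ρ g x) :=
  ⟨D.ne_zero g hx.1, by rw [D.iso, hx.2]⟩

lemma mem_span (g : G) {x u v : V} : (∃ a b : K, D.ρ g x = a • D.ρ g u + b • D.ρ g v) ↔
    ∃ a b : K, x = a • u + b • v := by
  constructor
  · rintro ⟨a, b, h⟩
    refine ⟨a, b, ?_⟩
    have h1 := congrArg (D.ρ g⁻¹) h
    rwa [D.inv_self_apply, map_add, map_smul, map_smul, D.inv_self_apply, D.inv_self_apply] at h1
  · rintro ⟨a, b, rfl⟩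
    exact ⟨a, b, by rw [map_add, map_smul, map_smul]⟩

open Classical in
/-- Siegel elements. -/
noncomputable def es (u v : V) : G :=
  if h : B.Q u = 0 ∧ B.h v u = 0 then (D.ex u v h.1 h.2).choose else 1

lemma es_apply {u v : V} (hu : B.Q u = 0) (hv : B.h v u = 0) (x : V) :
    D.ρ (D.es u v) x = x + B.h x u • v - B.h x v • u - (B.Q v * B.h x u) • u := by
  rw [es, dif_pos ⟨hu, hv⟩, (D.ex u v hu hv).choose_spec]
  rfl

lemma es_mul {u v v' : V} (hu : B.Q u = 0) (hv : B.h v u = 0) (hv' : B.h v' u = 0) :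
    D.es u v * D.es u v' = D.es u (v + v') := by
  have huu : B.h u u = 0 := by rw [B.hself, hu, mul_zero]
  apply D.ext
  intro x
  rw [D.mul_apply, D.es_apply hu hv', D.es_apply hu hv, D.es_apply hu (by
    rw [B.add_left, hv, hv', add_zero])]
  simp only [B.add_left, B.sub_left, B.smul_left, B.add_right, huu, hv', hv, B.symm v u, mul_zero,
    add_zero, sub_zero, B.qadd, B.symm v v']
  module

lemma es_zero {u : V} (hu : B.Q u = 0) : D.es u 0 = 1 := by
  apply D.ext
  intro x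
  rw [D.es_apply hu (B.zero_left u), D.one_apply, B.zero_right, B.qzero]
  simp

lemma es_self {u : V} (hu : B.Q u = 0) (c : K) : D.es u (c • u) = 1 := by
  have huu : B.h u u = 0 := by rw [B.hself, hu, mul_zero]
  apply D.ext
  intro x
  rw [D.es_apply hu (by rw [B.smul_left, huu, mul_zero]), D.one_apply, B.smul_right, B.qsmul, hu]
  module

lemma es_shift {u v : V} (hu : B.Q u = 0) (hv : B.h v u = 0) (c : K) :
    D.es u (v + c • u) = D.es u v := by
  have huu : B.h u u = 0 := by rw [B.hself, hu, mul_zero]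
  rw [← D.es_mul hu hv (by rw [B.smul_left, huu, mul_zero]), D.es_self hu, mul_one]

lemma es_inv {u v : V} (hu : B.Q u = 0) (hv : B.h v u = 0) : (D.es u v)⁻¹ = D.es u (-v) := by
  rw [inv_eq_iff_mul_eq_one, D.es_mul hu hv (by rw [B.neg_left, hv, neg_zero]), add_neg_cancel,
    D.es_zero hu]

lemma es_conj {u v : V} (hu : B.Q u = 0) (hv : B.h v u = 0) (g : G) :
    g * D.es u v * g⁻¹ = D.es (D.ρ g u) (D.ρ g v) := by
  apply D.ext
  intro x
  rw [D.mul_apply, D.mul_apply, D.es_apply hu hv, D.es_apply (by rw [D.iso, hu])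
    (by rw [D.hiso, hv]), map_sub, map_sub, map_add, map_smul, map_smul, map_smul,
    D.self_inv_apply, D.hiso_inv, D.hiso_inv, D.iso]

lemma es_pow {u v : V} (hu : B.Q u = 0) (hv : B.h v u = 0) (n : ℕ) :
    D.es u v ^ n = D.es u ((n : K) • v) := by
  induction n with
  | zero => rw [pow_zero, Nat.cast_zero, zero_smul, D.es_zero hu]
  | succ n ih =>
    rw [pow_succ, ih, D.es_mul hu (by rw [B.smul_left, hv, mul_zero]) hv]
    congr 1
    push_cast
    rw [add_smul, one_smul]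

lemma es_pow_p {p : ℕ} [CharP K p] {u v : V} (hu : B.Q u = 0) (hv : B.h v u = 0) :
    D.es u v ^ p = 1 := by
  rw [D.es_pow hu hv, CharP.cast_eq_zero, zero_smul, D.es_zero hu]

/-- The scaling of Siegel elements. -/
lemma es_scale {u v : V} (hu : B.Q u = 0) (hv : B.h v u = 0) (c : K) :
    D.es (c • u) v = D.es u (c • v) := by
  apply D.ext
  intro x
  rw [D.es_apply (by rw [B.qsmul, hu, mul_zero]) (by rw [B.smul_right, hv, mul_zero]), D.es_apply hu
    (by rw [B.smul_left, hv, mul_zero]), B.smul_right, B.smul_right, B.qsmul]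
  module

lemma es_swap {u v : V} (hu : B.Q u = 0) (hv : B.Q v = 0) (huv : B.h v u = 0) (a : K) :
    D.es u (a • v) = D.es v (-a • u) := by
  apply D.ext
  intro x
  rw [D.es_apply hu (by rw [B.smul_left, huv, mul_zero]), D.es_apply hv (by
    rw [B.smul_left, B.symm, huv, mul_zero]), B.smul_right, B.smul_right, B.qsmul, B.qsmul, hu, hv]
  module

end RepO

/-- Partners of singular vectors. -/
lemma QF.partner {u : V} (hu : B.Sg u) : ∃ w, B.Sg w ∧ B.h u w = 1 := by
  obtain ⟨y, hy⟩ : ∃ y, B.h u y ≠ 0 := by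
    by_contra hcon
    push Not at hcon
    exact hu.1 (B.nondeg u hcon)
  have hy' : B.h y u ≠ 0 := by rw [B.symm]; exact hy
  have h1 := QF.correct hu hy'
  have h2 : B.h u (y - (B.Q y / B.h y u) • u) = B.h u y := by
    rw [B.sub_right, B.smul_right, hu.hself, mul_zero, sub_zero]
  exact ⟨_, h1.smul (inv_ne_zero hy), by rw [B.smul_right, h2, inv_mul_cancel₀ hy]⟩

/-- Linear maps vanishing on singular vectors vanish. -/
lemma QF.ext_sg (hB : ∃ u, B.Sg u) {W : Type} [AddCommGroup W] [Module K W] (T : V →ₗ[K] W)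
    (hT : ∀ u, B.Sg u → T u = 0) (x : V) : T x = 0 := by
  have h1 : ∀ x z, B.Sg z → B.h x z ≠ 0 → T x = 0 := by
    intro x z hz hxz
    have h2 := hT _ (QF.correct hz hxz)
    rwa [map_sub, map_smul, hT z hz, smul_zero, sub_zero] at h2
  by_cases h2 : ∃ z, B.Sg z ∧ B.h x z ≠ 0
  · obtain ⟨z, hz, hxz⟩ := h2
    exact h1 x z hz hxz
  · push Not at h2
    obtain ⟨u, hu⟩ := hB
    obtain ⟨w, hw, huw⟩ := QF.partner hu
    have h3 := h1 (x + u) w hw (by
      rw [B.add_left, h2 w hw, zero_add, huw]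
      exact one_ne_zero)
    rwa [map_add, hT u hu, add_zero] at h3

namespace RepO

variable (D : RepO B G)

lemma es_inj {u v v' : V} (hu : B.Sg u) (hv : B.h v u = 0) (hv' : B.h v' u = 0)
    (h : D.es u v = D.es u v') : ∃ c : K, v = v' + c • u := by
  obtain ⟨w, hw, huw⟩ := QF.partner hu
  have h1 : D.ρ (D.es u v) w = D.ρ (D.es u v') w := by rw [h]
  rw [D.es_apply hu.2 hv, D.es_apply hu.2 hv', B.symm u w, huw] at h1
  refine ⟨B.h w v + B.Q v - (B.h w v' + B.Q v'), ?_⟩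
  have h2 : v - v' = (B.h w v + B.Q v - (B.h w v' + B.Q v')) • u := by
    have h3 : w + (1 : K) • v - B.h w v • u - (B.Q v * 1) • u -
        (w + (1 : K) • v' - B.h w v' • u - (B.Q v' * 1) • u) = 0 := sub_eq_zero.2 h1
    have h4 : v - v' - (B.h w v + B.Q v - (B.h w v' + B.Q v')) • u = 0 := by
      rw [← h3]
      module
    exact sub_eq_zero.1 h4
  rw [← h2]
  abel

/-- The unipotent group attached to a singular vector. -/
def QP (u : V) : Subgroup G where
  carrier := {g | D.ρ g u = u ∧ ∀ x, B.h x u = 0 → ∃ c : K, D.ρ g x = x + c • u}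
  mul_mem' := by
    rintro g g' ⟨h1, h2⟩ ⟨h3, h4⟩
    refine ⟨by rw [D.mul_apply, h3, h1], fun x hx => ?_⟩
    obtain ⟨c, hc⟩ := h4 x hx
    obtain ⟨d, hd⟩ := h2 x hx
    exact ⟨d + c, by rw [D.mul_apply, hc, map_add, map_smul, h1, hd, add_smul, add_assoc]⟩
  one_mem' := ⟨D.one_apply u, fun x _ => ⟨0, by rw [D.one_apply, zero_smul, add_zero]⟩⟩
  inv_mem' := by
    rintro g ⟨h1, h2⟩
    refine ⟨by nth_rewrite 1 [← h1]; exact D.inv_self_apply g u, fun x hx => ?_⟩
    obtain ⟨c, hc⟩ := h2 (D.ρ g⁻¹ x) (by rw [D.hiso_inv, h1, hx])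
    rw [D.self_inv_apply] at hc
    exact ⟨-c, by rw [hc, neg_smul]; nth_rewrite 1 [← hc]; rw [add_neg_cancel_right]⟩

lemma es_mem {u v : V} (hu : B.Q u = 0) (hv : B.h v u = 0) : D.es u v ∈ D.QP u := by
  have huu : B.h u u = 0 := by rw [B.hself, hu, mul_zero]
  refine ⟨?_, fun x hx => ⟨-B.h x v, ?_⟩⟩
  · rw [D.es_apply hu hv, huu, B.symm v u, hv]
    simp
  · rw [D.es_apply hu hv, hx]
    module

lemma QP_form {u : V} (hu : B.Sg u) {g : G} (hg : g ∈ D.QP u) : ∃ d, B.h d u = 0 ∧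
    g = D.es u d := by
  obtain ⟨w, hw, huw⟩ := QF.partner hu
  obtain ⟨h1, h2⟩ := hg
  have hwu : B.h w u = 1 := by rw [B.symm, huw]
  set d := D.ρ g w - w with hd
  have hgw : D.ρ g w = w + d := by rw [hd]; abel
  have hdu : B.h d u = 0 := by
    rw [hd, B.sub_left]
    nth_rewrite 1 [← h1]
    rw [D.hiso, sub_self]
  have hq : B.Q d + B.h w d = 0 := by
    have h3 := D.iso g w
    rw [hgw, B.qadd, hw.2] at h3
    linear_combination h3
  refine ⟨d, hdu, D.ext fun x => ?_⟩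
  have key : ∀ x, B.h x u = 0 → D.ρ g x = x - B.h x d • u := by
    intro x hx
    obtain ⟨c, hc⟩ := h2 x hx
    have h3 := D.hiso g x w
    rw [hc, hgw, B.add_left, B.add_right, B.smul_left, B.add_right, huw, B.symm d u, hdu] at h3
    have h4 : c = -B.h x d := by linear_combination h3
    rw [hc, h4]
    module
  have hx : B.h (x - B.h x u • w) u = 0 := by
    rw [B.sub_left, B.smul_left, hwu, mul_one, sub_self]
  have h3 := key _ hx
  rw [map_sub, map_smul, hgw, B.sub_left, B.smul_left] at h3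
  rw [D.es_apply hu.2 hdu]
  have h4 : D.ρ g x = x - B.h x u • w - (B.h x d - B.h x u * B.h w d) • u + B.h x u • (w + d) := by
    rw [← h3]
    abel
  have h5 : B.Q d = - B.h w d := by linear_combination hq
  rw [h4, h5]
  module

lemma QP_pow {p : ℕ} [CharP K p] {u : V} (hu : B.Sg u) {g : G} (hg : g ∈ D.QP u) : g ^ p = 1 := by
  obtain ⟨d, hd, rfl⟩ := D.QP_form hu hg
  exact D.es_pow_p hu.2 hd

lemma QP_conj {u : V} {g q : G} {c : K} (hc : c ≠ 0) (hg : D.ρ g u = c • u) (hq : q ∈ D.QP u) :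
    g * q * g⁻¹ ∈ D.QP u := by
  obtain ⟨h1, h2⟩ := hq
  have h3 : D.ρ g⁻¹ u = c⁻¹ • u := by
    have h4 := D.inv_self_apply g u
    rw [hg, map_smul] at h4
    rw [← h4, smul_smul, inv_mul_cancel₀ hc, one_smul, h4]
  refine ⟨?_, fun x hx => ?_⟩
  · rw [D.mul_apply, D.mul_apply, h3, map_smul, h1, map_smul, hg, smul_smul, inv_mul_cancel₀ hc,
      one_smul]
  · obtain ⟨d, hd⟩ := h2 (D.ρ g⁻¹ x) (by rw [D.hiso_inv, hg, B.smul_right, hx, mul_zero])
    exact ⟨d * c, by rw [D.mul_apply, D.mul_apply, hd, map_add, D.self_inv_apply, map_smul, hg,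
      smul_smul]⟩

/-- Bases of singular lines. -/
def _root_.Pool.Agent.BSpi.Orth.QF.Ln (B : QF K V) (u v : V) : Prop :=
  B.Sg u ∧ B.Sg v ∧ B.h v u = 0 ∧ ∀ c : K, v ≠ c • u

/-- The unipotent group attached to a singular line. -/
def QL (u v : V) : Subgroup G where
  carrier := {g | D.ρ g u = u ∧ D.ρ g v = v ∧
    ∀ x, B.h x u = 0 → B.h x v = 0 → ∃ a b : K, D.ρ g x = x + a • u + b • v}
  mul_mem' := by
    rintro g g' ⟨h1, h2, h3⟩ ⟨h4, h5, h6⟩
    refine ⟨by rw [D.mul_apply, h4, h1], by rw [D.mul_apply, h5, h2], fun x hx hx' => ?_⟩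
    obtain ⟨a, b, hab⟩ := h6 x hx hx'
    obtain ⟨c, d, hcd⟩ := h3 x hx hx'
    refine ⟨c + a, d + b, ?_⟩
    rw [D.mul_apply, hab, map_add, map_add, map_smul, map_smul, h1, h2, hcd]
    module
  one_mem' := ⟨D.one_apply u, D.one_apply v, fun x _ _ => ⟨0, 0, by rw [D.one_apply]; module⟩⟩
  inv_mem' := by
    rintro g ⟨h1, h2, h3⟩
    refine ⟨by nth_rewrite 1 [← h1]; exact D.inv_self_apply g u,
      by nth_rewrite 1 [← h2]; exact D.inv_self_apply g v, fun x hx hx' => ?_⟩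
    obtain ⟨a, b, hab⟩ := h3 (D.ρ g⁻¹ x) (by rw [D.hiso_inv, h1, hx]) (by rw [D.hiso_inv, h2, hx'])
    rw [D.self_inv_apply] at hab
    refine ⟨-a, -b, ?_⟩
    have h4 : D.ρ g⁻¹ x = (D.ρ g⁻¹ x + a • u + b • v) + (-a) • u + (-b) • v := by module
    rw [h4, ← hab]

lemma QL_pow {p : ℕ} [hp : Fact p.Prime] [CharP K p] {u v : V} (huv : B.Ln u v) {g : G}
    (hg : g ∈ D.QL u v) : g ^ p ^ 2 = 1 := by
  obtain ⟨h1, h2, h3⟩ := hg
  apply D.inj
  rw [map_pow, map_one]
  refine unip_pow2 ?_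
  ext x
  have e1 : B.h (D.ρ g x - x) u = 0 := by
    rw [B.sub_left]
    nth_rewrite 1 [← h1]
    rw [D.hiso, sub_self]
  have e1' : B.h (D.ρ g x - x) v = 0 := by
    rw [B.sub_left]
    nth_rewrite 1 [← h2]
    rw [D.hiso, sub_self]
  obtain ⟨a, b, hab⟩ := h3 _ e1 e1'
  change (D.ρ g - 1) ((D.ρ g - 1) ((D.ρ g - 1) x)) = 0
  have e2 : (D.ρ g - 1) x = D.ρ g x - x := rfl
  have e3 : (D.ρ g - 1) (D.ρ g x - x) = a • u + b • v := by
    change D.ρ g (D.ρ g x - x) - (D.ρ g x - x) = _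
    rw [hab]
    abel
  rw [e2, e3, map_add, map_smul, map_smul]
  change a • (D.ρ g u - u) + b • (D.ρ g v - v) = 0
  rw [h1, h2, sub_self, sub_self, smul_zero, smul_zero, add_zero]

end RepO

end Pool.Agent.BSpi.Orth
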