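import Pool.Agent.BSpi.Orth.Spec

set_option autoImplicit false
set_option linter.unusedSimpArgs false
set_option linter.unusedVariables false
set_option linter.unusedSectionVars false

open Matrix Matrix.SpecialLinearGroup
open scoped MatrixGroups

namespace Pool.Agent.BSpi.Orth

open Pool.Agent.BSpi.PSL Pool.Agent.BSpi.Cls

/-- Conjugate pairs of subgroups. -/
def Orb {S : Type} [Group S] (X Y X' Y' : Subgroup S) : Prop :=
  ∃ s : S, im (MulAut.conj s) X = X' ∧ im (MulAut.conj s) Y = Y'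

section

variable {S : Type} [Group S] {X Y X' Y' X'' Y'' : Subgroup S}

lemma Orb.refl (X Y : Subgroup S) : Orb X Y X Y := ⟨1, by rw [map_one, im_one], by rw [map_one, im_one]⟩

lemma Orb.symm (h : Orb X Y X' Y') : Orb X' Y' X Y := by
  obtain ⟨s, rfl, rfl⟩ := h
  refine ⟨s⁻¹, ?_, ?_⟩
  · rw [← im_mul, ← map_mul, inv_mul_cancel, map_one, im_one]
  · rw [← im_mul, ← map_mul, inv_mul_cancel, map_one, im_one]

lemma Orb.trans (h : Orb X Y X' Y') (h' : Orb X' Y' X'' Y'') : Orb X Y X'' Y'' := by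
  obtain ⟨s, rfl, rfl⟩ := h
  obtain ⟨t, rfl, rfl⟩ := h'
  exact ⟨t * s, by rw [map_mul, im_mul], by rw [map_mul, im_mul]⟩

lemma Orb.im (h : Orb X Y X' Y') (f : MulAut S) :
    Orb (im f X) (im f Y) (im f X') (im f Y') := by
  obtain ⟨s, rfl, rfl⟩ := h
  exact ⟨f s, by rw [im_conj], by rw [im_conj]⟩

end

variable {K V : Type} [Field K] [AddCommGroup V] [Module K V] {B : QF K V}
variable {p : ℕ} [hp : Fact p.Prime] [CharP K p] {G : Type} [Group G]

lemma finrank_perp_eq [FiniteDimensional K V] {k : ℕ} (c : Fin k → V)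
    (hc : LinearIndependent K c) : Module.finrank K (B.perp c) + k = Module.finrank K V := by
  let T : V →ₗ[K] (Fin k → K) :=
    { toFun := fun z i => B.h z (c i)
      map_add' := fun x y => by
        ext i
        exact B.add_left _ _ _
      map_smul' := fun c x => by
        ext i
        exact B.smul_left _ _ _ }
  have h1 := T.finrank_range_add_finrank_ker
  have h2 : LinearMap.ker T = B.perp c := by
    ext x
    rw [LinearMap.mem_ker]
    exact ⟨fun h i => congrFun h i, fun h => funext h⟩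
  have h3 : LinearMap.range T = ⊤ := by
    rw [LinearMap.range_eq_top]
    intro a
    obtain ⟨z, hz⟩ := B.vals c hc a
    exact ⟨z, funext hz⟩
  rw [h3, finrank_top, Module.finrank_fintype_fun_eq_card, Fintype.card_fin, h2] at h1
  omega

/-- There are no three-dimensional totally singular subspaces in dimension four. -/
lemma no3 [FiniteDimensional K V] (h4 : Module.finrank K V ≤ 4) {a b c : V} (h : B.Ln a b)
    (h' : B.Ln a c) (hbc : B.h b c = 0) : In c a b K := by
  by_contra hcon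
  have hind : LinearIndependent K ![a, b, c] := by
    rw [Fintype.linearIndependent_iff]
    intro g hg
    rw [Fin.sum_univ_three] at hg
    have hg' : g 0 • a + g 1 • b + g 2 • c = 0 := hg
    have h2 : g 2 = 0 := by
      by_contra h2
      apply hcon
      refine ⟨-((g 2)⁻¹ * g 0), -((g 2)⁻¹ * g 1), ?_⟩
      have h3 : c = (g 2)⁻¹ • (g 2 • c) := by rw [smul_smul, inv_mul_cancel₀ h2, one_smul]
      have h4 : g 2 • c = -(g 0 • a) - g 1 • b := by
        rw [← sub_eq_zero, ← hg']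
        abel
      rw [h3, h4]
      module
    rw [h2, zero_smul, add_zero] at hg'
    have h3 := h.zero hg'
    intro i
    fin_cases i
    · exact h3.1
    · exact h3.2
    · exact h2
  have h1 := finrank_perp_eq (B := B) _ hind
  have hle : Submodule.span K (Set.range ![a, b]) ≤ B.perp ![a, b, c] := by
    rw [Submodule.span_le]
    rintro _ ⟨i, rfl⟩ j
    fin_cases i <;> fin_cases j
    · exact h.1.hself
    · exact h.huv
    · exact h'.huv
    · exact h.hvu
    · exact h.2.1.hself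
    · exact hbc
  have h2 := Submodule.finrank_mono hle
  rw [finrank_span_eq_card h.indep, Fintype.card_fin] at h2
  omega

/-- Non-opposite lines in dimension four meet. -/
lemma meet4 [FiniteDimensional K V] (h4 : Module.finrank K V ≤ 4) {a b c d : V} (h : B.Ln a b)
    (h' : B.Ln c d) (hd : B.dl a b c d = 0) : ∃ x, x ≠ 0 ∧ In x a b K ∧ In x c d K := by
  obtain ⟨x, y, hxy, hx, hy, hxc, hxd⟩ := QF.exists_rad h hd
  refine ⟨x, hxy.1.1, hx, ?_⟩
  by_cases hk : ∃ k : K, x = k • c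
  · obtain ⟨k, hk⟩ := hk
    exact ⟨k, 0, by rw [hk]; module⟩
  · push Not at hk
    exact no3 h4 h' ⟨h'.1, hxy.1, hxc, hk⟩ (by rw [B.symm, hxd])

/-- Bases of lines through given points. -/
lemma base_pt {a b x : V} (h : B.Ln a b) (hx : x ≠ 0) (hin : In x a b K) :
    ∃ y, B.Ln x y ∧ In y a b K := by
  obtain ⟨α, β, rfl⟩ := hin
  refine h.base ?_
  by_contra hcon
  push Not at hcon
  apply hx
  rw [hcon.1, hcon.2]
  module

/-- Lines with the same span. -/
def SameL (K : Type) [Field K] [Module K V] (a b c d : V) : Prop :=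
  In c a b K ∧ In d a b K

lemma sameL_of_two {a b c d x y : V} (h' : B.Ln c d) (hxy : B.Ln x y)
    (h1 : In x a b K) (h2 : In y a b K) (h3 : In x c d K) (h4 : In y c d K) :
    SameL K a b c d := by
  obtain ⟨h5, h6⟩ := hxy.in_of h3 h4
  exact ⟨h5.trans h1 h2, h6.trans h1 h2⟩

/-- Three lines in dimension four. -/
lemma three4 [FiniteDimensional K V] (h4 : Module.finrank K V ≤ 4)
    {b1 b2 c1 c2 d1 d2 : V} (hb : B.Ln b1 b2) (hc : B.Ln c1 c2) (hd : B.Ln d1 d2)
    (h12 : B.dl b1 b2 c1 c2 = 0) (h13 : B.dl b1 b2 d1 d2 = 0) (h23 : B.dl c1 c2 d1 d2 = 0) :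
    SameL K b1 b2 c1 c2 ∨ SameL K b1 b2 d1 d2 ∨ SameL K c1 c2 d1 d2 := by
  obtain ⟨x, hx, hxb, hxc⟩ := meet4 h4 hb hc h12
  obtain ⟨y, hy, hyb, hyd⟩ := meet4 h4 hb hd h13
  obtain ⟨z, hz, hzc, hzd⟩ := meet4 h4 hc hd h23
  have hxS : B.Sg x := ⟨hx, hb.q hxb⟩
  have hyS : B.Sg y := ⟨hy, hb.q hyb⟩
  have hzS : B.Sg z := ⟨hz, hc.q hzc⟩
  by_cases hk : ∃ k : K, y = k • x
  · obtain ⟨k, hk⟩ := hk
    have hk0 : k ≠ 0 := by
      rintro rfl
      exact hy (by rw [hk, zero_smul])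
    have hxd : In x d1 d2 K := by
      have h1 : x = k⁻¹ • y := by rw [hk, smul_smul, inv_mul_cancel₀ hk0, one_smul]
      rw [h1]
      exact In.smul _ hyd
    obtain ⟨y1, hL1, hy1⟩ := base_pt hb hx hxb
    obtain ⟨y2, hL2, hy2⟩ := base_pt hc hx hxc
    obtain ⟨y3, hL3, hy3⟩ := base_pt hd hx hxd
    by_cases e12 : B.h y1 y2 = 0
    · left
      have h1 := no3 h4 hL1 hL2 e12
      exact sameL_of_two hc hL2 hxb (h1.trans hxb hy1) hxc hy2
    by_cases e13 : B.h y1 y3 = 0
    · right; left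
      have h1 := no3 h4 hL1 hL3 e13
      exact sameL_of_two hd hL3 hxb (h1.trans hxb hy1) hxd hy3
    by_cases e23 : B.h y2 y3 = 0
    · right; right
      have h1 := no3 h4 hL2 hL3 e23
      exact sameL_of_two hd hL3 hxc (h1.trans hxc hy2) hxd hy3
    exfalso
    have e21 : B.h y2 y1 ≠ 0 := by rw [B.symm y1 y2]; exact e12
    set w := y3 - (B.h y3 y2 / B.h y1 y2) • y1 - (B.h y3 y1 / B.h y2 y1) • y2 with hw
    have w1 : B.h w x = 0 := by
      rw [hw, B.sub_left, B.sub_left, B.smul_left, B.smul_left, hL1.hvu, hL2.hvu, hL3.hvu]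
      ring
    have w2 : B.h w y1 = 0 := by
      rw [hw, B.sub_left, B.sub_left, B.smul_left, B.smul_left, hL1.2.1.hself,
        div_mul_cancel₀ _ e21]
      ring
    have w3 : B.h w y2 = 0 := by
      rw [hw, B.sub_left, B.sub_left, B.smul_left, B.smul_left, hL2.2.1.hself,
        div_mul_cancel₀ _ e12]
      ring
    have hind : LinearIndependent K ![x, y1, y2] := by
      rw [Fintype.linearIndependent_iff]
      intro g hg
      rw [Fin.sum_univ_three] at hg
      have hg' : g 0 • x + g 1 • y1 + g 2 • y2 = 0 := hg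
      have k1 := congrArg (fun v => B.h v y1) hg'
      have k2 := congrArg (fun v => B.h v y2) hg'
      simp only [B.add_left, B.smul_left, B.zero_left, hL1.huv, hL2.huv, hL1.2.1.hself,
        hL2.2.1.hself, mul_zero, add_zero, zero_add] at k1 k2
      have k3 := (mul_eq_zero.1 k1).resolve_right e21
      have k4 := (mul_eq_zero.1 k2).resolve_right e12
      rw [k3, k4, zero_smul, zero_smul, add_zero, add_zero] at hg'
      have k5 := (smul_eq_zero.1 hg').resolve_right hx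
      intro i
      fin_cases i
      · exact k5
      · exact k4
      · exact k3
    have hfr := finrank_perp_eq (B := B) _ hind
    have hwk : ∃ k : K, w = k • x := by
      by_contra hcon
      push Not at hcon
      have hind2 : LinearIndependent K ![x, w] := by
        rw [Fintype.linearIndependent_iff]
        intro g hg
        rw [Fin.sum_univ_two] at hg
        have hg' : g 0 • x + g 1 • w = 0 := hg
        have h2 : g 1 = 0 := by
          by_contra h2
          apply hcon (-((g 1)⁻¹ * g 0))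
          have h3 : w = (g 1)⁻¹ • (g 1 • w) := by rw [smul_smul, inv_mul_cancel₀ h2, one_smul]
          have h4 : g 1 • w = -(g 0 • x) := by
            rw [← sub_eq_zero, ← hg']
            abel
          rw [h3, h4]
          module
        rw [h2, zero_smul, add_zero] at hg'
        have h3 := (smul_eq_zero.1 hg').resolve_right hx
        intro i
        fin_cases i
        · exact h3
        · exact h2
      have hle : Submodule.span K (Set.range ![x, w]) ≤ B.perp ![x, y1, y2] := by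
        rw [Submodule.span_le]
        rintro _ ⟨i, rfl⟩ j
        fin_cases i <;> fin_cases j
        · exact hL1.1.hself
        · exact hL1.huv
        · exact hL2.huv
        · exact w1
        · exact w2
        · exact w3
      have h2 := Submodule.finrank_mono hle
      rw [finrank_span_eq_card hind2, Fintype.card_fin] at h2
      omega
    obtain ⟨k', hk'⟩ := hwk
    have hy3e : y3 = (B.h y3 y2 / B.h y1 y2) • y1 + (B.h y3 y1 / B.h y2 y1) • y2 + k' • x := by
      rw [← hk', hw]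
      abel
    have hQ := hL3.2.1.2
    rw [hy3e] at hQ
    simp only [B.qadd, B.qsmul, B.add_left, B.smul_left, B.smul_right, hL1.1.2, hL1.2.1.2,
      hL2.2.1.2, hL1.hvu, hL2.hvu, mul_zero, add_zero, zero_add] at hQ
    have f1 : B.h y3 y2 / B.h y1 y2 ≠ 0 := div_ne_zero (by rw [B.symm y2 y3]; exact e23) e12
    have f2 : B.h y3 y1 / B.h y2 y1 ≠ 0 := div_ne_zero (by rw [B.symm y1 y3]; exact e13) e21
    exact mul_ne_zero f1 (mul_ne_zero f2 e12) hQ
  · push Not at hk
    have hLxy : B.Ln x y := ⟨hxS, hyS, hb.hh hyb hxb, hk⟩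
    have hzx : B.h z x = 0 := hc.hh hzc hxc
    have hyz : B.h y z = 0 := hd.hh hyd hzd
    have hzb : In z b1 b2 K := by
      by_cases hk2 : ∃ k : K, z = k • x
      · obtain ⟨k, hk⟩ := hk2
        rw [hk]
        exact In.smul k hxb
      · push Not at hk2
        exact (no3 h4 hLxy ⟨hxS, hzS, hzx, hk2⟩ hyz).trans hxb hyb
    by_cases hk2 : ∃ k : K, z = k • x
    · obtain ⟨k, hk⟩ := hk2
      have hk0 : k ≠ 0 := by
        rintro rfl
        exact hz (by rw [hk, zero_smul])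
      have hxd : In x d1 d2 K := by
        have h1 : x = k⁻¹ • z := by rw [hk, smul_smul, inv_mul_cancel₀ hk0, one_smul]
        rw [h1]
        exact In.smul _ hzd
      right; left
      exact sameL_of_two hd hLxy hxb hyb hxd hyd
    · push Not at hk2
      left
      exact sameL_of_two hc ⟨hxS, hzS, hzx, hk2⟩ hxb hzb hxc hzc

namespace RepO

variable (D : RepO B G)

lemma siegel_pt {c a b : V} (hc : B.Sg c) (ha : B.Q a = 0) (hb : B.Q b = 0) (hac : B.h a c = 1)
    (hbc : B.h b c = 1) : ∃ g : G, D.ρ g a = b ∧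
      ∀ z, B.h z c = 0 → B.h z a = B.h z b → D.ρ g z = z := by
  have h1 : B.h (b - a) c = 0 := by rw [B.sub_left, hac, hbc, sub_self]
  refine ⟨D.es c (b - a), ?_, fun z hz hz' => ?_⟩
  · rw [D.es_apply hc.2 h1, hac, B.sub_right, B.hself, ha, B.qsub, ha, hb, B.symm a b]
    module
  · rw [D.es_apply hc.2 h1, hz, B.sub_right, hz', sub_self]
    module

lemma pt_trans [Finite K] [FiniteDimensional K V] (hn : 7 ≤ Module.finrank K V) {x x1 : V}
    (hx : B.Sg x) (hx1 : B.Sg x1) : ∃ (g : G) (k : K), k ≠ 0 ∧ D.ρ g x = k • x1 := by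
  obtain ⟨c, hc, h1, h2⟩ := QF.pcommon (by omega) hx hx1
  have h1' : B.h x c ≠ 0 := by rw [B.symm]; exact h1
  have h2' : B.h x1 c ≠ 0 := by rw [B.symm]; exact h2
  obtain ⟨g, hg, -⟩ := D.siegel_pt hc (hx.smul (inv_ne_zero h1')).2
    (hx1.smul (inv_ne_zero h2')).2 (by rw [B.smul_left, inv_mul_cancel₀ h1'])
    (by rw [B.smul_left, inv_mul_cancel₀ h2'])
  refine ⟨g, B.h x c * (B.h x1 c)⁻¹, mul_ne_zero h1' (inv_ne_zero h2'), ?_⟩
  rw [mul_smul, ← hg, map_smul, smul_smul, mul_inv_cancel₀ h1', one_smul]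

lemma ln_trans [Finite K] [FiniteDimensional K V] (hn : 7 ≤ Module.finrank K V) {x y y1 : V}
    (h : B.Ln x y) (h' : B.Ln x y1) : ∃ (g : G) (k : K), k ≠ 0 ∧ D.ρ g x = x ∧
      D.ρ g y = k • y1 := by
  obtain ⟨z, hz, hzx, hzy, hzy1⟩ := QF.perp2 (by omega) h.1 h h'
  have h1' : B.h y z ≠ 0 := by rw [B.symm]; exact hzy
  have h2' : B.h y1 z ≠ 0 := by rw [B.symm]; exact hzy1
  obtain ⟨g, hg, hgf⟩ := D.siegel_pt hz (h.2.1.smul (inv_ne_zero h1')).2
    (h'.2.1.smul (inv_ne_zero h2')).2 (by rw [B.smul_left, inv_mul_cancel₀ h1'])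
    (by rw [B.smul_left, inv_mul_cancel₀ h2'])
  refine ⟨g, B.h y z * (B.h y1 z)⁻¹, mul_ne_zero h1' (inv_ne_zero h2'), hgf x ?_ ?_, ?_⟩
  · rw [B.symm, hzx]
  · rw [B.smul_right, B.smul_right, h.huv, h'.huv, mul_zero, mul_zero]
  · rw [mul_smul, ← hg, map_smul, smul_smul, mul_inv_cancel₀ h1', one_smul]

lemma ln_smul {x y : V} (h : B.Ln x y) {k : K} (hk : k ≠ 0) :
    B.Ln x (k • y) ∧ D.A x (k • y) = D.A x y := by
  have h1 : B.Ln x (k • y) := h.of_in (In.left x y) (In.smul k (In.right x y)) h.1.1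
    (fun c hc => by
      have h2 := h.zero (a := c) (b := -k) (by
        have h3 := sub_eq_zero.2 hc
        rw [← neg_eq_zero, ← h3]
        module)
      exact hk (neg_eq_zero.1 h2.2))
  exact ⟨h1, D.A_eq h h1 (In.left x y) (In.smul k (In.right x y))⟩

lemma ln_smul_left {x y : V} (h : B.Ln x y) {k : K} (hk : k ≠ 0) :
    B.Ln (k • x) y ∧ D.A (k • x) y = D.A x y := by
  have h1 : B.Ln (k • x) y := h.of_in (In.smul k (In.left x y)) (In.right x y)
    (smul_ne_zero hk h.1.1) (fun c hc => h.2.2.2 (c * k) (by rw [mul_smul]; exact hc))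
  exact ⟨h1, D.A_eq h h1 (In.smul k (In.left x y)) (In.right x y)⟩

lemma R_trans [Finite K] [FiniteDimensional K V] (hn : 7 ≤ Module.finrank K V)
    {X X' : Subgroup (Pr G)} (hX : X ∈ D.R) (hX' : X' ∈ D.R) :
    ∃ s : Pr G, im (MulAut.conj s) X = X' := by
  obtain ⟨x, y, h, rfl⟩ := hX
  obtain ⟨x1, y1, h1, rfl⟩ := hX'
  obtain ⟨g, k, hk, hg⟩ := D.pt_trans hn h.1 h1.1
  have h2 := D.ln_map h g
  rw [hg] at h2
  have h3 := D.ln_smul_left h2 (inv_ne_zero hk)
  rw [smul_smul, inv_mul_cancel₀ hk, one_smul] at h3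
  obtain ⟨g2, k2, hk2, hg2, hg2'⟩ := D.ln_trans hn h3.1 h1
  refine ⟨pj (g2 * g), ?_⟩
  rw [map_mul, map_mul, im_mul, D.A_conj h, hg, ← h3.2, D.A_conj h3.1, hg2, hg2',
    (D.ln_smul h1 hk2).2]

/-- Conjugacy of pairs of the first type. -/
lemma C2_orb [Finite K] [FiniteDimensional K V] (hn : 7 ≤ Module.finrank K V)
    {X Y X' Y' : Subgroup (Pr G)} (h : D.C2 X Y) (h' : D.C2 X' Y') : Orb X Y X' Y' := by
  obtain ⟨x, y, y', a1, a2, a3, rfl, rfl⟩ := h
  obtain ⟨x1, y1, y1', b1, b2, b3, rfl, rfl⟩ := h'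
  obtain ⟨g, k, hk, hg⟩ := D.pt_trans hn a1.1 b1.1
  have c1 := D.ln_map a1 g
  have c2 := D.ln_map a2 g
  have c3 : B.h (D.ρ g y) (D.ρ g y') ≠ 0 := by rw [D.hiso]; exact a3
  rw [hg] at c1 c2
  have d1 := D.ln_smul_left c1 (inv_ne_zero hk)
  have d2 := D.ln_smul_left c2 (inv_ne_zero hk)
  rw [smul_smul, inv_mul_cancel₀ hk, one_smul] at d1 d2
  obtain ⟨g2, k2, hk2, hg2, hg2'⟩ := D.ln_trans hn d1.1 b1
  set z := D.ρ g2 (D.ρ g y') with hz
  have e1 : B.Ln x1 z := by
    have := D.ln_map d2.1 g2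
    rwa [hg2] at this
  have e2 : B.h y1 z ≠ 0 := by
    intro h0
    apply c3
    rw [← D.hiso g2, hg2', B.smul_left, ← hz, h0, mul_zero]
  have e3 : B.h z y1 ≠ 0 := by rw [B.symm]; exact e2
  have e4 : B.h y1' y1 ≠ 0 := by rw [B.symm]; exact b3
  obtain ⟨g3, hg3, hg3f⟩ := D.siegel_pt b1.2.1 (e1.2.1.smul (inv_ne_zero e3)).2
    (b2.2.1.smul (inv_ne_zero e4)).2 (by rw [B.smul_left, inv_mul_cancel₀ e3])
    (by rw [B.smul_left, inv_mul_cancel₀ e4])
  have f1 : D.ρ g3 x1 = x1 := hg3f x1 b1.huv (by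
    rw [B.smul_right, B.smul_right, e1.huv, b2.huv, mul_zero, mul_zero])
  have f2 : D.ρ g3 y1 = y1 := hg3f y1 b1.2.1.hself (by
    rw [B.smul_right, B.smul_right, B.symm z y1, B.symm y1' y1, inv_mul_cancel₀ e3,
      inv_mul_cancel₀ e4])
  have f3 : D.ρ g3 z = (B.h z y1 * (B.h y1' y1)⁻¹) • y1' := by
    rw [mul_smul, ← hg3, map_smul, smul_smul, mul_inv_cancel₀ e3, one_smul]
  refine ⟨pj (g3 * g2 * g), ?_, ?_⟩
  · rw [map_mul, map_mul, map_mul, map_mul, im_mul, im_mul, D.A_conj a1, hg, ← d1.2, D.A_conj d1.1,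
      hg2, hg2', (D.ln_smul b1 hk2).2, D.A_conj b1, f1, f2]
  · rw [map_mul, map_mul, map_mul, map_mul, im_mul, im_mul, D.A_conj a2, hg, ← d2.2, D.A_conj d2.1,
      hg2, ← hz, D.A_conj e1, f1, f3, (D.ln_smul b2 (mul_ne_zero e3 (inv_ne_zero e4))).2]

lemma C2_conj {X Y : Subgroup (Pr G)} (h : D.C2 X Y) (s : Pr G) :
    D.C2 (im (MulAut.conj s) X) (im (MulAut.conj s) Y) := by
  obtain ⟨g, rfl⟩ := mk_surjective s
  obtain ⟨x, y, y', a1, a2, a3, rfl, rfl⟩ := h
  exact ⟨D.ρ g x, D.ρ g y, D.ρ g y', D.ln_map a1 g, D.ln_map a2 g, by rw [D.hiso]; exact a3,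
    D.A_conj a1 g, D.A_conj a2 g⟩

lemma pp_conj (s : Pr G) : PP D.R (MulAut.conj s) := by
  refine ⟨D.conj_pres s, ?_⟩
  rw [← map_inv]
  exact D.conj_pres s⁻¹

include hp in
lemma C3_conj [Finite K] [FiniteDimensional K V] (hn : 7 ≤ Module.finrank K V)
    {X Y : Subgroup (Pr G)} (h : D.C3 X Y) (s : Pr G) :
    D.C3 (im (MulAut.conj s) X) (im (MulAut.conj s) Y) := by
  have h1 := (C3.pol (p := p) D hn h).im (D.pp_conj s)
  rcases D.pol_cases (p := p) hn (D.conj_pres s _ (C3.mem D h).1) h1 with h2 | h2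
  · exfalso
    have h3 := D.C2_conj h2 s⁻¹
    rw [← im_mul, ← im_mul, ← map_mul, inv_mul_cancel, map_one, im_one, im_one] at h3
    exact D.not_C2_C3 (p := p) hn h3 h
  · exact h2

include hp in
lemma four_rebase [Finite K] [FiniteDimensional K V] (hn : 7 ≤ Module.finrank K V)
    {u v : V} (huv : B.Ln u v) {Y : Subgroup (Pr G)} (h : D.C3 (D.A u v) Y) :
    ∃ s t, Four B u v s t ∧ Y = D.A s t := by
  obtain ⟨u', v', s, t, hF, h1, h2⟩ := h
  obtain ⟨e1, e2⟩ := D.in_of_eq (p := p) hn huv hF.1 h1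
  refine ⟨s, t, ⟨huv, hF.2.1, ?_, ?_, ?_, ?_, ?_⟩, h2⟩
  · exact e1.h0' hF.2.2.1 hF.2.2.2.1
  · exact e2.h0' hF.2.2.1 hF.2.2.2.1
  · exact e1.h0' hF.2.2.2.2.1 hF.2.2.2.2.2.1
  · exact e2.h0' hF.2.2.2.2.1 hF.2.2.2.2.2.1
  · rw [Fintype.linearIndependent_iff]
    intro g hg
    rw [Fin.sum_univ_four] at hg
    have hg' : g 0 • u + g 1 • v + g 2 • s + g 3 • t = 0 := hg
    obtain ⟨a, b, hab⟩ := (In.smul (g 0) e1).add (In.smul (g 1) e2)
    rw [hab] at hg'
    have h3 := hF.zero hg'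
    rw [h3.1, h3.2.1, zero_smul, zero_smul, add_zero] at hab
    have h4 := huv.zero hab
    intro i
    fin_cases i
    · exact h4.1
    · exact h4.2
    · exact h3.2.2.1
    · exact h3.2.2.2

end RepO

end Pool.Agent.BSpi.Orth
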