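import Pool.Agent.BSpi.Orth.Orb

set_option autoImplicit false
set_option linter.unusedSimpArgs false
set_option linter.unusedVariables false
set_option linter.unusedSectionVars false

open Matrix Matrix.SpecialLinearGroup
open scoped MatrixGroups

namespace Pool.Agent.BSpi.Orth

open Pool.Agent.BSpi.PSL Pool.Agent.BSpi.Cls

variable {K V : Type} [Field K] [AddCommGroup V] [Module K V] {B : QF K V}
variable {p : ℕ} [hp : Fact p.Prime] [CharP K p] {G : Type} [Group G]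

/-- The subspace orthogonal to two opposite lines. -/
def Wt {u v s t : V} (H : Dual B u v s t) : QF K (B.perp ![u, v, s, t]) :=
  B.res (B.perp ![u, v, s, t]) (res4 H)

section

variable {u v s0 t0 : V} (H : Dual B u v s0 t0)

lemma w_u (x : B.perp ![u, v, s0, t0]) : B.h x u = 0 := x.2 0
lemma w_v (x : B.perp ![u, v, s0, t0]) : B.h x v = 0 := x.2 1
lemma w_s (x : B.perp ![u, v, s0, t0]) : B.h x s0 = 0 := x.2 2
lemma w_t (x : B.perp ![u, v, s0, t0]) : B.h x t0 = 0 := x.2 3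

include H in
lemma Dual.indep : LinearIndependent K ![u, v, s0, t0] := by
  rw [Fintype.linearIndependent_iff]
  intro g hg
  rw [Fin.sum_univ_four] at hg
  have hg' : g 0 • u + g 1 • v + g 2 • s0 + g 3 • t0 = 0 := hg
  have k0 := congrArg (fun y => B.h y t0) hg'
  have k1 := congrArg (fun y => B.h y s0) hg'
  have k2 := congrArg (fun y => B.h y v) hg'
  have k3 := congrArg (fun y => B.h y u) hg'
  simp only [B.add_left, B.smul_left, B.zero_left, H.L.1.hself, H.L.2.1.hself, H.M.1.hself,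
    H.M.2.1.hself, H.L.huv, H.L.hvu, H.M.huv, H.M.hvu, H.su, H.sv, H.tu, H.tv, H.us, H.vs, H.ut,
    H.vt] at k0 k1 k2 k3
  intro i
  fin_cases i
  · change g 0 = 0
    linear_combination k0
  · change g 1 = 0
    linear_combination -k1
  · change g 2 = 0
    linear_combination -k2
  · change g 3 = 0
    linear_combination k3

include H in
lemma finrank_w [FiniteDimensional K V] :
    Module.finrank K (B.perp ![u, v, s0, t0]) + 4 = Module.finrank K V :=
  finrank_perp_eq (B := B) _ (Dual.indep H)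

lemma ln_w {a b : B.perp ![u, v, s0, t0]} (hab : (Wt H).Ln a b) : B.Ln (a : V) (b : V) :=
  ⟨⟨fun h0 => hab.1.1 (Subtype.ext h0), hab.1.2⟩,
    ⟨fun h0 => hab.2.1.1 (Subtype.ext h0), hab.2.1.2⟩, hab.2.2.1,
    fun c hc => hab.2.2.2 c (Subtype.ext hc)⟩

lemma w_eq {a b : B.perp ![u, v, s0, t0]} {c d : B.perp ![u, v, s0, t0]}
    {G : Type} [Group G] (D : RepO B G) (hab : (Wt H).Ln a b) (hcd : (Wt H).Ln c d)
    (h : SameL K a b c d) : D.A (a : V) (b : V) = D.A (c : V) (d : V) := by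
  refine (D.A_eq (ln_w H hab) (ln_w H hcd) ?_ ?_).symm
  · obtain ⟨x, y, hxy⟩ := h.1
    exact ⟨x, y, congrArg Subtype.val hxy⟩
  · obtain ⟨x, y, hxy⟩ := h.2
    exact ⟨x, y, congrArg Subtype.val hxy⟩

end

namespace RepO

variable (D : RepO B G)

/-- Moving lines to the complement. -/
lemma c3_norm {u v s0 t0 : V} (H : Dual B u v s0 t0) {s t : V} (hF : Four B u v s t) :
    ∃ b1 b2 : B.perp ![u, v, s0, t0], (Wt H).Ln b1 b2 ∧
      Orb (D.A u v) (D.A s t) (D.A u v) (D.A (b1 : V) (b2 : V)) := by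
  obtain ⟨hL, hM, f1, f2, f3, f4, hind⟩ := id hF
  obtain ⟨b1, hb1, hb1'⟩ := proj4 H hM.1.2 f1 f2
  obtain ⟨b2, hb2, hb2'⟩ := proj4 H hM.2.1.2 f3 f4
  obtain ⟨d1, hd1⟩ := B.vals _ hind ![0, 0, B.h s t0, B.h t t0]
  obtain ⟨d2, hd2⟩ := B.vals _ hind ![0, 0, -B.h s s0, -B.h t s0]
  have p1 : B.h d1 u = 0 := hd1 0
  have p2 : B.h d1 v = 0 := hd1 1
  have p3 : B.h d1 s = B.h s t0 := hd1 2
  have p4 : B.h d1 t = B.h t t0 := hd1 3
  have q1 : B.h d2 u = 0 := hd2 0
  have q2 : B.h d2 v = 0 := hd2 1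
  have q3 : B.h d2 s = -B.h s s0 := hd2 2
  have q4 : B.h d2 t = -B.h t s0 := hd2 3
  have hE1 : ∀ x, B.h x u = 0 → D.ρ (D.es u d1) x = x - B.h x d1 • u := by
    intro x hx
    rw [D.es_apply hL.1.2 p1, hx]
    module
  have hE2 : ∀ x, B.h x v = 0 → D.ρ (D.es v d2) x = x - B.h x d2 • v := by
    intro x hx
    rw [D.es_apply hL.2.1.2 q2, hx]
    module
  set g := D.es v d2 * D.es u d1 with hg
  have gu : D.ρ g u = u := by
    rw [hg, D.mul_apply, hE1 u hL.1.hself, B.symm d1 u, p1, zero_smul, sub_zero, hE2 u hL.huv,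
      B.symm d2 u, q1, zero_smul, sub_zero]
  have gv : D.ρ g v = v := by
    rw [hg, D.mul_apply, hE1 v hL.hvu, B.symm d1 v, p2, zero_smul, sub_zero, hE2 v hL.2.1.hself,
      B.symm d2 v, q2, zero_smul, sub_zero]
  have gs : D.ρ g s = b1 := by
    rw [hg, D.mul_apply, hE1 s f1, B.symm d1 s, p3, hE2 _ (by
      rw [B.sub_left, B.smul_left, f2, hL.huv, mul_zero, sub_zero]), B.sub_left, B.smul_left,
      B.symm d2 s, q3, B.symm d2 u, q1, hb1']
    module
  have gt : D.ρ g t = b2 := by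
    rw [hg, D.mul_apply, hE1 t f3, B.symm d1 t, p4, hE2 _ (by
      rw [B.sub_left, B.smul_left, f4, hL.huv, mul_zero, sub_zero]), B.sub_left, B.smul_left,
      B.symm d2 t, q4, B.symm d2 u, q1, hb2']
    module
  have hL' : B.Ln (b1 : V) (b2 : V) := by
    have := D.ln_map hM g
    rwa [gs, gt] at this
  refine ⟨b1, b2, ⟨⟨fun h0 => hL'.1.1 (congrArg Subtype.val h0), hL'.1.2⟩,
    ⟨fun h0 => hL'.2.1.1 (congrArg Subtype.val h0), hL'.2.1.2⟩, hL'.2.2.1,
    fun c hc => hL'.2.2.2 c (congrArg Subtype.val hc)⟩, pj g, ?_, ?_⟩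
  · rw [D.A_conj hL, gu, gv]
  · rw [D.A_conj hM, gs, gt]

lemma siegel_fix {u v s t : V} (H : Dual B u v s t) {g : G} (hg : g ∈ D.QL u v) {s' t' : V}
    (hs : D.ρ g s' = s) (ht : D.ρ g t' = t) {x : V} (hxu : B.h x u = 0) (hxv : B.h x v = 0)
    (h1 : B.h x s' = B.h x s) (h2 : B.h x t' = B.h x t) : D.ρ g x = x := by
  obtain ⟨a, b, hab⟩ := hg.2.2 x hxu hxv
  have k1 := D.hiso g x s'
  have k2 := D.hiso g x t'
  rw [hs, hab, B.add_left, B.add_left, B.smul_left, B.smul_left, H.us, H.vs, h1] at k1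
  rw [ht, hab, B.add_left, B.add_left, B.smul_left, B.smul_left, H.ut, H.vt, h2] at k2
  have hb : b = 0 := by linear_combination -k1
  have ha : a = 0 := by linear_combination k2
  rw [hab, ha, hb]
  module

/-- Opposite lines of the complement. -/
lemma w_opp {u v s0 t0 : V} (H : Dual B u v s0 t0) {b1 b2 c1 c2 : B.perp ![u, v, s0, t0]}
    (hb : (Wt H).Ln b1 b2) (hc : (Wt H).Ln c1 c2) (hd : (Wt H).dl b1 b2 c1 c2 ≠ 0) :
    Orb (D.A u v) (D.A (b1 : V) (b2 : V)) (D.A u v) (D.A (c1 : V) (c2 : V)) := by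
  obtain ⟨s, t, hst, hs, ht, e1, e2, e3, e4⟩ := QF.dual hb hc hd
  have e1' : B.h s b1 = 0 := e1
  have e2' : B.h s b2 = -1 := e2
  have e3' : B.h t b1 = 1 := e3
  have e4' : B.h t b2 = 0 := e4
  have f1 : B.h b1 s = 0 := by rw [B.symm (s : V), e1']
  have f2 : B.h b2 s = -1 := by rw [B.symm (s : V), e2']
  have f3 : B.h b1 t = 1 := by rw [B.symm (t : V), e3']
  have f4 : B.h b2 t = 0 := by rw [B.symm (t : V), e4']
  have hA : D.A (c1 : V) (c2 : V) = D.A (s : V) (t : V) := w_eq H D hc hst ⟨hs, ht⟩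
  have hb' := ln_w H hb
  have hst' := ln_w H hst
  -- the auxiliary line
  have hne : ∀ z : V, B.h z (s : V) ≠ 0 → z ≠ 0 := by
    rintro _ h rfl
    exact h (B.zero_left _)
  have hE : B.Ln ((b1 : V) + s) ((b2 : V) + t) := by
    refine ⟨⟨?_, ?_⟩, ⟨?_, ?_⟩, ?_, ?_⟩
    · intro h0
      have h1 := congrArg (fun z => B.h z t) h0
      simp only [B.add_left, f3, hst'.huv, B.zero_left] at h1
      exact one_ne_zero (by linear_combination h1)
    · rw [B.qadd, hb'.1.2, hst'.1.2, f1]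
      ring
    · intro h0
      have h1 := congrArg (fun z => B.h z s) h0
      simp only [B.add_left, f2, hst'.hvu, B.zero_left] at h1
      exact one_ne_zero (by linear_combination -h1)
    · rw [B.qadd, hb'.2.1.2, hst'.2.1.2, f4]
      ring
    · rw [B.add_left, B.add_right, B.add_right, hb'.hvu, hst'.hvu, f2, e3']
      ring
    · intro c hc'
      have h1 := congrArg (fun z => B.h z s) hc'
      simp only [B.add_left, B.smul_left, f1, f2, hst'.hvu, hst'.1.hself] at h1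
      exact one_ne_zero (by linear_combination -h1)
  have H1 : Dual B ((b1 : V) + s) ((b2 : V) + t) (-(b1 : V)) (-(b2 : V)) := by
    refine ⟨hE, ⟨⟨neg_ne_zero.2 hb'.1.1, by rw [B.qneg, hb'.1.2]⟩,
      ⟨neg_ne_zero.2 hb'.2.1.1, by rw [B.qneg, hb'.2.1.2]⟩, ?_, fun c hc' => ?_⟩, ?_, ?_, ?_, ?_⟩
    · rw [B.neg_left, B.neg_right, hb'.hvu]
      ring
    · exact hb'.2.2.2 c (by rw [← neg_neg (b2 : V), hc', smul_neg, neg_neg])
    · rw [B.neg_left, B.add_right, hb'.1.hself, f1]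
      ring
    · rw [B.neg_left, B.add_right, hb'.huv, f3]
      ring
    · rw [B.neg_left, B.add_right, hb'.hvu, f2]
      ring
    · rw [B.neg_left, B.add_right, hb'.2.1.hself, f4]
      ring
  have H2 : Dual B ((b1 : V) + s) ((b2 : V) + t) s t := by
    refine ⟨hE, hst', ?_, ?_, ?_, ?_⟩
    · rw [B.add_right, e1', hst'.1.hself]
      ring
    · rw [B.add_right, e2', hst'.huv]
      ring
    · rw [B.add_right, e3', hst'.hvu]
      ring
    · rw [B.add_right, e4', hst'.2.1.hself]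
      ring
  obtain ⟨g, hg, hg1, hg2⟩ := D.exists_siegel H1 H2
  have hfix : ∀ x : V, (∀ w : B.perp ![u, v, s0, t0], B.h x w = 0) → D.ρ g x = x := by
    intro x hx
    refine D.siegel_fix H2 hg hg1 hg2 ?_ ?_ ?_ ?_
    · rw [B.add_right, hx, hx, add_zero]
    · rw [B.add_right, hx, hx, add_zero]
    · rw [B.neg_right, hx, hx, neg_zero]
    · rw [B.neg_right, hx, hx, neg_zero]
  have gu : D.ρ g u = u := hfix u fun w => by rw [B.symm, w_u w]
  have gv : D.ρ g v = v := hfix v fun w => by rw [B.symm, w_v w]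
  have gb1 : D.ρ g b1 = -(s : V) := by rw [← hg1, map_neg, neg_neg]
  have gb2 : D.ρ g b2 = -(t : V) := by rw [← hg2, map_neg, neg_neg]
  refine ⟨pj g, ?_, ?_⟩
  · rw [D.A_conj H.L, gu, gv]
  · have h1 := D.ln_map hb' g
    rw [D.A_conj hb', hA]
    rw [gb1, gb2] at h1 ⊢
    exact D.A_eq hst' h1 ⟨-1, 0, by module⟩ ⟨0, -1, by module⟩

include hp in
/-- There are at most two classes of pairs of the second type in dimension eight. -/
lemma c3_two [Finite K] [FiniteDimensional K V] (hn : Module.finrank K V = 8)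
    {X Y X' Y' X'' Y'' : Subgroup (Pr G)} (h : D.C3 X Y) (h' : D.C3 X' Y') (h'' : D.C3 X'' Y'') :
    Orb X Y X' Y' ∨ Orb X Y X'' Y'' ∨ Orb X' Y' X'' Y'' := by
  have hn7 : 7 ≤ Module.finrank K V := by omega
  obtain ⟨u, v, huv⟩ := exists_ln (B := B) hn7
  obtain ⟨s0, t0, H⟩ := exists_dual hn7 huv
  have h4 : Module.finrank K (B.perp ![u, v, s0, t0]) ≤ 4 := by
    have := finrank_w H
    omega
  have key : ∀ {X Y : Subgroup (Pr G)}, D.C3 X Y → ∃ b1 b2 : B.perp ![u, v, s0, t0],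
      (Wt H).Ln b1 b2 ∧ Orb X Y (D.A u v) (D.A (b1 : V) (b2 : V)) := by
    intro X Y h
    obtain ⟨a, ha⟩ := D.R_trans hn7 (C3.mem D h).1 ⟨u, v, huv, rfl⟩
    have h1 := D.C3_conj (p := p) hn7 h a
    rw [ha] at h1
    obtain ⟨s, t, hF, hst⟩ := D.four_rebase (p := p) hn7 huv h1
    obtain ⟨b1, b2, hb, ho⟩ := D.c3_norm H hF
    rw [← hst] at ho
    exact ⟨b1, b2, hb, Orb.trans ⟨a, ha, rfl⟩ ho⟩
  obtain ⟨b1, b2, hb, ob⟩ := key h
  obtain ⟨c1, c2, hc, oc⟩ := key h'
  obtain ⟨d1, d2, hd, od⟩ := key h''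
  by_cases hbc : (Wt H).dl b1 b2 c1 c2 = 0
  swap
  · exact Or.inl ((ob.trans (D.w_opp H hb hc hbc)).trans oc.symm)
  by_cases hbd : (Wt H).dl b1 b2 d1 d2 = 0
  swap
  · exact Or.inr (Or.inl ((ob.trans (D.w_opp H hb hd hbd)).trans od.symm))
  by_cases hcd : (Wt H).dl c1 c2 d1 d2 = 0
  swap
  · exact Or.inr (Or.inr ((oc.trans (D.w_opp H hc hd hcd)).trans od.symm))
  rcases three4 h4 hb hc hd hbc hbd hcd with h1 | h1 | h1
  · left
    rw [w_eq H D hb hc h1] at ob
    exact ob.trans oc.symm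
  · right; left
    rw [w_eq H D hb hd h1] at ob
    exact ob.trans od.symm
  · right; right
    rw [w_eq H D hc hd h1] at oc
    exact oc.trans od.symm

end RepO

end Pool.Agent.BSpi.Orth
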