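import Pool.Agent.BSpi.Orth.Rel3

set_option autoImplicit false
set_option linter.unusedSimpArgs false
set_option linter.unusedVariables false
set_option linter.unusedSectionVars false

open Matrix Matrix.SpecialLinearGroup
open scoped MatrixGroups

namespace Pool.Agent.BSpi.Orth

open Pool.Agent.BSpi.PSL Pool.Agent.BSpi.Cls

variable {K V : Type} [Field K] [AddCommGroup V] [Module K V] {B : QF K V}
variable {p : ℕ} [hp : Fact p.Prime] [CharP K p] {G : Type} [Group G]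

namespace RepO

variable (D : RepO B G)

/-- The root groups of the lines through a point. -/
def Pc (x : V) : Set (Subgroup (Pr G)) := {X | ∃ y, B.Ln x y ∧ X = D.A x y}

lemma Pc_sub {x : V} {X : Subgroup (Pr G)} (h : X ∈ D.Pc x) : X ∈ D.R := by
  obtain ⟨y, hy, rfl⟩ := h
  exact ⟨x, y, hy, rfl⟩

include hp in
lemma mem_Pc [Finite K] [FiniteDimensional K V] (hn : 7 ≤ Module.finrank K V) {x u v : V}
    (hx : x ≠ 0) (h : B.Ln u v) : D.A u v ∈ D.Pc x ↔ In x u v K := by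
  constructor
  · rintro ⟨y, hy, he⟩
    have h1 : pj (D.es x y) ∈ D.A u v := by
      rw [he]
      exact (D.mem_A' hy).2 ⟨1, by rw [one_smul]⟩
    exact (D.in_of_A (p := p) hn hy h h1).1
  · rintro ⟨α, β, rfl⟩
    have hne : α ≠ 0 ∨ β ≠ 0 := by
      by_contra hcon
      push Not at hcon
      apply hx
      rw [hcon.1, hcon.2]
      module
    obtain ⟨y, hy, hyin⟩ := h.base hne
    exact ⟨y, hy, (D.A_eq h hy ⟨α, β, rfl⟩ hyin).symm⟩

/-- Every point lies on two lines which are not orthogonal. -/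
lemma exists_two [Finite K] [FiniteDimensional K V] (hn : 7 ≤ Module.finrank K V) {x : V}
    (hx : B.Sg x) : ∃ y y', B.Ln x y ∧ B.Ln x y' ∧ B.h y y' = 1 := by
  obtain ⟨w, v, v', hw, hv, hv', huw, hvv', huv, huv', hwv, hwv'⟩ := QF.exists_quad hn hx
  refine ⟨v, v', QF.ln_of_h hx hv (by rw [B.symm, huv]) (by rw [huw]; exact one_ne_zero)
    (by rw [B.symm, hwv]), QF.ln_of_h hx hv' (by rw [B.symm, huv'])
    (by rw [huw]; exact one_ne_zero) (by rw [B.symm, hwv']), hvv'⟩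

include hp in
/-- Pencils in terms of meeting lines. -/
lemma Pc_iff [Finite K] [FiniteDimensional K V] (hn : 7 ≤ Module.finrank K V)
    {x y y' : V} (h : B.Ln x y) (h' : B.Ln x y') (hyy : B.h y y' ≠ 0) (Z : Subgroup (Pr G)) :
    Z ∈ D.Pc x ↔ D.Mv Z (D.A x y) ∧ D.Mv Z (D.A x y') := by
  constructor
  · rintro ⟨z, hz, rfl⟩
    exact ⟨⟨x, z, y, hz, h, rfl, rfl⟩, ⟨x, z, y', hz, h', rfl, rfl⟩⟩
  · rintro ⟨⟨w1, z1, v1, a1, a2, rfl, a3⟩, ⟨w2, z2, v2, b1, b2, b3, b4⟩⟩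
    have h1 : D.A x y ∈ D.Pc w1 := ⟨v1, a2, a3⟩
    have h2 : D.A x y' ∈ D.Pc w2 := ⟨v2, b2, b4⟩
    have h3 : D.A w1 z1 ∈ D.Pc w2 := ⟨z2, b1, b3⟩
    rw [D.mem_Pc (p := p) hn a1.1.1 h] at h1
    rw [D.mem_Pc (p := p) hn b1.1.1 h'] at h2
    rw [D.mem_Pc (p := p) hn b1.1.1 a1] at h3
    have h4 : B.h w1 w2 = 0 := a1.hh (In.left w1 z1) h3
    rw [D.mem_Pc (p := p) hn h.1.1 a1]
    obtain ⟨a, b, hab⟩ := h1
    obtain ⟨c, d, hcd⟩ := h2
    have h5 : b * (d * B.h y y') = 0 := by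
      rw [hab, hcd] at h4
      simp only [B.add_left, B.add_right, B.smul_left, B.smul_right, h.1.hself, h.hvu, h'.huv] at h4
      linear_combination h4
    rcases mul_eq_zero.1 h5 with hb | hd
    · have ha : a ≠ 0 := by
        rintro rfl
        exact a1.1.1 (by rw [hab, hb]; module)
      refine ⟨a⁻¹, 0, ?_⟩
      rw [hab, hb, zero_smul, add_zero, zero_smul, add_zero, smul_smul, inv_mul_cancel₀ ha, one_smul]
    · have hd0 := (mul_eq_zero.1 hd).resolve_right hyy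
      have hc : c ≠ 0 := by
        rintro rfl
        exact b1.1.1 (by rw [hcd, hd0]; module)
      have h6 : x = c⁻¹ • w2 := by
        rw [hcd, hd0, zero_smul, add_zero, smul_smul, inv_mul_cancel₀ hc, one_smul]
      rw [h6]
      exact In.smul _ h3

include hp in
lemma Pc_inj [Finite K] [FiniteDimensional K V] (hn : 7 ≤ Module.finrank K V) {x y : V}
    (hx : B.Sg x) (hy : y ≠ 0) (h : ∀ X ∈ D.Pc x, X ∈ D.Pc y) : ∃ c : K, y = c • x := by
  obtain ⟨v, v', h1, h2, h3⟩ := exists_two hn hx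
  have h4 := h _ ⟨v, h1, rfl⟩
  have h5 := h _ ⟨v', h2, rfl⟩
  rw [D.mem_Pc (p := p) hn hy h1] at h4
  rw [D.mem_Pc (p := p) hn hy h2] at h5
  obtain ⟨a, b, hab⟩ := h4
  obtain ⟨c, d, hcd⟩ := h5
  have h6 : B.h y v' = b := by
    rw [hab, B.add_left, B.smul_left, B.smul_left, h2.huv, h3]
    ring
  have h7 : B.h y v' = 0 := by
    rw [hcd, B.add_left, B.smul_left, B.smul_left, h2.huv, h2.2.1.hself]
    ring
  refine ⟨a, ?_⟩
  rw [hab, ← h6, h7, zero_smul, add_zero]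

lemma Pc_smul {x : V} {c : K} (hc : c ≠ 0) : D.Pc (c • x) = D.Pc x := by
  have key : ∀ (x : V) (c : K), c ≠ 0 → D.Pc x ⊆ D.Pc (c • x) := by
    rintro x c hc X ⟨y, hy, rfl⟩
    have h1 : B.Ln (c • x) y := hy.of_in (In.smul c (In.left x y)) (In.right x y)
      (smul_ne_zero hc hy.1.1) (fun d hd => hy.2.2.2 (d * c) (by rw [mul_smul]; exact hd))
    exact ⟨y, h1, (D.A_eq hy h1 (In.smul c (In.left x y)) (In.right x y)).symm⟩
  refine Set.Subset.antisymm ?_ (key x c hc)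
  have h1 := key (c • x) c⁻¹ (inv_ne_zero hc)
  rwa [smul_smul, inv_mul_cancel₀ hc, one_smul] at h1

/-- The relation induced on points. -/
def Im (f : MulAut (Pr G)) (x x' : V) : Prop :=
  B.Sg x ∧ B.Sg x' ∧ ∀ X, X ∈ D.Pc x ↔ im f X ∈ D.Pc x'

/-- Automorphisms preserving the first relation. -/
structure CP (f : MulAut (Pr G)) : Prop where
  pp : PP D.R f
  c2 : ∀ X Y, D.C2 X Y → D.C2 (im f X) (im f Y)
  c2' : ∀ X Y, D.C2 X Y → D.C2 (im f⁻¹ X) (im f⁻¹ Y)

lemma CP.inv {f : MulAut (Pr G)} (h : D.CP f) : D.CP f⁻¹ :=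
  ⟨h.pp.inv, h.c2', by rw [inv_inv]; exact h.c2⟩

include hp in
lemma not_C2_C3 [Finite K] [FiniteDimensional K V] (hn : 7 ≤ Module.finrank K V)
    {X Y : Subgroup (Pr G)} (h : D.C2 X Y) (h' : D.C3 X Y) : False := by
  obtain ⟨x, y, y', h1, h2, -, rfl, rfl⟩ := h
  obtain ⟨u, v, s, t, hF, e1, e2⟩ := h'
  have h3 : D.A u v ∈ D.Pc x := ⟨y, h1, e1.symm⟩
  have h4 : D.A s t ∈ D.Pc x := ⟨y', h2, e2.symm⟩
  rw [D.mem_Pc (p := p) hn h1.1.1 hF.1] at h3
  rw [D.mem_Pc (p := p) hn h1.1.1 hF.2.1] at h4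
  obtain ⟨a, b, hab⟩ := h3
  obtain ⟨c, d, hcd⟩ := h4
  have h5 := hF.zero (a := a) (b := b) (c := -c) (d := -d) (by
    have h6 := sub_eq_zero.2 (hab.symm.trans hcd)
    rw [← h6]
    module)
  exact h1.1.1 (by rw [hab, h5.1, h5.2.1]; module)

include hp in
lemma Mv_iff [Finite K] [FiniteDimensional K V] (hn : 7 ≤ Module.finrank K V)
    {X Y : Subgroup (Pr G)} : D.Mv X Y ↔
      X ∈ D.R ∧ Y ∈ D.R ∧ (X = Y ∨ (Cm X Y ∧ (Col D.R X Y ∨ D.C2 X Y))) := by
  constructor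
  · intro h
    refine ⟨(Mv.mem D h).1, (Mv.mem D h).2, ?_⟩
    by_cases he : X = Y
    · exact Or.inl he
    · refine Or.inr ⟨Mv.cm D h, ?_⟩
      obtain ⟨x, y, y', h1, h2, rfl, rfl⟩ := h
      by_cases h3 : B.h y y' = 0
      · exact Or.inl (Mv.col (p := p) D hn h1 h2 h3 he)
      · exact Or.inr ⟨x, y, y', h1, h2, h3, rfl, rfl⟩
  · rintro ⟨h1, h2, h3⟩
    rcases h3 with rfl | ⟨h3, h4 | h4⟩
    · obtain ⟨u, v, h, rfl⟩ := h1
      exact ⟨u, v, v, h, h, rfl, rfl⟩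
    · rcases D.cm_cases (p := p) hn h1 h2 h3 with h5 | h5
      · exact h5
      · exact absurd h4 (C3.not_col (p := p) D hn h5)
    · exact C2.mv D h4

include hp in
lemma Mv_im [Finite K] [FiniteDimensional K V] (hn : 7 ≤ Module.finrank K V)
    {f : MulAut (Pr G)} (hf : D.CP f) {X Y : Subgroup (Pr G)} (h : D.Mv X Y) :
    D.Mv (im f X) (im f Y) := by
  rw [D.Mv_iff (p := p) hn] at h ⊢
  obtain ⟨h1, h2, h3⟩ := h
  refine ⟨hf.pp.1 X h1, hf.pp.1 Y h2, ?_⟩
  rcases h3 with rfl | ⟨h3, h4 | h4⟩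
  · exact Or.inl rfl
  · exact Or.inr ⟨h3.im f, Or.inl (h4.im hf.pp)⟩
  · exact Or.inr ⟨h3.im f, Or.inr (hf.c2 _ _ h4)⟩

include hp in
lemma Mv_im_iff [Finite K] [FiniteDimensional K V] (hn : 7 ≤ Module.finrank K V)
    {f : MulAut (Pr G)} (hf : D.CP f) {X Y : Subgroup (Pr G)} :
    D.Mv (im f X) (im f Y) ↔ D.Mv X Y := by
  refine ⟨fun h => ?_, fun h => D.Mv_im (p := p) hn hf h⟩
  have h1 := D.Mv_im (p := p) hn (CP.inv D hf) h
  rwa [im_inv', im_inv'] at h1

include hp in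
lemma exists_im [Finite K] [FiniteDimensional K V] (hn : 7 ≤ Module.finrank K V)
    {f : MulAut (Pr G)} (hf : D.CP f) {x : V} (hx : B.Sg x) : ∃ x', D.Im f x x' := by
  obtain ⟨y, y', h1, h2, h3⟩ := exists_two hn hx
  have h3' : B.h y y' ≠ 0 := by rw [h3]; exact one_ne_zero
  have h4 : D.C2 (D.A x y) (D.A x y') := ⟨x, y, y', h1, h2, h3', rfl, rfl⟩
  obtain ⟨x', z, z', h5, h6, h7, h8, h9⟩ := hf.c2 _ _ h4
  refine ⟨x', hx, h5.1, fun X => ?_⟩
  rw [D.Pc_iff (p := p) hn h1 h2 h3', D.Pc_iff (p := p) hn h5 h6 h7, ← h8, ← h9,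
    D.Mv_im_iff (p := p) hn hf, D.Mv_im_iff (p := p) hn hf]

variable {D}

lemma Im.inv {f : MulAut (Pr G)} {x x' : V} (h : D.Im f x x') : D.Im f⁻¹ x' x := by
  refine ⟨h.2.1, h.1, fun X => ?_⟩
  rw [h.2.2 (im f⁻¹ X), im_inv]

lemma Im.smul {f : MulAut (Pr G)} {x x' : V} {c : K} (hc : c ≠ 0) (h : D.Im f x (c • x')) :
    D.Im f x x' := by
  refine ⟨h.1, ?_, fun X => ?_⟩
  · have h1 := h.2.1.smul (inv_ne_zero hc)
    rwa [smul_smul, inv_mul_cancel₀ hc, one_smul] at h1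
  · rw [h.2.2 X, D.Pc_smul hc]

include hp in
lemma Im.uniq [Finite K] [FiniteDimensional K V] (hn : 7 ≤ Module.finrank K V)
    {f : MulAut (Pr G)} {x x' x'' : V} (h : D.Im f x x') (h' : D.Im f x x'') :
    ∃ c : K, x'' = c • x' := by
  refine D.Pc_inj (p := p) hn h.2.1 h'.2.1.1 fun X hX => ?_
  rw [← im_inv f X] at hX ⊢
  rw [← h.2.2] at hX
  rwa [← h'.2.2]

include hp in
lemma Im.uniq' [Finite K] [FiniteDimensional K V] (hn : 7 ≤ Module.finrank K V)
    {f : MulAut (Pr G)} {x y x' : V} (h : D.Im f x x') (h' : D.Im f y x') :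
    ∃ c : K, y = c • x := Im.uniq (p := p) hn h.inv h'.inv

lemma exists_common_line [Finite K] [FiniteDimensional K V] (hn : 7 ≤ Module.finrank K V)
    {x y : V} (hx : B.Sg x) (hy : B.Sg y) (h : B.h x y = 0) :
    ∃ X, X ∈ D.Pc x ∧ X ∈ D.Pc y := by
  by_cases hc : ∃ c : K, y = c • x
  · obtain ⟨c, rfl⟩ := hc
    have hc0 : c ≠ 0 := by
      rintro rfl
      exact hy.1 (zero_smul _ _)
    obtain ⟨v, -, h1, -, -⟩ := exists_two hn hx
    refine ⟨D.A x v, ⟨v, h1, rfl⟩, ?_⟩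
    rw [D.Pc_smul hc0]
    exact ⟨v, h1, rfl⟩
  · push Not at hc
    have hL : B.Ln x y := ⟨hx, hy, by rw [B.symm, h], hc⟩
    exact ⟨D.A x y, ⟨y, hL, rfl⟩, ⟨x, hL.symm, D.A_eq hL.symm hL (In.right y x) (In.left y x)⟩⟩

include hp in
lemma Im.perp [Finite K] [FiniteDimensional K V] (hn : 7 ≤ Module.finrank K V)
    {f : MulAut (Pr G)} {x y x' y' : V} (h : D.Im f x x') (h' : D.Im f y y')
    (hxy : B.h x y = 0) : B.h x' y' = 0 := by
  obtain ⟨X, hX, hY⟩ := exists_common_line (D := D) hn h.1 h'.1 hxy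
  rw [h.2.2] at hX
  rw [h'.2.2] at hY
  obtain ⟨v, hv, he⟩ := hX
  rw [he, D.mem_Pc (p := p) hn h'.2.1.1 hv] at hY
  exact hv.hh (In.left x' v) hY

include hp in
lemma Im.perp_iff [Finite K] [FiniteDimensional K V] (hn : 7 ≤ Module.finrank K V)
    {f : MulAut (Pr G)} {x y x' y' : V} (h : D.Im f x x') (h' : D.Im f y y') :
    B.h x' y' = 0 ↔ B.h x y = 0 :=
  ⟨fun h1 => Im.perp (p := p) hn h.inv h'.inv h1, fun h1 => Im.perp (p := p) hn h h' h1⟩

include hp in
lemma Im.line [Finite K] [FiniteDimensional K V] (hn : 7 ≤ Module.finrank K V)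
    {f : MulAut (Pr G)} {x y x' y' : V} (h : D.Im f x x') (h' : D.Im f y y') (hL : B.Ln x y) :
    B.Ln x' y' ∧ im f (D.A x y) = D.A x' y' := by
  have hL' : B.Ln x' y' := by
    refine ⟨h.2.1, h'.2.1, Im.perp (p := p) hn h' h hL.hvu, fun c hc => ?_⟩
    have hc0 : c ≠ 0 := by
      rintro rfl
      exact h'.2.1.1 (by rw [hc, zero_smul])
    have h1 : D.Im f y x' := by
      rw [hc] at h'
      exact Im.smul hc0 h'
    obtain ⟨d, hd⟩ := Im.uniq' (p := p) hn h h1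
    exact hL.2.2.2 d hd
  refine ⟨hL', ?_⟩
  have h1 : im f (D.A x y) ∈ D.Pc x' := (h.2.2 _).1 ⟨y, hL, rfl⟩
  have h2 : im f (D.A x y) ∈ D.Pc y' := (h'.2.2 _).1
    ⟨x, hL.symm, D.A_eq hL.symm hL (In.right y x) (In.left y x)⟩
  obtain ⟨v, hv, he⟩ := h1
  rw [he, D.mem_Pc (p := p) hn hL'.2.1.1 hv] at h2
  rw [he, D.A_eq hv hL' (In.left x' v) h2]

variable (D)

include hp in
/-- Automorphisms fixing all root groups are trivial. -/
lemma eq_one_of_fix [Finite K] [FiniteDimensional K V] (hn : 7 ≤ Module.finrank K V)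
    {f : MulAut (Pr G)} (hf : ∀ X ∈ D.R, im f X = X) : f = 1 := by
  ext s
  rw [MulAut.one_apply]
  obtain ⟨g, hg⟩ := mk_surjective (s⁻¹ * f s)
  have h1 : ∀ u v, B.Ln u v → In (D.ρ g u) u v K := by
    intro u v h
    refine ((D.Nm_iff (p := p) hn h).1 ?_).1
    rw [hg, Nm, map_mul, im_mul]
    have h2 := im_conj f s (D.A u v)
    rw [hf _ ⟨u, v, h, rfl⟩, hf _ (D.conj_pres s _ ⟨u, v, h, rfl⟩)] at h2
    rw [← h2, ← im_mul, ← map_mul, inv_mul_cancel, map_one, im_one]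
  obtain ⟨l, hl⟩ := D.scalar_of_fix hn (fun u hu => D.fix_of_lines hn h1 hu)
  have h2 := mk_eq_one.2 (D.center_of_scalar hl)
  rw [hg] at h2
  exact (inv_mul_eq_one.1 h2).symm

/-- Automorphisms of odd order move some root group to an opposite one. -/
lemma hmove_c2 [Finite K] [FiniteDimensional K V] (hn : 7 ≤ Module.finrank K V)
    {f : MulAut (Pr G)} {m : ℕ} (hf1 : f ^ (2 * m + 1) = 1) (hf : D.CP f) (hne : f ≠ 1) :
    ∃ X ∈ D.R, Opp p X (im f X) := by
  by_contra hcon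
  push Not at hcon
  apply hne
  have hex : ∀ x, B.Sg x → ∃ x', D.Im f x x' := fun x hx => D.exists_im (p := p) hn hf hx
  have hex' : ∀ x, B.Sg x → ∃ x', D.Im f x' x := fun x hx => by
    obtain ⟨x', h⟩ := D.exists_im (p := p) hn (CP.inv D hf) hx
    have h1 := h.inv
    rw [inv_inv] at h1
    exact ⟨x', h1⟩
  have hno : ∀ x y x' y', B.Ln x y → D.Im f x x' → D.Im f y y' → B.dl x y x' y' = 0 := by
    intro x y x' y' hL h1 h2
    obtain ⟨h3, h4⟩ := Im.line (p := p) hn h1 h2 hL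
    have h5 := hcon _ ⟨x, y, hL, rfl⟩
    rw [h4, D.opp_iff hn hL h3, not_not] at h5
    exact h5
  -- points orthogonal to their images are fixed
  have star : ∀ z z', D.Im f z z' → B.h z z' = 0 → ∃ c : K, z' = c • z := by
    intro z z' h1 h2
    by_contra h3
    push Not at h3
    have hL : B.Ln z z' := ⟨h1.1, h1.2.1, by rw [B.symm, h2], h3⟩
    obtain ⟨z0, h4⟩ := hex' z h1.1
    have h5 : B.h z0 z = 0 := (Im.perp_iff (p := p) hn h4 h1).1 h2
    have hL0 : B.Ln z z0 := by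
      refine ⟨h1.1, h4.1, h5, fun c hc => ?_⟩
      have hc0 : c ≠ 0 := by
        rintro rfl
        exact h4.1.1 (by rw [hc, zero_smul])
      have h6 : D.Im f z z := by
        have h7 := h4.inv
        rw [hc] at h7
        have h8 := (Im.smul hc0 h7).inv
        rwa [inv_inv] at h8
      obtain ⟨d, hd⟩ := Im.uniq (p := p) hn h6 h1
      exact h3 d hd
    obtain ⟨w, hw, hwz, hwz', hwz0⟩ := QF.perp2 (by omega) h1.1 hL hL0
    obtain ⟨w', h6⟩ := hex w hw
    have hL2 : B.Ln z w := by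
      refine ⟨h1.1, hw, hwz, fun c hc => hwz' ?_⟩
      rw [hc, B.smul_left, h2, mul_zero]
    have h7 := hno z w z' w' hL2 h1 h6
    rw [QF.dl, h2, zero_mul, zero_sub, neg_eq_zero] at h7
    rcases mul_eq_zero.1 h7 with h8 | h8
    · apply hwz0
      rw [B.symm]
      exact (Im.perp_iff (p := p) hn h4 h6).1 h8
    · exact hwz' h8
  by_cases hall : ∃ x x', D.Im f x x' ∧ B.h x x' ≠ 0
  · exfalso
    obtain ⟨x, x', h1, h2⟩ := hall
    obtain ⟨x'', h3⟩ := hex x' h1.2.1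
    -- singular vectors orthogonal to both are fixed
    have h4 : ∀ z, B.Sg z → B.h z x = 0 → B.h z x' = 0 → B.h z x'' = 0 := by
      intro z hz hzx hzx'
      obtain ⟨z', h5⟩ := hex z hz
      have hL : B.Ln x z := by
        refine ⟨h1.1, hz, hzx, fun c hc => ?_⟩
        rw [hc, B.smul_left] at hzx'
        have hc0 := (mul_eq_zero.1 hzx').resolve_right h2
        exact hz.1 (by rw [hc, hc0, zero_smul])
      have h6 := hno x z x' z' hL h1 h5
      rw [QF.dl, hzx', mul_zero, sub_zero] at h6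
      have h7 := (mul_eq_zero.1 h6).resolve_left h2
      obtain ⟨c, hc⟩ := star z z' h5 h7
      have hc0 : c ≠ 0 := by
        rintro rfl
        exact h5.2.1.1 (by rw [hc, zero_smul])
      have h8 : B.h z' x'' = 0 := (Im.perp_iff (p := p) hn h5 h3).2 hzx'
      rw [hc, B.smul_left] at h8
      exact (mul_eq_zero.1 h8).resolve_left hc0
    -- normalize
    have h2' : B.h x' x ≠ 0 := by rw [B.symm]; exact h2
    set w := (B.h x x')⁻¹ • x' with hw
    have hxw : B.h x w = 1 := by rw [hw, B.smul_right, inv_mul_cancel₀ h2]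
    have hwS : B.Sg w := h1.2.1.smul (inv_ne_zero h2)
    let W := B.perp ![x, w]
    let B' := B.res W (QF.res2 h1.1 hwS hxw)
    have hfr : 5 ≤ Module.finrank K W := by
      have : Module.finrank K V ≤ Module.finrank K W + 2 := B.finrank_perp ![x, w]
      omega
    let T : W →ₗ[K] K :=
      { toFun := fun z => B.h z x''
        map_add' := fun a b => B.add_left _ _ _
        map_smul' := fun a b => B.smul_left _ _ _ }
    have hT : ∀ z : W, T z = 0 := by
      refine QF.ext_sg (B := B') ?_ T ?_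
      · obtain ⟨z, hz, -⟩ := B'.sg_perp (k := 0) (fun i => i.elim0) (by omega)
        exact ⟨z, hz⟩
      · intro z hz
        have e1 : B.h z x = 0 := z.2 0
        have e2 : B.h z w = 0 := z.2 1
        rw [hw, B.smul_right] at e2
        exact h4 z ⟨fun h0 => hz.1 (Subtype.ext h0), hz.2⟩ e1
          ((mul_eq_zero.1 e2).resolve_left (inv_ne_zero h2))
    obtain ⟨a, ha⟩ := B.span_of_perp ![x, w] (x := x'') (fun z hz => hT ⟨z, hz⟩)
    rw [Fin.sum_univ_two] at ha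
    have ha' : x'' = a 0 • x + a 1 • w := ha
    have h5 : a 0 * a 1 = 0 := by
      have h6 := h3.2.1.2
      rw [ha', B.qadd, B.qsmul, B.qsmul, h1.1.2, hwS.2, B.smul_left, B.smul_right, hxw] at h6
      linear_combination h6
    rcases mul_eq_zero.1 h5 with h6 | h6
    · -- the image of `x'` is `x'`
      rw [h6, zero_smul, zero_add, hw, smul_smul] at ha'
      have hc0 : a 1 * (B.h x x')⁻¹ ≠ 0 := by
        intro h0
        exact h3.2.1.1 (by rw [ha', h0, zero_smul])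
      rw [ha'] at h3
      obtain ⟨c, hc⟩ := Im.uniq' (p := p) hn h1 (Im.smul hc0 h3)
      apply h2
      rw [hc, B.smul_right, h1.1.hself, mul_zero]
    · rw [h6, zero_smul, add_zero] at ha'
      have hc0 : a 0 ≠ 0 := by
        intro h0
        exact h3.2.1.1 (by rw [ha', h0, zero_smul])
      rw [ha'] at h3
      have h7 := Im.smul hc0 h3
      -- the square preserves the pencil
      have h8 : ∀ k : ℕ, ∀ X, X ∈ D.Pc x ↔ im (f ^ (2 * k)) X ∈ D.Pc x := by
        intro k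
        induction k with
        | zero => intro X; rw [mul_zero, pow_zero, im_one]
        | succ k ih =>
          intro X
          have h9 : f ^ (2 * (k + 1)) = f * (f * f ^ (2 * k)) := by
            rw [← pow_succ', ← pow_succ']
            congr 1
          rw [ih, h9, im_mul, im_mul, ← h7.2.2, ← h1.2.2]
      have h9 : ∀ X, X ∈ D.Pc x ↔ X ∈ D.Pc x' := by
        intro X
        rw [h8 m X, h1.2.2, ← im_mul, ← pow_succ', hf1, im_one]
      obtain ⟨c, hc⟩ := D.Pc_inj (p := p) hn h1.1 h1.2.1.1 (fun X hX => (h9 X).1 hX)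
      apply h2
      rw [hc, B.smul_right, h1.1.hself, mul_zero]
  · push Not at hall
    have hfix : ∀ x, B.Sg x → D.Im f x x := by
      intro x hx
      obtain ⟨x', h1⟩ := hex x hx
      obtain ⟨c, hc⟩ := star x x' h1 (hall x x' h1)
      have hc0 : c ≠ 0 := by
        rintro rfl
        exact h1.2.1.1 (by rw [hc, zero_smul])
      rw [hc] at h1
      exact Im.smul hc0 h1
    refine D.eq_one_of_fix (p := p) hn ?_
    rintro _ ⟨x, y, hL, rfl⟩
    exact (Im.line (p := p) hn (hfix x hL.1) (hfix y hL.2.1) hL).2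

/-- Automorphisms of odd order move some root group to an opposite one. -/
lemma hmove [Finite K] [FiniteDimensional K V] (hn : 7 ≤ Module.finrank K V)
    (hN : 9 ≤ Module.finrank K V ∨ NoFour B) {f : MulAut (Pr G)} {m : ℕ}
    (hf1 : f ^ (2 * m + 1) = 1) (hf : PP D.R f) (hne : f ≠ 1) :
    ∃ X ∈ D.R, Opp p X (im f X) := by
  refine D.hmove_c2 hn hf1 ⟨hf, fun X Y h => ?_, fun X Y h => ?_⟩ hne
  · rw [← D.T2_iff (p := p) hn hN] at h ⊢
    exact h.im hf
  · rw [← D.T2_iff (p := p) hn hN] at h ⊢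
    exact h.im hf.inv

end RepO

end Pool.Agent.BSpi.Orth
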