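import Mathlib

set_option autoImplicit false
set_option linter.unusedSimpArgs false
set_option linter.unusedVariables false
set_option linter.unusedSectionVars false

namespace Pool.Agent.BSpi.Orth

/-- Quadratic forms with nondegenerate polar form. -/
structure QF (K V : Type) [Field K] [AddCommGroup V] [Module K V] where
  Q : V → K
  h : V → V → K
  add_left : ∀ x y z, h (x + y) z = h x z + h y z
  smul_left : ∀ a x y, h (a • x) y = a * h x y
  symm : ∀ x y, h y x = h x y
  qadd : ∀ x y, Q (x + y) = Q x + Q y + h x y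
  qsmul : ∀ (a : K) x, Q (a • x) = a * a * Q x
  nondeg : ∀ x, (∀ y, h x y = 0) → x = 0

namespace QF

variable {K V : Type} [Field K] [AddCommGroup V] [Module K V] (B : QF K V)

lemma add_right (x y z : V) : B.h x (y + z) = B.h x y + B.h x z := by
  rw [B.symm (y + z), B.add_left, B.symm y x, B.symm z x]

lemma smul_right (a : K) (x y : V) : B.h x (a • y) = a * B.h x y := by
  rw [B.symm (a • y), B.smul_left, B.symm y x]

lemma zero_left (x : V) : B.h 0 x = 0 := by
  have := B.smul_left 0 0 x
  rwa [zero_smul, zero_mul] at this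

lemma zero_right (x : V) : B.h x 0 = 0 := by rw [B.symm, B.zero_left]

lemma neg_left (x y : V) : B.h (-x) y = - B.h x y := by
  rw [← neg_one_smul K x, B.smul_left, neg_one_mul]

lemma neg_right (x y : V) : B.h x (-y) = - B.h x y := by
  rw [← neg_one_smul K y, B.smul_right, neg_one_mul]

lemma sub_left (x y z : V) : B.h (x - y) z = B.h x z - B.h y z := by
  rw [sub_eq_add_neg, B.add_left, B.neg_left, sub_eq_add_neg]

lemma sub_right (x y z : V) : B.h x (y - z) = B.h x y - B.h x z := by
  rw [sub_eq_add_neg, B.add_right, B.neg_right, sub_eq_add_neg]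

lemma qzero : B.Q 0 = 0 := by
  have := B.qsmul 0 0
  rwa [zero_smul, zero_mul, zero_mul] at this

lemma hself (x : V) : B.h x x = 2 * B.Q x := by
  have h1 := B.qadd x x
  have h2 := B.qsmul 2 x
  rw [two_smul, h1] at h2
  linear_combination h2

lemma qneg (x : V) : B.Q (-x) = B.Q x := by
  rw [← neg_one_smul K x, B.qsmul]
  ring

lemma qsub (x y : V) : B.Q (x - y) = B.Q x + B.Q y - B.h x y := by
  rw [sub_eq_add_neg, B.qadd, B.qneg, B.neg_right]
  ring

lemma eq_of_right {x y : V} (h : ∀ z, B.h z x = B.h z y) : x = y := by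
  rw [← sub_eq_zero]
  refine B.nondeg _ fun z => ?_
  rw [B.symm z, B.sub_right, h, sub_self]

/-- Singular nonzero vectors. -/
def Sg (u : V) : Prop := u ≠ 0 ∧ B.Q u = 0

variable {B}

lemma Sg.hself {u : V} (hu : B.Sg u) : B.h u u = 0 := by rw [B.hself, hu.2, mul_zero]

lemma Sg.smul {u : V} (hu : B.Sg u) {a : K} (ha : a ≠ 0) : B.Sg (a • u) :=
  ⟨smul_ne_zero ha hu.1, by rw [B.qsmul, hu.2, mul_zero]⟩

/-- Correcting vectors. -/
lemma correct {x u : V} (hu : B.Sg u) (hx : B.h x u ≠ 0) : B.Sg (x - (B.Q x / B.h x u) • u) := by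
  refine ⟨fun h0 => ?_, ?_⟩
  · have h1 := congrArg (fun y => B.h y u) h0
    simp only [B.sub_left, B.smul_left, hu.hself, B.zero_left, mul_zero, sub_zero] at h1
    exact hx h1
  · rw [B.qsub, B.qsmul, hu.2, B.smul_right, mul_zero, add_zero, div_mul_cancel₀ _ hx, sub_self]

variable (B)

/-- Three-dimensional spaces contain singular vectors. -/
lemma chev [Finite K] (e : Fin 3 → V) : ∃ c : Fin 3 → K, c ≠ 0 ∧ B.Q (∑ i, c i • e i) = 0 := by
  classical
  have := Fintype.ofFinite K
  obtain ⟨p, hp, hcp⟩ : ∃ p : ℕ, Fact p.Prime ∧ CharP K p := by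
    have hne : ringChar K ≠ 0 := by
      intro h0
      have : CharZero K := (CharP.ringChar_zero_iff_CharZero K).1 h0
      exact not_finite K
    have : NeZero (ringChar K) := ⟨hne⟩
    exact ⟨ringChar K, CharP.char_is_prime_of_pos K (ringChar K), inferInstance⟩
  let m : K → Fin 3 → Fin 3 → MvPolynomial (Fin 3) K := fun a i j =>
    MvPolynomial.C a * MvPolynomial.X i * MvPolynomial.X j
  have hm : ∀ a i j, (m a i j).totalDegree ≤ 2 := by
    intro a i j
    refine (MvPolynomial.totalDegree_mul _ _).trans ?_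
    have h1 := MvPolynomial.totalDegree_mul (MvPolynomial.C a) (MvPolynomial.X i : MvPolynomial (Fin 3) K)
    rw [MvPolynomial.totalDegree_C, MvPolynomial.totalDegree_X, zero_add] at h1
    rw [MvPolynomial.totalDegree_X]
    omega
  let f : MvPolynomial (Fin 3) K := m (B.Q (e 0)) 0 0 + m (B.Q (e 1)) 1 1 + m (B.Q (e 2)) 2 2 +
    m (B.h (e 0) (e 1)) 0 1 + m (B.h (e 0) (e 2)) 0 2 + m (B.h (e 1) (e 2)) 1 2
  have hadd : ∀ g g' : MvPolynomial (Fin 3) K, g.totalDegree ≤ 2 → g'.totalDegree ≤ 2 →
      (g + g').totalDegree ≤ 2 := fun g g' h1 h2 =>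
    (MvPolynomial.totalDegree_add g g').trans (max_le h1 h2)
  have hf : f.totalDegree < Fintype.card (Fin 3) := by
    rw [Fintype.card_fin]
    have : f.totalDegree ≤ 2 := hadd _ _ (hadd _ _ (hadd _ _ (hadd _ _ (hadd _ _ (hm _ _ _)
      (hm _ _ _)) (hm _ _ _)) (hm _ _ _)) (hm _ _ _)) (hm _ _ _)
    omega
  have heval : ∀ c : Fin 3 → K, MvPolynomial.eval c f = B.Q (∑ i, c i • e i) := by
    intro c
    rw [Fin.sum_univ_three]
    simp only [f, m, map_add, map_mul, MvPolynomial.eval_C, MvPolynomial.eval_X, B.qadd, B.qsmul,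
      B.add_left, B.smul_left, B.smul_right]
    ring
  have h1 := char_dvd_card_solutions p hf
  by_contra hcon
  push Not at hcon
  have h2 : Fintype.card {x : Fin 3 → K // MvPolynomial.eval x f = 0} = 1 := by
    rw [Fintype.card_eq_one_iff]
    refine ⟨⟨0, by rw [heval]; simp [B.qzero]⟩, fun y => Subtype.ext ?_⟩
    by_contra hne
    exact hcon y.1 hne (by rw [← heval]; exact y.2)
  rw [h2] at h1
  exact hp.out.one_lt.ne' (Nat.dvd_one.1 h1)

lemma sg_mem [Finite K] [FiniteDimensional K V] (W : Submodule K V)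
    (hW : 3 ≤ Module.finrank K W) : ∃ x ∈ W, B.Sg x := by
  let b := Module.finBasis K W
  let e : Fin 3 → V := fun i => (b (Fin.castLE hW i) : V)
  have he : LinearIndependent K e := by
    have h1 : LinearIndependent K (fun i : Fin 3 => b (Fin.castLE hW i)) :=
      b.linearIndependent.comp _ (Fin.castLE_injective hW)
    exact h1.map' W.subtype (Submodule.ker_subtype W)
  obtain ⟨c, hc, hQ⟩ := B.chev e
  refine ⟨∑ i, c i • e i, ?_, ?_, hQ⟩
  · exact Submodule.sum_mem _ fun i _ => Submodule.smul_mem _ _ (b _).2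
  · intro h0
    apply hc
    rw [Fintype.linearIndependent_iff] at he
    exact funext (he c h0)

/-- Orthogonal subspaces. -/
def perp {k : ℕ} (c : Fin k → V) : Submodule K V where
  carrier := {x | ∀ i, B.h x (c i) = 0}
  add_mem' := fun {x y} hx hy i => by rw [B.add_left, hx, hy, add_zero]
  zero_mem' := fun i => B.zero_left _
  smul_mem' := fun a x hx i => by rw [B.smul_left, hx, mul_zero]

lemma finrank_perp [FiniteDimensional K V] {k : ℕ} (c : Fin k → V) :
    Module.finrank K V ≤ Module.finrank K (B.perp c) + k := by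
  let T : V →ₗ[K] (Fin k → K) :=
    { toFun := fun z i => B.h z (c i)
      map_add' := fun x y => by
        ext i
        exact B.add_left _ _ _
      map_smul' := fun c x => by
        ext i
        exact B.smul_left _ _ _ }
  have h1 := T.finrank_range_add_finrank_ker
  have h2 : LinearMap.ker T = B.perp c := by
    ext x
    rw [LinearMap.mem_ker]
    exact ⟨fun h i => congrFun h i, fun h => funext h⟩
  have h3 : Module.finrank K (LinearMap.range T) ≤ k := by
    have := Submodule.finrank_le (LinearMap.range T)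
    rwa [Module.finrank_fintype_fun_eq_card, Fintype.card_fin] at this
  rw [← h2]
  omega

/-- Singular vectors orthogonal to given vectors. -/
lemma sg_perp [Finite K] [FiniteDimensional K V] {k : ℕ} (c : Fin k → V)
    (hk : k + 3 ≤ Module.finrank K V) : ∃ x, B.Sg x ∧ ∀ i, B.h x (c i) = 0 := by
  obtain ⟨x, hx, hxs⟩ := B.sg_mem (B.perp c) (by have := B.finrank_perp c; omega)
  exact ⟨x, hxs, hx⟩

/-- Orthogonal vectors outside of a subspace. -/
lemma perp_not [FiniteDimensional K V] {k j : ℕ} (c : Fin k → V) (d : Fin j → V)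
    (hk : k + j < Module.finrank K V) :
    ∃ x, (∀ i, B.h x (c i) = 0) ∧ x ∉ Submodule.span K (Set.range d) := by
  by_contra hcon
  push Not at hcon
  have h1 : B.perp c ≤ Submodule.span K (Set.range d) := fun x hx => hcon x hx
  have h2 := Submodule.finrank_mono h1
  have h3 : Module.finrank K (Submodule.span K (Set.range d)) ≤ j := by
    have := finrank_range_le_card (R := K) d
    rwa [Fintype.card_fin] at this
  have := B.finrank_perp c
  omega

/-- Double orthogonals. -/
lemma span_of_perp {k : ℕ} (c : Fin k → V) {x : V}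
    (h : ∀ z, (∀ i, B.h z (c i) = 0) → B.h z x = 0) : ∃ a : Fin k → K, x = ∑ i, a i • c i := by
  let L : V → V →ₗ[K] K := fun y =>
    { toFun := fun z => B.h z y
      map_add' := fun x z => B.add_left x z y
      map_smul' := fun a x => B.smul_left a x y }
  have h1 : L x ∈ Submodule.span K (Set.range fun i => L (c i)) := by
    refine mem_span_of_iInf_ker_le_ker ?_
    intro z hz
    rw [Submodule.mem_iInf] at hz
    exact h z hz
  obtain ⟨a, ha⟩ := (Submodule.mem_span_range_iff_exists_fun K).1 h1
  refine ⟨a, B.eq_of_right fun z => ?_⟩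
  have h2 := congrArg (fun f : V →ₗ[K] K => f z) ha
  simp only [LinearMap.sum_apply, LinearMap.smul_apply] at h2
  have h3 : B.h z (∑ i, a i • c i) = ∑ i, a i • L (c i) z := by
    have h4 : ∀ s : Finset (Fin k), B.h z (∑ i ∈ s, a i • c i) = ∑ i ∈ s, a i • L (c i) z := by
      intro s
      induction s using Finset.induction_on with
      | empty => rw [Finset.sum_empty, Finset.sum_empty, B.zero_right]
      | insert i s hi ih =>
        rw [Finset.sum_insert hi, Finset.sum_insert hi, B.add_right, ih, B.smul_right]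
        rfl
    exact h4 _
  rw [h3, h2]
  rfl

/-- Vectors with prescribed products. -/
lemma vals {k : ℕ} (v : Fin k → V) (hv : LinearIndependent K v) (a : Fin k → K) :
    ∃ z, ∀ i, B.h z (v i) = a i := by
  let T : V →ₗ[K] (Fin k → K) :=
    { toFun := fun z i => B.h z (v i)
      map_add' := fun x y => by
        ext i
        exact B.add_left _ _ _
      map_smul' := fun c x => by
        ext i
        exact B.smul_left _ _ _ }
  have h1 : LinearMap.range T = ⊤ := by
    by_contra hne
    obtain ⟨f, hf0, hf⟩ := Submodule.exists_le_ker_of_lt_top _ (lt_top_iff_ne_top.2 hne)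
    apply hf0
    -- the functional is a combination of coordinates
    have h2 : ∀ y : Fin k → K, f y = ∑ i, y i * f (Pi.single i 1) := by
      intro y
      conv_lhs => rw [pi_eq_sum_univ' y]
      rw [map_sum]
      refine Finset.sum_congr rfl fun i _ => ?_
      rw [map_smul, smul_eq_mul]
    have h3 : ∀ z, B.h z (∑ i, f (Pi.single i 1) • v i) = 0 := by
      intro z
      have h4 : ∀ s : Finset (Fin k), B.h z (∑ i ∈ s, f (Pi.single i 1) • v i) =
          ∑ i ∈ s, T z i * f (Pi.single i 1) := by
        intro s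
        induction s using Finset.induction_on with
        | empty => rw [Finset.sum_empty, Finset.sum_empty, B.zero_right]
        | insert i s hi ih =>
          rw [Finset.sum_insert hi, Finset.sum_insert hi, B.add_right, ih, B.smul_right, mul_comm]
          rfl
      rw [h4, ← h2]
      exact hf ⟨z, rfl⟩
    have h5 : ∑ i, f (Pi.single i 1) • v i = 0 := B.nondeg _ fun y => by rw [B.symm]; exact h3 y
    rw [Fintype.linearIndependent_iff] at hv
    have h6 := hv _ h5
    refine LinearMap.ext fun y => ?_
    rw [h2, LinearMap.zero_apply]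
    exact Finset.sum_eq_zero fun i _ => by rw [h6, mul_zero]
  obtain ⟨z, hz⟩ := LinearMap.range_eq_top.1 h1 a
  exact ⟨z, fun i => congrFun hz i⟩

end QF

end Pool.Agent.BSpi.Orth
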