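import Pool.Agent.BSpi.Orth.Grp

set_option autoImplicit false
set_option linter.unusedSimpArgs false
set_option linter.unusedVariables false
set_option linter.unusedSectionVars false

open Matrix Matrix.SpecialLinearGroup
open scoped MatrixGroups

namespace Pool.Agent.BSpi.Orth

open Pool.Agent.BSpi.PSL Pool.Agent.BSpi.Cls

variable {K V : Type} [Field K] [AddCommGroup V] [Module K V] {B : QF K V}

/-- Membership in the span of two vectors. -/
def In (x u v : V) (K : Type) [Field K] [Module K V] : Prop := ∃ a b : K, x = a • u + b • v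

lemma In.trans {x u v u' v' : V} (h : In x u v K) (hu : In u u' v' K) (hv : In v u' v' K) :
    In x u' v' K := by
  obtain ⟨a, b, rfl⟩ := h
  obtain ⟨c, d, rfl⟩ := hu
  obtain ⟨e, f, rfl⟩ := hv
  exact ⟨a * c + b * e, a * d + b * f, by module⟩

lemma In.left (u v : V) : In u u v K := ⟨1, 0, by module⟩

lemma In.right (u v : V) : In v u v K := ⟨0, 1, by module⟩

lemma In.add {x y u v : V} (h : In x u v K) (h' : In y u v K) : In (x + y) u v K := by
  obtain ⟨a, b, rfl⟩ := h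
  obtain ⟨c, d, rfl⟩ := h'
  exact ⟨a + c, b + d, by module⟩

lemma In.smul {x u v : V} (c : K) (h : In x u v K) : In (c • x) u v K := by
  obtain ⟨a, b, rfl⟩ := h
  exact ⟨c * a, c * b, by module⟩

lemma In.sub {x y u v : V} (h : In x u v K) (h' : In y u v K) : In (x - y) u v K := by
  obtain ⟨a, b, rfl⟩ := h
  obtain ⟨c, d, rfl⟩ := h'
  exact ⟨a - c, b - d, by module⟩

lemma In.map {G : Type} [Group G] (D : RepO B G) {x u v : V} (h : In x u v K) (g : G) :
    In (D.ρ g x) (D.ρ g u) (D.ρ g v) K := by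
  obtain ⟨a, b, rfl⟩ := h
  exact ⟨a, b, by rw [map_add, map_smul, map_smul]⟩

lemma In.h0 {x u v z : V} (h : In x u v K) (hu : B.h u z = 0) (hv : B.h v z = 0) :
    B.h x z = 0 := by
  obtain ⟨a, b, rfl⟩ := h
  rw [B.add_left, B.smul_left, B.smul_left, hu, hv, mul_zero, mul_zero, add_zero]

lemma In.h0' {x u v z : V} (h : In x u v K) (hu : B.h z u = 0) (hv : B.h z v = 0) :
    B.h z x = 0 := by
  rw [B.symm] at hu hv ⊢
  exact h.h0 hu hv

namespace QF

lemma Ln.huv {u v : V} (h : B.Ln u v) : B.h u v = 0 := by rw [B.symm]; exact h.2.2.1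

lemma Ln.hvu {u v : V} (h : B.Ln u v) : B.h v u = 0 := h.2.2.1

lemma Ln.symm {u v : V} (h : B.Ln u v) : B.Ln v u := by
  refine ⟨h.2.1, h.1, h.huv, fun c hc => ?_⟩
  have hc0 : c ≠ 0 := by
    rintro rfl
    exact h.1.1 (by rw [hc, zero_smul])
  exact h.2.2.2 c⁻¹ (by rw [hc, smul_smul, inv_mul_cancel₀ hc0, one_smul])

lemma Ln.q {u v : V} (h : B.Ln u v) {x : V} (hx : In x u v K) : B.Q x = 0 := by
  obtain ⟨a, b, rfl⟩ := hx
  rw [B.qadd, B.qsmul, B.qsmul, h.1.2, h.2.1.2, B.smul_left, B.smul_right, h.huv]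
  ring

lemma Ln.hh {u v : V} (h : B.Ln u v) {x y : V} (hx : In x u v K) (hy : In y u v K) :
    B.h x y = 0 := by
  obtain ⟨a, b, rfl⟩ := hx
  obtain ⟨c, d, rfl⟩ := hy
  simp only [B.add_left, B.add_right, B.smul_left, B.smul_right, h.huv, h.hvu, h.1.hself, h.2.1.hself]
  ring

lemma Ln.zero {u v : V} (h : B.Ln u v) {a b : K} (h0 : a • u + b • v = 0) : a = 0 ∧ b = 0 := by
  have hb : b = 0 := by
    by_contra hb
    apply h.2.2.2 (-(b⁻¹ * a))
    have h1 : v = b⁻¹ • (a • u + b • v) - (b⁻¹ * a) • u := by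
      rw [smul_add, smul_smul, smul_smul, inv_mul_cancel₀ hb, one_smul]
      abel
    rw [h0, smul_zero, zero_sub] at h1
    rw [neg_smul]
    exact h1
  refine ⟨?_, hb⟩
  rw [hb, zero_smul, add_zero] at h0
  exact (smul_eq_zero.1 h0).resolve_right h.1.1

lemma Ln.uniq {u v : V} (h : B.Ln u v) {a b c d : K} (h0 : a • u + b • v = c • u + d • v) :
    a = c ∧ b = d := by
  have h1 := h.zero (a := a - c) (b := b - d) (by
    have : (a - c) • u + (b - d) • v = a • u + b • v - (c • u + d • v) := by module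
    rw [this, h0, sub_self])
  exact ⟨sub_eq_zero.1 h1.1, sub_eq_zero.1 h1.2⟩

lemma Ln.indep {u v : V} (h : B.Ln u v) : LinearIndependent K ![u, v] := by
  rw [Fintype.linearIndependent_iff]
  intro g hg
  rw [Fin.sum_univ_two] at hg
  have h1 := h.zero (a := g 0) (b := g 1) hg
  intro i
  fin_cases i
  · exact h1.1
  · exact h1.2

lemma Ln.vals {u v : V} (h : B.Ln u v) (a b : K) : ∃ z, B.h z u = a ∧ B.h z v = b := by
  obtain ⟨z, hz⟩ := B.vals _ h.indep ![a, b]
  exact ⟨z, hz 0, hz 1⟩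

/-- New bases of lines. -/
lemma Ln.of_in {u v u' v' : V} (h : B.Ln u v) (hu : In u' u v K) (hv : In v' u v K)
    (hu0 : u' ≠ 0) (hne : ∀ c : K, v' ≠ c • u') : B.Ln u' v' :=
  ⟨⟨hu0, h.q hu⟩, ⟨fun h0 => hne 0 (by rw [h0, zero_smul]), h.q hv⟩, h.hh hv hu, hne⟩

/-- The old basis in terms of the new one. -/
lemma Ln.in_of {u v u' v' : V} (h' : B.Ln u' v') (hu : In u' u v K) (hv : In v' u v K) :
    In u u' v' K ∧ In v u' v' K := by
  obtain ⟨a, b, hab⟩ := hu
  obtain ⟨c, d, hcd⟩ := hv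
  have hdet : a * d - b * c ≠ 0 := by
    intro h0
    have h1 : d • u' + (-b) • v' = 0 := by
      have h2 : d • u' + (-b) • v' = (a * d - b * c) • u := by rw [hab, hcd]; module
      rw [h2, h0, zero_smul]
    have h3 := h'.zero h1
    have hb : b = 0 := neg_eq_zero.1 h3.2
    have h4 : c • u' + (-a) • v' = 0 := by
      have h2 : c • u' + (-a) • v' = (-(a * d - b * c)) • v := by rw [hab, hcd]; module
      rw [h2, h0, neg_zero, zero_smul]
    have h5 := h'.zero h4
    have ha : a = 0 := neg_eq_zero.1 h5.2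
    apply h'.1.1
    rw [hab, ha, hb]
    module
  constructor
  · refine ⟨(a * d - b * c)⁻¹ * d, (a * d - b * c)⁻¹ * (-b), ?_⟩
    have h1 : u = (a * d - b * c)⁻¹ • ((a * d - b * c) • u) := by
      rw [smul_smul, inv_mul_cancel₀ hdet, one_smul]
    rw [h1, hab, hcd]
    have h2 : (a * d - b * c)⁻¹ • (a * d - b * c) • u = u := by
      rw [smul_smul, inv_mul_cancel₀ hdet, one_smul]
    rw [h2]
    have h3 : ((a * d - b * c)⁻¹ * d) • (a • u + b • v) +
        ((a * d - b * c)⁻¹ * -b) • (c • u + d • v) =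
        (a * d - b * c)⁻¹ • ((a * d - b * c) • u) := by module
    rw [h3, h2]
  · refine ⟨(a * d - b * c)⁻¹ * (-c), (a * d - b * c)⁻¹ * a, ?_⟩
    rw [hab, hcd]
    have h2 : (a * d - b * c)⁻¹ • (a * d - b * c) • v = v := by
      rw [smul_smul, inv_mul_cancel₀ hdet, one_smul]
    have h3 : ((a * d - b * c)⁻¹ * -c) • (a • u + b • v) +
        ((a * d - b * c)⁻¹ * a) • (c • u + d • v) =
        (a * d - b * c)⁻¹ • ((a * d - b * c) • v) := by module
    rw [h3, h2]

/-- Every singular vector lies in a hyperbolic quadruple. -/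
lemma exists_quad [Finite K] [FiniteDimensional K V] (hn : 7 ≤ Module.finrank K V) {u : V}
    (hu : B.Sg u) : ∃ w v v', B.Sg w ∧ B.Sg v ∧ B.Sg v' ∧ B.h u w = 1 ∧ B.h v v' = 1 ∧
      B.h u v = 0 ∧ B.h u v' = 0 ∧ B.h w v = 0 ∧ B.h w v' = 0 := by
  obtain ⟨w, hw, huw⟩ := partner hu
  obtain ⟨v, hv, hvc⟩ := B.sg_perp ![u, w] (by omega)
  have hvu : B.h v u = 0 := hvc 0
  have hvw : B.h v w = 0 := hvc 1
  have hind : LinearIndependent K ![u, w, v] := by
    rw [Fintype.linearIndependent_iff]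
    intro g hg
    rw [Fin.sum_univ_three] at hg
    have hg' : g 0 • u + g 1 • w + g 2 • v = 0 := hg
    have e1 := congrArg (fun y => B.h y u) hg'
    have e2 := congrArg (fun y => B.h y w) hg'
    simp only [B.add_left, B.smul_left, B.zero_left, hu.hself, hw.hself, huw, B.symm u w, hvu, hvw,
      mul_zero, mul_one, add_zero, zero_add] at e1 e2
    rw [e1, e2, zero_smul, zero_smul, zero_add, zero_add] at hg'
    have e3 := (smul_eq_zero.1 hg').resolve_right hv.1
    intro i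
    fin_cases i
    · exact e2
    · exact e1
    · exact e3
  obtain ⟨z, hz⟩ := B.vals _ hind ![0, 0, 1]
  have hzu : B.h z u = 0 := hz 0
  have hzw : B.h z w = 0 := hz 1
  have hzv : B.h z v = 1 := hz 2
  have hzv' : B.h z v ≠ 0 := by rw [hzv]; exact one_ne_zero
  have h1 := correct hv hzv'
  refine ⟨w, v, _, hw, hv, h1, huw, ?_, ?_, ?_, ?_, ?_⟩
  · rw [B.sub_right, B.smul_right, hv.hself, mul_zero, sub_zero, B.symm, hzv]
  · rw [B.symm, hvu]
  · rw [B.sub_right, B.smul_right, B.symm z u, hzu, B.symm v u, hvu, mul_zero, sub_zero]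
  · rw [B.symm, hvw]
  · rw [B.sub_right, B.smul_right, B.symm z w, hzw, B.symm v w, hvw, mul_zero, sub_zero]

lemma ln_of_h {u v w : V} (hu : B.Sg u) (hv : B.Sg v) (hvu : B.h v u = 0) (hw : B.h u w ≠ 0)
    (hvw : B.h v w = 0) : B.Ln u v := by
  refine ⟨hu, hv, hvu, fun c hc => ?_⟩
  rw [hc, B.smul_left] at hvw
  have h1 := (mul_eq_zero.1 hvw).resolve_right hw
  exact hv.1 (by rw [hc, h1, zero_smul])

end QF

variable {p : ℕ} [hp : Fact p.Prime] [CharP K p] {G : Type} [Group G]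

namespace RepO

variable (D : RepO B G)

/-- Base change for root elements. -/
lemma es_det {u v : V} (h : B.Ln u v) (a α β γ δ : K) :
    D.es (α • u + β • v) (a • (γ • u + δ • v)) = D.es u ((a * (α * δ - β * γ)) • v) := by
  have hx : In (α • u + β • v) u v K := ⟨α, β, rfl⟩
  have hy : In (a • (γ • u + δ • v)) u v K := In.smul a ⟨γ, δ, rfl⟩
  apply D.ext
  intro x
  rw [D.es_apply (h.q hx) (h.hh hy hx), D.es_apply h.1.2 (by rw [B.smul_left, h.hvu, mul_zero]),
    h.q hy, B.qsmul, h.2.1.2, B.smul_right, B.add_right, B.add_right, B.smul_right, B.smul_right,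
    B.smul_right, B.smul_right, B.smul_right]
  module

/-- Root groups. -/
noncomputable def A (u v : V) : Subgroup (Pr G) :=
  Subgroup.closure {x | ∃ a : K, x = pj (D.es u (a • v))}

lemma mem_A {u v : V} (hu : B.Q u = 0) (hv : B.h v u = 0) {x : Pr G} :
    x ∈ D.A u v ↔ ∃ a : K, x = pj (D.es u (a • v)) := by
  have hav : ∀ a : K, B.h (a • v) u = 0 := fun a => by rw [B.smul_left, hv, mul_zero]
  constructor
  · intro hx
    induction hx using Subgroup.closure_induction with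
    | mem x hx => exact hx
    | one => exact ⟨0, by rw [zero_smul, D.es_zero hu, map_one]⟩
    | mul x y _ _ ihx ihy =>
      obtain ⟨a, rfl⟩ := ihx
      obtain ⟨b, rfl⟩ := ihy
      exact ⟨a + b, by rw [← map_mul, D.es_mul hu (hav a) (hav b), add_smul]⟩
    | inv x _ ih =>
      obtain ⟨a, rfl⟩ := ih
      exact ⟨-a, by rw [← map_inv, D.es_inv hu (hav a), neg_smul]⟩
  · intro hx
    exact Subgroup.subset_closure hx

lemma mem_A' {u v : V} (h : B.Ln u v) {x : Pr G} :
    x ∈ D.A u v ↔ ∃ a : K, x = pj (D.es u (a • v)) := D.mem_A h.1.2 h.hvu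

lemma A_eq {u v u' v' : V} (h : B.Ln u v) (h' : B.Ln u' v') (hu : In u' u v K) (hv : In v' u v K) :
    D.A u' v' = D.A u v := by
  have key : ∀ u v u' v' : V, B.Ln u v → B.Ln u' v' → In u' u v K → In v' u v K →
      D.A u' v' ≤ D.A u v := by
    rintro u v u' v' h h' ⟨α, β, rfl⟩ ⟨γ, δ, rfl⟩ x hx
    obtain ⟨a, rfl⟩ := (D.mem_A' h').1 hx
    exact (D.mem_A' h).2 ⟨_, by rw [D.es_det h]⟩
  obtain ⟨h1, h2⟩ := h'.in_of hu hv
  exact le_antisymm (key _ _ _ _ h h' hu hv) (key _ _ _ _ h' h h1 h2)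

/-- Root elements determine lines. -/
lemma es_line {u v u' v' : V} (h : B.Ln u v) (h' : B.Ln u' v') {a : K}
    (he : D.es u v = D.es u' (a • v')) : In u u' v' K ∧ In v u' v' K := by
  have key : ∀ z, B.h z u • v - B.h z v • u = a • (B.h z u' • v' - B.h z v' • u') := by
    intro z
    have h1 : D.ρ (D.es u v) z = D.ρ (D.es u' (a • v')) z := by rw [he]
    rw [D.es_apply h.1.2 h.hvu, D.es_apply h'.1.2 (by rw [B.smul_left, h'.hvu, mul_zero]), h.2.1.2,
      B.qsmul, h'.2.1.2, B.smul_right] at h1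
    have h2 : z + B.h z u • v - B.h z v • u - (0 * B.h z u) • u -
        (z + B.h z u' • a • v' - (a * B.h z v') • u' - (a * a * 0 * B.h z u') • u') = 0 :=
      sub_eq_zero.2 h1
    rw [← sub_eq_zero, ← h2]
    module
  constructor
  · obtain ⟨z, hzu, hzv⟩ := h.vals 0 (-1)
    have h1 := key z
    rw [hzu, hzv] at h1
    refine ⟨-(a * B.h z v'), a * B.h z u', ?_⟩
    have h2 : u = (0 : K) • v - (-1 : K) • u := by module
    rw [h2, h1]
    module
  · obtain ⟨z, hzu, hzv⟩ := h.vals 1 0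
    have h1 := key z
    rw [hzu, hzv] at h1
    refine ⟨-(a * B.h z v'), a * B.h z u', ?_⟩
    have h2 : v = (1 : K) • v - (0 : K) • u := by module
    rw [h2, h1]
    module

/-- Elements fixing all singular points are scalars. -/
lemma scalar_of_fix [Finite K] [FiniteDimensional K V] (hn : 7 ≤ Module.finrank K V) {z : G}
    (h1 : ∀ u, B.Sg u → ∃ l : K, D.ρ z u = l • u) : ∃ l : K, ∀ x, D.ρ z x = l • x := by
  have h2 : ∀ u w (l m : K), B.Sg u → B.Sg w → B.h u w = 0 → D.ρ z u = l • u → D.ρ z w = m • w →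
      l = m := by
    intro u w l m hu hw huw hl hm
    by_cases hne : ∃ c : K, w = c • u
    · obtain ⟨c, rfl⟩ := hne
      rw [map_smul, hl, smul_smul, smul_smul] at hm
      have hc : c ≠ 0 := by
        rintro rfl
        exact hw.1 (zero_smul _ _)
      have h3 : (c * l - m * c) • u = 0 := by rw [sub_smul, hm, sub_self]
      have h4 := (smul_eq_zero.1 h3).resolve_right hu.1
      exact mul_left_cancel₀ hc (by linear_combination h4)
    · push Not at hne
      have hL : B.Ln u w := ⟨hu, hw, by rw [B.symm, huw], hne⟩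
      have hs : B.Sg (u + w) := by
        refine ⟨fun h0 => ?_, by rw [B.qadd, hu.2, hw.2, huw]; ring⟩
        have := hL.zero (a := (1 : K)) (b := 1) (by rw [one_smul, one_smul, h0])
        exact one_ne_zero this.1
      obtain ⟨k, hk⟩ := h1 _ hs
      rw [map_add, hl, hm, smul_add] at hk
      have := hL.uniq hk
      rw [this.1, this.2]
  obtain ⟨u, hu, -⟩ := B.sg_perp (k := 0) (fun i => i.elim0) (by omega)
  obtain ⟨l, hl⟩ := h1 u hu
  refine ⟨l, fun x => ?_⟩
  have h3 := QF.ext_sg ⟨u, hu⟩ (D.ρ z - l • (1 : Module.End K V)) (by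
    intro w hw
    obtain ⟨m, hm⟩ := h1 w hw
    obtain ⟨y, hy, hyc⟩ := B.sg_perp ![u, w] (by omega)
    have hyu : B.h y u = 0 := hyc 0
    have hyw : B.h y w = 0 := hyc 1
    obtain ⟨k, hk⟩ := h1 y hy
    have h4 := h2 y u k l hy hu hyu hk hl
    have h5 := h2 y w k m hy hw hyw hk hm
    rw [LinearMap.sub_apply, LinearMap.smul_apply, hm, ← h5, h4]
    exact sub_self _) x
  rw [LinearMap.sub_apply, LinearMap.smul_apply, sub_eq_zero] at h3
  exact h3

/-- Elements fixing all singular lines fix all singular points. -/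
lemma fix_of_lines [Finite K] [FiniteDimensional K V] (hn : 7 ≤ Module.finrank K V) {z : G}
    (h1 : ∀ u v, B.Ln u v → In (D.ρ z u) u v K) {u : V} (hu : B.Sg u) :
    ∃ l : K, D.ρ z u = l • u := by
  obtain ⟨w, v, v', hw, hv, hv', huw, hvv', huv, huv', hwv, hwv'⟩ := QF.exists_quad hn hu
  have e1 := B.symm u v
  have e2 := B.symm u v'
  have e3 := B.symm w v
  have e4 := B.symm w v'
  rw [huv] at e1
  rw [huv'] at e2
  rw [hwv] at e3
  rw [hwv'] at e4
  have hne : B.h u w ≠ 0 := by rw [huw]; exact one_ne_zero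
  obtain ⟨a, b, hab⟩ := h1 u v (QF.ln_of_h hu hv e1 hne e3)
  obtain ⟨c, d, hcd⟩ := h1 u v' (QF.ln_of_h hu hv' e2 hne e4)
  have h2 : B.h (D.ρ z u) v' = b := by
    rw [hab, B.add_left, B.smul_left, B.smul_left, huv', hvv']
    ring
  have h3 : B.h (D.ρ z u) v' = 0 := by
    rw [hcd, B.add_left, B.smul_left, B.smul_left, huv', hv'.hself]
    ring
  rw [h3] at h2
  exact ⟨a, by rw [hab, ← h2, zero_smul, add_zero]⟩

lemma center_scalar [Finite K] [FiniteDimensional K V] (hn : 7 ≤ Module.finrank K V) {z : G}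
    (hz : z ∈ Subgroup.center G) : ∃ l : K, ∀ x, D.ρ z x = l • x := by
  refine D.scalar_of_fix hn fun u hu => D.fix_of_lines hn (fun u v huv => ?_) hu
  have h2 := D.es_conj huv.1.2 huv.hvu z
  rw [← (Subgroup.mem_center_iff.1 hz), mul_inv_cancel_right] at h2
  have h3 : B.Ln (D.ρ z u) (D.ρ z v) := by
    refine ⟨D.sg z huv.1, D.sg z huv.2.1, by rw [D.hiso, huv.hvu], fun c hc => ?_⟩
    have h4 : D.ρ z (v - c • u) = 0 := by rw [map_sub, map_smul, hc, sub_self]
    by_contra h5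
    exact D.ne_zero z (sub_ne_zero.2 (huv.2.2.2 c)) h4
  exact (D.es_line h3 huv (a := 1) (by rw [one_smul, ← h2])).1

lemma center_of_scalar {z : G} {l : K} (hz : ∀ x, D.ρ z x = l • x) : z ∈ Subgroup.center G := by
  rw [Subgroup.mem_center_iff]
  intro g
  apply D.ext
  intro x
  rw [D.mul_apply, D.mul_apply, hz, hz, map_smul]

include D hp in
lemma center_p [Finite K] [FiniteDimensional K V] (hn : 7 ≤ Module.finrank K V) {z : G}
    (hz : z ∈ Subgroup.center G) {k : ℕ} (h : z ^ p ^ k = 1) : z = 1 := by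
  obtain ⟨l, hl⟩ := D.center_scalar hn hz
  obtain ⟨u, hu, -⟩ := B.sg_perp (k := 0) (fun i => i.elim0) (by omega)
  have h1 : ∀ n : ℕ, D.ρ (z ^ n) u = l ^ n • u := by
    intro n
    induction n with
    | zero => rw [pow_zero, pow_zero, D.one_apply, one_smul]
    | succ n ih => rw [pow_succ, D.mul_apply, hl, map_smul, ih, smul_smul, pow_succ']
  have h2 := h1 (p ^ k)
  rw [h, D.one_apply] at h2
  have h3 : l ^ p ^ k = 1 := by
    have h4 : (l ^ p ^ k - 1) • u = 0 := by rw [sub_smul, one_smul, ← h2, sub_self]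
    exact sub_eq_zero.1 ((smul_eq_zero.1 h4).resolve_right hu.1)
  have h5 : l = 1 := by
    have h6 : (l - 1) ^ p ^ k = 0 := by
      rw [sub_pow_char_pow, h3, one_pow, sub_self]
    exact sub_eq_zero.1 (pow_eq_zero_iff (pow_ne_zero k hp.out.ne_zero) |>.1 h6)
  apply D.ext
  intro x
  rw [hl, h5, one_smul, D.one_apply]

include D hp in
lemma mk_p_inj [Finite K] [FiniteDimensional K V] (hn : 7 ≤ Module.finrank K V) {s s' : G} {k : ℕ}
    (hs : s ^ p ^ k = 1) (hs' : s' ^ p ^ k = 1) (h : pj s = pj s') : s = s' := by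
  have h1 : s⁻¹ * s' ∈ Subgroup.center G := QuotientGroup.eq.1 h
  have h2 : s' = s * (s⁻¹ * s') := by group
  have h3 : (s⁻¹ * s') ^ p ^ k = 1 := by
    have h4 : Commute s (s⁻¹ * s') := (Subgroup.mem_center_iff.1 h1) s
    have h5 := h4.mul_pow (p ^ k)
    rw [← h2, hs, hs', one_mul] at h5
    exact h5.symm
  have h4 := D.center_p (p := p) hn h1 h3
  exact inv_mul_eq_one.1 h4

include D hp in
lemma comm_lift [Finite K] [FiniteDimensional K V] (hn : 7 ≤ Module.finrank K V) {g s : G} {k : ℕ}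
    (hs : s ^ p ^ k = 1) (h : pj g * pj s = pj s * pj g) : g * s * g⁻¹ = s := by
  refine D.mk_p_inj (p := p) hn (k := k) ?_ hs ?_
  · rw [conj_pow, hs, mul_one, mul_inv_cancel]
  · rw [map_mul, map_mul, map_inv, h, mul_inv_cancel_right]

lemma es_p1 {u v : V} (hu : B.Q u = 0) (hv : B.h v u = 0) : D.es u v ^ p ^ 1 = 1 := by
  rw [pow_one, D.es_pow_p hu hv]

/-- The root groups. -/
def R : Set (Subgroup (Pr G)) := {X | ∃ u v, B.Ln u v ∧ X = D.A u v}

lemma ln_map {u v : V} (h : B.Ln u v) (g : G) : B.Ln (D.ρ g u) (D.ρ g v) := by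
  refine ⟨D.sg g h.1, D.sg g h.2.1, by rw [D.hiso, h.hvu], fun c hc => ?_⟩
  have h4 : D.ρ g (v - c • u) = 0 := by rw [map_sub, map_smul, hc, sub_self]
  by_contra h5
  exact D.ne_zero g (sub_ne_zero.2 (h.2.2.2 c)) h4

lemma A_conj {u v : V} (h : B.Ln u v) (g : G) :
    im (MulAut.conj (pj g)) (D.A u v) = D.A (D.ρ g u) (D.ρ g v) := by
  have hav : ∀ a : K, B.h (a • v) u = 0 := fun a => by rw [B.smul_left, h.hvu, mul_zero]
  ext x
  constructor
  · rintro ⟨y, hy, rfl⟩
    obtain ⟨a, rfl⟩ := (D.mem_A' h).1 hy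
    refine (D.mem_A' (D.ln_map h g)).2 ⟨a, ?_⟩
    rw [← map_smul, ← D.es_conj h.1.2 (hav a)]
    rfl
  · intro hx
    obtain ⟨a, rfl⟩ := (D.mem_A' (D.ln_map h g)).1 hx
    refine ⟨pj (D.es u (a • v)), (D.mem_A' h).2 ⟨a, rfl⟩, ?_⟩
    rw [← map_smul, ← D.es_conj h.1.2 (hav a)]
    rfl

include hp in
/-- The line is determined by the root group. -/
lemma in_of_A [Finite K] [FiniteDimensional K V] (hn : 7 ≤ Module.finrank K V)
    {u v u' v' : V} (h : B.Ln u v) (h' : B.Ln u' v') (hA : pj (D.es u v) ∈ D.A u' v') :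
    In u u' v' K ∧ In v u' v' K := by
  obtain ⟨a, ha⟩ := (D.mem_A' h').1 hA
  exact D.es_line h h' (D.mk_p_inj (p := p) hn (k := 1) (D.es_p1 h.1.2 h.hvu)
    (D.es_p1 h'.1.2 (by rw [B.smul_left, h'.hvu, mul_zero])) ha)

end RepO

end Pool.Agent.BSpi.Orth
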