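import Pool.Agent.BSpi.Cls.Move

set_option autoImplicit false
set_option linter.unusedSimpArgs false
set_option linter.unusedVariables false
set_option linter.unusedSectionVars false

namespace Pool.Agent.BSpi.Orth

open Pool.Agent.BSpi.PSL Pool.Agent.BSpi.Cls

variable {S : Type} [Group S] {R : Set (Subgroup S)} {p : ℕ}

/-- Further root groups in the join. -/
def Col (R : Set (Subgroup S)) (X Y : Subgroup S) : Prop :=
  ∃ C ∈ R, C ≤ X ⊔ Y ∧ C ≠ X ∧ C ≠ Y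

/-- Commuting root groups without further root groups in the join. -/
def Pol (R : Set (Subgroup S)) (X Y : Subgroup S) : Prop :=
  Y ∈ R ∧ Cm X Y ∧ X ≠ Y ∧ ¬ Col R X Y

/-- The property distinguishing the two types of such pairs. -/
def Pi0 (p : ℕ) (R : Set (Subgroup S)) (X Y : Subgroup S) : Prop :=
  ∀ M1 M2 M3, Pol R X M1 → Pol R X M2 → Pol R X M3 → Opp p M1 Y → ¬ Opp p M2 Y →
    ¬ Opp p M2 M1 → Opp p M3 M2 → ¬ Opp p M3 Y

/-- Pairs of the first type. -/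
def T2 (p : ℕ) (R : Set (Subgroup S)) (X Y : Subgroup S) : Prop :=
  X ∈ R ∧ Pol R X Y ∧ Pi0 p R X Y

/-- Meeting pairs. -/
def Mt (p : ℕ) (R : Set (Subgroup S)) (X Y : Subgroup S) : Prop :=
  X ∈ R ∧ Y ∈ R ∧ (X = Y ∨ (Cm X Y ∧ (Col R X Y ∨ T2 p R X Y)))

/-- Automorphisms preserving `R` together with their inverse. -/
def PP (R : Set (Subgroup S)) (f : MulAut S) : Prop := Pres R f ∧ Pres R f⁻¹

lemma PP.inv {f : MulAut S} (h : PP R f) : PP R f⁻¹ := ⟨h.2, by rw [inv_inv]; exact h.1⟩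

lemma im_inv (f : MulAut S) (X : Subgroup S) : im f (im f⁻¹ X) = X := by
  rw [← im_mul, mul_inv_cancel, im_one]

lemma im_inv' (f : MulAut S) (X : Subgroup S) : im f⁻¹ (im f X) = X := by
  rw [← im_mul, inv_mul_cancel, im_one]

lemma im_mono (f : MulAut S) {X Y : Subgroup S} (h : X ≤ Y) : im f X ≤ im f Y :=
  Subgroup.map_mono h

lemma Col.im {f : MulAut S} (hf : PP R f) {X Y : Subgroup S} (h : Col R X Y) :
    Col R (im f X) (im f Y) := by
  obtain ⟨C, hC, h1, h2, h3⟩ := h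
  refine ⟨Cls.im f C, hf.1 C hC, ?_, fun e => h2 (im_injective f e), fun e => h3 (im_injective f e)⟩
  rw [← im_sup]
  exact im_mono f h1

lemma Col.im_iff {f : MulAut S} (hf : PP R f) {X Y : Subgroup S} :
    Col R (Cls.im f X) (Cls.im f Y) ↔ Col R X Y := by
  refine ⟨fun h => ?_, fun h => h.im hf⟩
  have h1 := h.im hf.inv
  rwa [im_inv', im_inv'] at h1

lemma Pol.im {f : MulAut S} (hf : PP R f) {X Y : Subgroup S} (h : Pol R X Y) :
    Pol R (im f X) (im f Y) := by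
  obtain ⟨h1, h2, h3, h4⟩ := h
  exact ⟨hf.1 Y h1, h2.im f, fun e => h3 (im_injective f e), fun e => h4 ((Col.im_iff hf).1 e)⟩

lemma Pol.im' {f : MulAut S} (hf : PP R f) {X Y : Subgroup S} (h : Pol R (Cls.im f X) Y) :
    Pol R X (Cls.im f⁻¹ Y) := by
  have h1 := h.im hf.inv
  rwa [im_inv'] at h1

lemma Opp.im' {f : MulAut S} {X Y : Subgroup S} (h : Opp p X Y) :
    Opp p (Cls.im f X) (Cls.im f Y) := (opp_im f).2 h

lemma Pi0.im {f : MulAut S} (hf : PP R f) {X Y : Subgroup S} (h : Pi0 p R X Y) :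
    Pi0 p R (im f X) (im f Y) := by
  intro M1 M2 M3 h1 h2 h3 h4 h5 h6 h7 h8
  have key : ∀ M N : Subgroup S, Opp p M N ↔ Opp p (Cls.im f⁻¹ M) (Cls.im f⁻¹ N) :=
    fun M N => (opp_im f⁻¹).symm
  rw [key, im_inv'] at h4 h5 h8
  rw [key] at h6 h7
  exact h _ _ _ (h1.im' hf) (h2.im' hf) (h3.im' hf) h4 h5 h6 h7 h8

lemma T2.im {f : MulAut S} (hf : PP R f) {X Y : Subgroup S} (h : T2 p R X Y) :
    T2 p R (im f X) (im f Y) := ⟨hf.1 X h.1, h.2.1.im hf, h.2.2.im hf⟩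

lemma Mt.im {f : MulAut S} (hf : PP R f) {X Y : Subgroup S} (h : Mt p R X Y) :
    Mt p R (im f X) (im f Y) := by
  obtain ⟨h1, h2, h3⟩ := h
  refine ⟨hf.1 X h1, hf.1 Y h2, ?_⟩
  rcases h3 with rfl | ⟨h3, h4 | h4⟩
  · exact Or.inl rfl
  · exact Or.inr ⟨h3.im f, Or.inl (h4.im hf)⟩
  · exact Or.inr ⟨h3.im f, Or.inr (h4.im hf)⟩

lemma Mt.im_iff {f : MulAut S} (hf : PP R f) {X Y : Subgroup S} :
    Mt p R (Cls.im f X) (Cls.im f Y) ↔ Mt p R X Y := by
  refine ⟨fun h => ?_, fun h => h.im hf⟩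
  have h1 := h.im hf.inv
  rwa [im_inv', im_inv'] at h1

end Pool.Agent.BSpi.Orth
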