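import Pool.Agent.BSpi.Orth.Cnt
import Pool.Agent.BSpi.Orth.Rel

set_option autoImplicit false
set_option linter.unusedSimpArgs false
set_option linter.unusedVariables false
set_option linter.unusedSectionVars false

open Matrix Matrix.SpecialLinearGroup
open scoped MatrixGroups

namespace Pool.Agent.BSpi.Orth

open Pool.Agent.BSpi.PSL Pool.Agent.BSpi.Cls

variable {K V : Type} [Field K] [AddCommGroup V] [Module K V] {B : QF K V}
variable {p : ℕ} [hp : Fact p.Prime] [CharP K p] {G : Type} [Group G]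

/-- Orthogonal disjoint lines. -/
def Four (B : QF K V) (u v s t : V) : Prop := B.Ln u v ∧ B.Ln s t ∧ B.h s u = 0 ∧ B.h s v = 0 ∧
  B.h t u = 0 ∧ B.h t v = 0 ∧ LinearIndependent K ![u, v, s, t]

lemma Four.zero {u v s t : V} (h : Four B u v s t) {a b c d : K}
    (h0 : a • u + b • v + c • s + d • t = 0) : a = 0 ∧ b = 0 ∧ c = 0 ∧ d = 0 := by
  have h1 := h.2.2.2.2.2.2
  rw [Fintype.linearIndependent_iff] at h1
  have h2 := h1 ![a, b, c, d] (by
    rw [Fin.sum_univ_four]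
    exact h0)
  exact ⟨h2 0, h2 1, h2 2, h2 3⟩

namespace RepO

variable (D : RepO B G)

/-- Meeting lines. -/
def Mv (X Y : Subgroup (Pr G)) : Prop :=
  ∃ x y y', B.Ln x y ∧ B.Ln x y' ∧ X = D.A x y ∧ Y = D.A x y'

/-- Meeting lines which are not orthogonal. -/
def C2 (X Y : Subgroup (Pr G)) : Prop :=
  ∃ x y y', B.Ln x y ∧ B.Ln x y' ∧ B.h y y' ≠ 0 ∧ X = D.A x y ∧ Y = D.A x y'

/-- Orthogonal disjoint lines. -/
def C3 (X Y : Subgroup (Pr G)) : Prop :=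
  ∃ u v s t, Four B u v s t ∧ X = D.A u v ∧ Y = D.A s t

lemma mv_of_in {u v s t w : V} (h : B.Ln u v) (h' : B.Ln s t) (hw : w ≠ 0) (h1 : In w u v K)
    (h2 : In w s t K) : D.Mv (D.A u v) (D.A s t) := by
  have key : ∀ u v, B.Ln u v → In w u v K → ∃ y, B.Ln w y ∧ D.A u v = D.A w y := by
    rintro u v h ⟨α, β, rfl⟩
    have hne : α ≠ 0 ∨ β ≠ 0 := by
      by_contra hcon
      push Not at hcon
      apply hw
      rw [hcon.1, hcon.2]
      module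
    obtain ⟨y, hy, hyin⟩ := h.base hne
    exact ⟨y, hy, (D.A_eq h hy ⟨α, β, rfl⟩ hyin).symm⟩
  obtain ⟨y, hy, hA⟩ := key u v h h1
  obtain ⟨y', hy', hA'⟩ := key s t h' h2
  exact ⟨w, y, y', hy, hy', hA, hA'⟩

include hp in
/-- Commuting root groups. -/
lemma cm_cases [Finite K] [FiniteDimensional K V] (hn : 7 ≤ Module.finrank K V)
    {X Y : Subgroup (Pr G)} (hX : X ∈ D.R) (hY : Y ∈ D.R) (hc : Cm X Y) :
    D.Mv X Y ∨ D.C3 X Y := by
  obtain ⟨u, v, h, rfl⟩ := hX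
  obtain ⟨s, t, h', rfl⟩ := hY
  have h1 : pj (D.es u v) * pj (D.es s t) = pj (D.es s t) * pj (D.es u v) :=
    hc _ ((D.mem_A' h).2 ⟨1, by rw [one_smul]⟩) _ ((D.mem_A' h').2 ⟨1, by rw [one_smul]⟩)
  have h2 := D.comm_lift (p := p) hn (D.es_p1 h'.1.2 h'.hvu) h1
  rw [D.es_conj h'.1.2 h'.hvu] at h2
  obtain ⟨h3, h4⟩ := D.es_line (D.ln_map h' (D.es u v)) h' (a := 1) (by rw [one_smul, h2])
  have hE : ∀ x, D.ρ (D.es u v) x - x = (-B.h x v) • u + B.h x u • v := by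
    intro x
    rw [D.es_apply h.1.2 h.hvu, h.2.1.2]
    module
  have key : ∀ x, In x s t K → In (D.ρ (D.es u v) x) s t K →
      D.Mv (D.A u v) (D.A s t) ∨ (B.h x u = 0 ∧ B.h x v = 0) := by
    intro x hx hx'
    by_cases h0 : D.ρ (D.es u v) x - x = 0
    · right
      rw [hE] at h0
      have := h.zero h0
      exact ⟨this.2, neg_eq_zero.1 this.1⟩
    · left
      exact D.mv_of_in h h' h0 ⟨_, _, hE x⟩ (hx'.sub hx)
  rcases key s (In.left s t) h3 with h5 | h5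
  · exact Or.inl h5
  rcases key t (In.right s t) h4 with h6 | h6
  · exact Or.inl h6
  by_cases h7 : LinearIndependent K ![u, v, s, t]
  · exact Or.inr ⟨u, v, s, t, ⟨h, h', h5.1, h5.2, h6.1, h6.2, h7⟩, rfl, rfl⟩
  · left
    rw [Fintype.linearIndependent_iff] at h7
    push Not at h7
    obtain ⟨g, hg, i, hi⟩ := h7
    rw [Fin.sum_univ_four] at hg
    have hg' : g 0 • u + g 1 • v + g 2 • s + g 3 • t = 0 := hg
    refine D.mv_of_in h h' (w := g 0 • u + g 1 • v) ?_ ⟨_, _, rfl⟩ ⟨-g 2, -g 3, ?_⟩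
    · intro h0
      have e1 := h.zero h0
      rw [h0, zero_add] at hg'
      have e2 := h'.zero hg'
      apply hi
      fin_cases i
      · exact e1.1
      · exact e1.2
      · exact e2.1
      · exact e2.2
    · have e1 : g 0 • u + g 1 • v = (g 0 • u + g 1 • v + g 2 • s + g 3 • t) +
        ((-g 2) • s + (-g 3) • t) := by module
      rw [e1, hg', zero_add]

lemma Mv.cm {X Y : Subgroup (Pr G)} (h : D.Mv X Y) : Cm X Y := by
  obtain ⟨x, y, y', h1, h2, rfl, rfl⟩ := h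
  intro a ha b hb
  obtain ⟨a, rfl⟩ := (D.mem_A' h1).1 ha
  obtain ⟨b, rfl⟩ := (D.mem_A' h2).1 hb
  have e1 : B.h (a • y) x = 0 := by rw [B.smul_left, h1.hvu, mul_zero]
  have e2 : B.h (b • y') x = 0 := by rw [B.smul_left, h2.hvu, mul_zero]
  rw [← map_mul, ← map_mul, D.es_mul h1.1.2 e1 e2, D.es_mul h1.1.2 e2 e1, add_comm]

lemma C2.mv {X Y : Subgroup (Pr G)} (h : D.C2 X Y) : D.Mv X Y := by
  obtain ⟨x, y, y', h1, h2, -, h3, h4⟩ := h
  exact ⟨x, y, y', h1, h2, h3, h4⟩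

lemma C3.cm {X Y : Subgroup (Pr G)} (h : D.C3 X Y) : Cm X Y := by
  obtain ⟨u, v, s, t, ⟨h1, h2, e1, e2, e3, e4, -⟩, rfl, rfl⟩ := h
  intro a ha b hb
  obtain ⟨a, rfl⟩ := (D.mem_A' h1).1 ha
  obtain ⟨b, rfl⟩ := (D.mem_A' h2).1 hb
  have f1 : B.h (a • v) u = 0 := by rw [B.smul_left, h1.hvu, mul_zero]
  have f2 : B.h (b • t) s = 0 := by rw [B.smul_left, h2.hvu, mul_zero]
  rw [← map_mul, ← map_mul]
  congr 1
  have h3 := D.es_conj h2.1.2 f2 (D.es u (a • v))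
  have h4 : ∀ x, B.h x u = 0 → B.h x v = 0 → D.ρ (D.es u (a • v)) x = x := by
    intro x hx hx'
    rw [D.es_apply h1.1.2 f1, hx, B.smul_right, hx']
    module
  rw [h4 s e1 e2, h4 (b • t) (by rw [B.smul_left, e3, mul_zero])
    (by rw [B.smul_left, e4, mul_zero])] at h3
  exact mul_inv_eq_iff_eq_mul.1 h3

lemma Mv.mem {X Y : Subgroup (Pr G)} (h : D.Mv X Y) : X ∈ D.R ∧ Y ∈ D.R := by
  obtain ⟨x, y, y', h1, h2, rfl, rfl⟩ := h
  exact ⟨⟨_, _, h1, rfl⟩, ⟨_, _, h2, rfl⟩⟩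

lemma C3.mem {X Y : Subgroup (Pr G)} (h : D.C3 X Y) : X ∈ D.R ∧ Y ∈ D.R := by
  obtain ⟨u, v, s, t, h1, rfl, rfl⟩ := h
  exact ⟨⟨_, _, h1.1, rfl⟩, ⟨_, _, h1.2.1, rfl⟩⟩

/-- Joins of commuting root groups. -/
lemma mem_sup_cm {X Y : Subgroup (Pr G)} (h : Cm X Y) {z : Pr G} (hz : z ∈ X ⊔ Y) :
    ∃ x ∈ X, ∃ y ∈ Y, z = x * y := by
  have h1 : X ⊔ Y ≤
      { carrier := {z | ∃ x ∈ X, ∃ y ∈ Y, z = x * y}
        mul_mem' := by
          rintro _ _ ⟨x, hx, y, hy, rfl⟩ ⟨x', hx', y', hy', rfl⟩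
          refine ⟨x * x', mul_mem hx hx', y * y', mul_mem hy hy', ?_⟩
          have := h x' hx' y hy
          calc x * y * (x' * y') = x * (y * x') * y' := by group
            _ = x * (x' * y) * y' := by rw [this]
            _ = x * x' * (y * y') := by group
        one_mem' := ⟨1, one_mem _, 1, one_mem _, by rw [mul_one]⟩
        inv_mem' := by
          rintro _ ⟨x, hx, y, hy, rfl⟩
          refine ⟨x⁻¹, inv_mem hx, y⁻¹, inv_mem hy, ?_⟩
          rw [_root_.mul_inv_rev]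
          exact (h _ (inv_mem hx) _ (inv_mem hy)).symm : Subgroup (Pr G) } := by
    rw [sup_le_iff]
    exact ⟨fun x hx => ⟨x, hx, 1, one_mem _, by rw [mul_one]⟩,
      fun y hy => ⟨1, one_mem _, y, hy, by rw [one_mul]⟩⟩
  exact h1 hz

include hp in
lemma C2.not_col [Finite K] [FiniteDimensional K V] (hn : 7 ≤ Module.finrank K V)
    {X Y : Subgroup (Pr G)} (h : D.C2 X Y) : ¬ Col D.R X Y := by
  rintro ⟨C, ⟨u, v, huv, rfl⟩, h1, h2, h3⟩
  have hcm := Mv.cm D (C2.mv D h)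
  obtain ⟨x, y, y', hy, hy', hyy, rfl, rfl⟩ := h
  obtain ⟨_, hx1, _, hx2, hx3⟩ := mem_sup_cm hcm
    (h1 ((D.mem_A' huv).2 ⟨1, by rw [one_smul]⟩ : pj (D.es u v) ∈ D.A u v))
  obtain ⟨a, rfl⟩ := (D.mem_A' hy).1 hx1
  obtain ⟨b, rfl⟩ := (D.mem_A' hy').1 hx2
  have e1 : B.h (a • y) x = 0 := by rw [B.smul_left, hy.hvu, mul_zero]
  have e2 : B.h (b • y') x = 0 := by rw [B.smul_left, hy'.hvu, mul_zero]
  rw [← map_mul, D.es_mul hy.1.2 e1 e2] at hx3
  have e3 : B.h (a • y + b • y') x = 0 := by rw [B.add_left, e1, e2, add_zero]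
  have h4 := D.mk_p_inj (p := p) hn (D.es_p1 huv.1.2 huv.hvu) (D.es_p1 hy.1.2 e3) hx3
  obtain ⟨z, hz, hxz⟩ := QF.partner hy.1
  have hzx : B.h z x = 1 := by rw [B.symm x z, hxz]
  have h5 : B.Q (D.ρ (D.es u v) z - z) = 0 := by
    rw [D.es_apply huv.1.2 huv.hvu, huv.2.1.2]
    exact huv.q ⟨-B.h z v, B.h z u, by module⟩
  rw [h4, D.es_apply hy.1.2 e3, hzx] at h5
  have h6 : z + (1 : K) • (a • y + b • y') - B.h z (a • y + b • y') • x -
      (B.Q (a • y + b • y') * 1) • x - z = (a • y + b • y') -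
      (B.h z (a • y + b • y') + B.Q (a • y + b • y')) • x := by module
  rw [h6, B.qsub, B.qsmul, hy.1.2, B.smul_right, e3, B.qadd, B.qsmul, B.qsmul, hy.2.1.2, hy'.2.1.2,
    B.smul_left, B.smul_right] at h5
  have h7 : a * (b * B.h y y') = 0 := by linear_combination h5
  rcases mul_eq_zero.1 h7 with ha | hb
  · -- in the second root group
    have hb0 : b ≠ 0 := by
      rintro rfl
      rw [ha, zero_smul, zero_smul, add_zero, D.es_zero hy.1.2] at h4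
      exact D.pj_es_ne (p := p) hn huv (by rw [h4, map_one])
    have h8 : pj (D.es u v) ∈ D.A x y' := (D.mem_A' hy').2 ⟨b, by rw [h4, ha, zero_smul, zero_add]⟩
    obtain ⟨h9, h10⟩ := D.in_of_A (p := p) hn huv hy' h8
    exact h3 (D.A_eq hy' huv h9 h10)
  · rcases mul_eq_zero.1 hb with hb | hb
    · have h8 : pj (D.es u v) ∈ D.A x y := (D.mem_A' hy).2 ⟨a, by rw [h4, hb, zero_smul, add_zero]⟩
      obtain ⟨h9, h10⟩ := D.in_of_A (p := p) hn huv hy h8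
      exact h2 (D.A_eq hy huv h9 h10)
    · exact hyy hb

include hp in
lemma C3.not_col [Finite K] [FiniteDimensional K V] (hn : 7 ≤ Module.finrank K V)
    {X Y : Subgroup (Pr G)} (h : D.C3 X Y) : ¬ Col D.R X Y := by
  rintro ⟨C, ⟨u', v', huv, rfl⟩, h1, h2, h3⟩
  have hcm := C3.cm D h
  obtain ⟨u, v, s, t, hF, rfl, rfl⟩ := h
  have hL := hF.1
  have hM := hF.2.1
  obtain ⟨_, hx1, _, hx2, hx3⟩ := mem_sup_cm hcm
    (h1 ((D.mem_A' huv).2 ⟨1, by rw [one_smul]⟩ : pj (D.es u' v') ∈ D.A u' v'))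
  obtain ⟨a, rfl⟩ := (D.mem_A' hL).1 hx1
  obtain ⟨b, rfl⟩ := (D.mem_A' hM).1 hx2
  have f1 : B.h (a • v) u = 0 := by rw [B.smul_left, hL.hvu, mul_zero]
  have f2 : B.h (b • t) s = 0 := by rw [B.smul_left, hM.hvu, mul_zero]
  -- the case of one trivial factor
  by_cases ha : a = 0
  · subst ha
    rw [zero_smul, D.es_zero hL.1.2, map_one, one_mul] at hx3
    obtain ⟨h9, h10⟩ := D.in_of_A (p := p) hn huv hM ((D.mem_A' hM).2 ⟨b, hx3⟩)
    exact h3 (D.A_eq hM huv h9 h10)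
  by_cases hb : b = 0
  · subst hb
    rw [zero_smul, D.es_zero hM.1.2, map_one, mul_one] at hx3
    obtain ⟨h9, h10⟩ := D.in_of_A (p := p) hn huv hL ((D.mem_A' hL).2 ⟨a, hx3⟩)
    exact h2 (D.A_eq hL huv h9 h10)
  have hpp : (D.es u (a • v) * D.es s (b • t)) ^ p ^ 1 = 1 := by
    have h4 : Commute (D.es u (a • v)) (D.es s (b • t)) := by
      have h5 := hcm _ ((D.mem_A' hL).2 ⟨a, rfl⟩) _ ((D.mem_A' hM).2 ⟨b, rfl⟩)
      exact mul_inv_eq_iff_eq_mul.1 (D.comm_lift (p := p) hn (D.es_p1 hM.1.2 f2) h5)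
    rw [h4.mul_pow, D.es_p1 hL.1.2 f1, D.es_p1 hM.1.2 f2, one_mul]
  rw [← map_mul] at hx3
  have h4 := D.mk_p_inj (p := p) hn (D.es_p1 huv.1.2 huv.hvu) hpp hx3
  -- evaluate
  have hg : ∀ z, D.ρ (D.es u' v') z - z = (-(a * B.h z v)) • u + (a * B.h z u) • v +
      (-(b * B.h z t)) • s + (b * B.h z s) • t := by
    intro z
    obtain ⟨-, -, e1, e2, e3, e4, -⟩ := hF
    rw [h4, D.mul_apply, D.es_apply hM.1.2 f2, D.es_apply hL.1.2 f1]
    simp only [B.add_left, B.sub_left, B.smul_left, B.smul_right, e1, e2, e3, e4, B.qsmul,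
      hL.2.1.2, hM.2.1.2]
    module
  have hin : ∀ z, In (D.ρ (D.es u' v') z - z) u' v' K := by
    intro z
    refine ⟨-B.h z v', B.h z u', ?_⟩
    rw [D.es_apply huv.1.2 huv.hvu, huv.2.1.2]
    module
  have hval : ∀ c : Fin 4 → K, ∃ z, B.h z u = c 0 ∧ B.h z v = c 1 ∧ B.h z s = c 2 ∧
      B.h z t = c 3 := by
    intro c
    obtain ⟨z, hz⟩ := B.vals _ hF.2.2.2.2.2.2 c
    exact ⟨z, hz 0, hz 1, hz 2, hz 3⟩
  -- the vectors `u`, `v`, `s` lie in the line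
  have hu : In u u' v' K := by
    obtain ⟨z, z1, z2, z3, z4⟩ := hval ![0, -a⁻¹, 0, 0]
    have h5 := hin z
    rw [hg, z1, z2, z3, z4] at h5
    have h6 : u = (-(a * ![0, -a⁻¹, (0 : K), 0] 1)) • u + (a * ![0, -a⁻¹, (0 : K), 0] 0) • v +
      (-(b * ![0, -a⁻¹, (0 : K), 0] 3)) • s + (b * ![0, -a⁻¹, (0 : K), 0] 2) • t := by
      simp [ha]
    rw [h6]
    exact h5
  have hv : In v u' v' K := by
    obtain ⟨z, z1, z2, z3, z4⟩ := hval ![a⁻¹, 0, 0, 0]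
    have h5 := hin z
    rw [hg, z1, z2, z3, z4] at h5
    have h6 : v = (-(a * ![a⁻¹, 0, (0 : K), 0] 1)) • u + (a * ![a⁻¹, 0, (0 : K), 0] 0) • v +
      (-(b * ![a⁻¹, 0, (0 : K), 0] 3)) • s + (b * ![a⁻¹, 0, (0 : K), 0] 2) • t := by
      simp [ha]
    rw [h6]
    exact h5
  have hs : In s u' v' K := by
    obtain ⟨z, z1, z2, z3, z4⟩ := hval ![0, 0, 0, -b⁻¹]
    have h5 := hin z
    rw [hg, z1, z2, z3, z4] at h5
    have h6 : s = (-(a * ![0, 0, (0 : K), -b⁻¹] 1)) • u + (a * ![0, 0, (0 : K), -b⁻¹] 0) • v +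
      (-(b * ![0, 0, (0 : K), -b⁻¹] 3)) • s + (b * ![0, 0, (0 : K), -b⁻¹] 2) • t := by
      simp [hb]
    rw [h6]
    exact h5
  obtain ⟨h7, h8⟩ := hL.in_of hu hv
  obtain ⟨c, d, hcd⟩ := hs.trans h7 h8
  have h9 := hF.zero (a := c) (b := d) (c := -1) (d := 0) (by rw [hcd]; module)
  exact one_ne_zero (neg_eq_zero.1 h9.2.2.1)

include hp in
lemma Mv.col [Finite K] [FiniteDimensional K V] (hn : 7 ≤ Module.finrank K V)
    {x y y' : V} (h : B.Ln x y) (h' : B.Ln x y') (hyy : B.h y y' = 0)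
    (hne : D.A x y ≠ D.A x y') : Col D.R (D.A x y) (D.A x y') := by
  have hnin : ¬ In y' x y K := fun h0 => hne (D.A_eq h h' (In.left x y) h0).symm
  have hnin' : ¬ In y x y' K := fun h0 => hne (D.A_eq h' h (In.left x y') h0)
  have hin1 : In (y + y') x y K → In y' x y K := by
    intro h0
    have := h0.sub (In.right x y)
    rwa [add_sub_cancel_left] at this
  have hL : B.Ln x (y + y') := by
    refine ⟨h.1, ⟨fun h0 => hnin ?_, ?_⟩, ?_, fun c hc => hnin (hin1 ⟨c, 0, by rw [hc]; module⟩)⟩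
    · exact hin1 ⟨0, 0, by rw [h0]; module⟩
    · rw [B.qadd, h.2.1.2, h'.2.1.2, hyy]
      ring
    · rw [B.add_left, h.hvu, h'.hvu, add_zero]
  refine ⟨D.A x (y + y'), ⟨_, _, hL, rfl⟩, ?_, ?_, ?_⟩
  · intro z hz
    obtain ⟨a, rfl⟩ := (D.mem_A' hL).1 hz
    rw [smul_add, ← D.es_mul h.1.2 (by rw [B.smul_left, h.hvu, mul_zero])
      (by rw [B.smul_left, h'.hvu, mul_zero]), map_mul]
    exact mul_mem (Subgroup.mem_sup_left ((D.mem_A' h).2 ⟨a, rfl⟩))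
      (Subgroup.mem_sup_right ((D.mem_A' h').2 ⟨a, rfl⟩))
  · intro he
    have h2 : pj (D.es x (y + y')) ∈ D.A x y := by
      rw [← he]
      exact (D.mem_A' hL).2 ⟨1, by rw [one_smul]⟩
    exact hnin (hin1 (D.in_of_A (p := p) hn hL h h2).2)
  · intro he
    have h2 : pj (D.es x (y + y')) ∈ D.A x y' := by
      rw [← he]
      exact (D.mem_A' hL).2 ⟨1, by rw [one_smul]⟩
    have h3 := (D.in_of_A (p := p) hn hL h' h2).2.sub (In.right x y')
    rw [add_sub_cancel_right] at h3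
    exact hnin' h3

include hp in
lemma C2.pol [Finite K] [FiniteDimensional K V] (hn : 7 ≤ Module.finrank K V)
    {X Y : Subgroup (Pr G)} (h : D.C2 X Y) : Pol D.R X Y := by
  refine ⟨(Mv.mem D (C2.mv D h)).2, Mv.cm D (C2.mv D h), ?_, C2.not_col (p := p) D hn h⟩
  obtain ⟨x, y, y', h1, h2, h3, rfl, rfl⟩ := h
  intro he
  have h4 : pj (D.es x y') ∈ D.A x y := by
    rw [he]
    exact (D.mem_A' h2).2 ⟨1, by rw [one_smul]⟩
  exact h3 (h1.hh (In.right x y) (D.in_of_A (p := p) hn h2 h1 h4).2)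

include hp in
lemma C3.pol [Finite K] [FiniteDimensional K V] (hn : 7 ≤ Module.finrank K V)
    {X Y : Subgroup (Pr G)} (h : D.C3 X Y) : Pol D.R X Y := by
  refine ⟨(C3.mem D h).2, C3.cm D h, ?_, C3.not_col (p := p) D hn h⟩
  obtain ⟨u, v, s, t, hF, rfl, rfl⟩ := h
  intro he
  have h4 : pj (D.es s t) ∈ D.A u v := by
    rw [he]
    exact (D.mem_A' hF.2.1).2 ⟨1, by rw [one_smul]⟩
  obtain ⟨a, b, hab⟩ := (D.in_of_A (p := p) hn hF.2.1 hF.1 h4).1
  have h9 := hF.zero (a := a) (b := b) (c := -1) (d := 0) (by rw [hab]; module)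
  exact one_ne_zero (neg_eq_zero.1 h9.2.2.1)

include hp in
lemma pol_cases [Finite K] [FiniteDimensional K V] (hn : 7 ≤ Module.finrank K V)
    {X Y : Subgroup (Pr G)} (hX : X ∈ D.R) (h : Pol D.R X Y) : D.C2 X Y ∨ D.C3 X Y := by
  obtain ⟨hY, hc, hne, hcol⟩ := h
  rcases D.cm_cases (p := p) hn hX hY hc with h1 | h1
  · left
    obtain ⟨x, y, y', h1, h2, rfl, rfl⟩ := h1
    refine ⟨x, y, y', h1, h2, fun h3 => hcol ?_, rfl, rfl⟩
    exact Mv.col (p := p) D hn h1 h2 h3 hne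
  · exact Or.inr h1

end RepO

end Pool.Agent.BSpi.Orth
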