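import Pool.Agent.BSpi.Orth.Rel2

set_option autoImplicit false
set_option linter.unusedSimpArgs false
set_option linter.unusedVariables false
set_option linter.unusedSectionVars false

open Matrix Matrix.SpecialLinearGroup
open scoped MatrixGroups

namespace Pool.Agent.BSpi.Orth

open Pool.Agent.BSpi.PSL Pool.Agent.BSpi.Cls

variable {K V : Type} [Field K] [AddCommGroup V] [Module K V] {B : QF K V}
variable {p : ℕ} [hp : Fact p.Prime] [CharP K p] {G : Type} [Group G]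

/-- There are no orthogonal disjoint lines. -/
def NoFour (B : QF K V) : Prop := ∀ u v s t, ¬ Four B u v s t

lemma res4 {u v s t : V} (H : Dual B u v s t) (z : V) :
    ∃ y ∈ B.perp ![u, v, s, t], ∀ x ∈ B.perp ![u, v, s, t], B.h x y = B.h x z := by
  refine ⟨z - B.h z t • u + B.h z s • v + B.h z v • s - B.h z u • t, ?_, fun x hx => ?_⟩
  · intro i
    fin_cases i
    · change B.h _ u = 0
      simp only [B.add_left, B.sub_left, B.smul_left, H.L.1.hself, H.L.2.1.hself, H.M.1.hself,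
        H.M.2.1.hself, H.L.huv, H.L.hvu, H.M.huv, H.M.hvu, H.su, H.sv, H.tu, H.tv, H.us, H.vs, H.ut,
        H.vt]
      ring
    · change B.h _ v = 0
      simp only [B.add_left, B.sub_left, B.smul_left, H.L.1.hself, H.L.2.1.hself, H.M.1.hself,
        H.M.2.1.hself, H.L.huv, H.L.hvu, H.M.huv, H.M.hvu, H.su, H.sv, H.tu, H.tv, H.us, H.vs, H.ut,
        H.vt]
      ring
    · change B.h _ s = 0
      simp only [B.add_left, B.sub_left, B.smul_left, H.L.1.hself, H.L.2.1.hself, H.M.1.hself,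
        H.M.2.1.hself, H.L.huv, H.L.hvu, H.M.huv, H.M.hvu, H.su, H.sv, H.tu, H.tv, H.us, H.vs, H.ut,
        H.vt]
      ring
    · change B.h _ t = 0
      simp only [B.add_left, B.sub_left, B.smul_left, H.L.1.hself, H.L.2.1.hself, H.M.1.hself,
        H.M.2.1.hself, H.L.huv, H.L.hvu, H.M.huv, H.M.hvu, H.su, H.sv, H.tu, H.tv, H.us, H.vs, H.ut,
        H.vt]
      ring
  · have h1 : B.h x u = 0 := hx 0
    have h2 : B.h x v = 0 := hx 1
    have h3 : B.h x s = 0 := hx 2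
    have h4 : B.h x t = 0 := hx 3
    simp only [B.add_right, B.sub_right, B.smul_right, h1, h2, h3, h4]
    ring

namespace RepO

variable (D : RepO B G)

lemma not_opp_pt [Finite K] [FiniteDimensional K V] (hn : 7 ≤ Module.finrank K V)
    {u v s t w : V} (h : B.Ln u v) (h' : B.Ln s t) (hw : w ≠ 0) (hin : In w u v K)
    (h1 : B.h w s = 0) (h2 : B.h w t = 0) : ¬ Opp p (D.A u v) (D.A s t) := by
  obtain ⟨α, β, rfl⟩ := hin
  have hne : α ≠ 0 ∨ β ≠ 0 := by
    by_contra hcon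
    push Not at hcon
    apply hw
    rw [hcon.1, hcon.2]
    module
  obtain ⟨y, hy, hyin⟩ := h.base hne
  rw [← D.A_eq h hy ⟨α, β, rfl⟩ hyin]
  refine D.not_opp hn hy h' ?_
  rw [QF.dl, h1, h2]
  ring

lemma same_pt [Finite K] [FiniteDimensional K V] (hn : 7 ≤ Module.finrank K V)
    {x1 z1 x y' : V} (h : B.Ln x1 z1) (h' : B.Ln x y') {c : K} (hc : x1 = c • x) :
    ¬ Opp p (D.A x1 z1) (D.A x y') := by
  refine D.not_opp_pt hn h h' h.1.1 (In.left x1 z1) ?_ ?_
  · rw [hc, B.smul_left, h'.1.hself, mul_zero]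
  · rw [hc, B.smul_left, h'.huv, mul_zero]

lemma C3_not_opp [Finite K] [FiniteDimensional K V] (hn : 7 ≤ Module.finrank K V)
    {M : Subgroup (Pr G)} {x y y' : V} (h : B.Ln x y) (h' : B.Ln x y') (hM : D.C3 (D.A x y) M) :
    ¬ Opp p (D.A x y') M := by
  obtain ⟨u, v, s, t, ⟨h1, h2, e1, e2, e3, e4, -⟩, h3, rfl⟩ := hM
  have h4 : pj (D.es x y) ∈ D.A u v := by
    rw [← h3]
    exact (D.mem_A' h).2 ⟨1, by rw [one_smul]⟩
  have h5 := (D.in_of_A (p := p) hn h h1 h4).1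
  exact D.not_opp_pt hn h' h2 h.1.1 (In.left x y') (h5.h0 (by rw [B.symm, e1])
    (by rw [B.symm, e2])) (h5.h0 (by rw [B.symm, e3]) (by rw [B.symm, e4]))

lemma C2_opp [Finite K] [FiniteDimensional K V] (hn : 7 ≤ Module.finrank K V)
    {x1 y1 z1 x2 y2 z2 : V} (h1 : B.Ln x1 y1) (h1' : B.Ln x1 z1) (hyz1 : B.h y1 z1 ≠ 0)
    (h2 : B.Ln x2 y2) (h2' : B.Ln x2 z2) (hyz2 : B.h y2 z2 ≠ 0) (hA : D.A x1 y1 = D.A x2 y2)
    (hne : ∀ c : K, x2 ≠ c • x1) : Opp p (D.A x1 z1) (D.A x2 z2) := by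
  have h3 : pj (D.es x1 y1) ∈ D.A x2 y2 := by
    rw [← hA]
    exact (D.mem_A' h1).2 ⟨1, by rw [one_smul]⟩
  have h4 : pj (D.es x2 y2) ∈ D.A x1 y1 := by
    rw [hA]
    exact (D.mem_A' h2).2 ⟨1, by rw [one_smul]⟩
  have h5 := (D.in_of_A (p := p) hn h1 h2 h3).1
  have h6 := (D.in_of_A (p := p) hn h2 h1 h4).1
  have h7 : B.h x1 x2 = 0 := h2.hh h5 (In.left x2 y2)
  obtain ⟨a, b, hab⟩ := h5
  obtain ⟨a', b', hab'⟩ := h6
  have hb : b ≠ 0 := by
    rintro rfl
    rw [zero_smul, add_zero] at hab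
    have ha : a ≠ 0 := by
      rintro rfl
      exact h1.1.1 (by rw [hab, zero_smul])
    exact hne a⁻¹ (by rw [hab, smul_smul, inv_mul_cancel₀ ha, one_smul])
  have hb' : b' ≠ 0 := by
    rintro rfl
    rw [zero_smul, add_zero] at hab'
    exact hne a' hab'
  rw [D.opp_iff hn h1' h2', QF.dl, h7, zero_mul, zero_sub, neg_ne_zero]
  refine mul_ne_zero ?_ ?_
  · rw [hab, B.add_left, B.smul_left, B.smul_left, h2'.huv, mul_zero, zero_add]
    exact mul_ne_zero hb hyz2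
  · rw [hab', B.add_right, B.smul_right, B.smul_right, h1'.hvu, mul_zero, zero_add, B.symm y1 z1]
    exact mul_ne_zero hb' hyz1

lemma C2.pi0 [Finite K] [FiniteDimensional K V] (hn : 7 ≤ Module.finrank K V)
    {X Y : Subgroup (Pr G)} (h : D.C2 X Y) : Pi0 p D.R X Y := by
  intro M1 M2 M3 p1 p2 p3 o1 o2 o3 o4
  have hX := (Mv.mem D (C2.mv D h)).1
  obtain ⟨x, y, y', h1, h2, h3, rfl, rfl⟩ := h
  rcases D.pol_cases (p := p) hn hX p1 with c1 | c1
  swap
  · exact absurd o1.symm (D.C3_not_opp hn h1 h2 c1)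
  obtain ⟨x1, y1, z1, a1, a2, a3, a4, rfl⟩ := c1
  have hx1 : ∀ c : K, x1 ≠ c • x := fun c hc => D.same_pt (p := p) hn a2 h2 hc o1
  have c2 : D.C3 (D.A x y) M2 := by
    rcases D.pol_cases (p := p) hn hX p2 with c2 | c2
    swap
    · exact c2
    obtain ⟨x2, y2, z2, b1, b2, b3, b4, rfl⟩ := c2
    exfalso
    by_cases hx2 : ∃ c : K, x2 = c • x
    · obtain ⟨c, hc⟩ := hx2
      refine o3 (D.C2_opp (p := p) hn a1 a2 a3 b1 b2 b3 (a4.symm.trans b4) (fun c' hc' => ?_)).symm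
      have hc0 : c' ≠ 0 := by
        rintro rfl
        exact b1.1.1 (by rw [hc', zero_smul])
      refine hx1 (c'⁻¹ * c) ?_
      rw [mul_smul, ← hc, hc', smul_smul, inv_mul_cancel₀ hc0, one_smul]
    · push Not at hx2
      exact o2 (D.C2_opp (p := p) hn h1 h2 h3 b1 b2 b3 b4 hx2).symm
  rcases D.pol_cases (p := p) hn hX p3 with c3 | c3
  · obtain ⟨x3, y3, z3, d1, d2, d3, d4, rfl⟩ := c3
    rw [d4] at c2
    exact absurd o4 (D.C3_not_opp hn d1 d2 c2)
  · exact fun ho => D.C3_not_opp (p := p) hn h1 h2 c3 ho.symm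

lemma C3.not_pi0 [Finite K] [FiniteDimensional K V] (hn : 9 ≤ Module.finrank K V)
    {X Y : Subgroup (Pr G)} (h : D.C3 X Y) : ¬ Pi0 p D.R X Y := by
  have hn7 : 7 ≤ Module.finrank K V := by omega
  obtain ⟨u, v, s, t, hF, rfl, rfl⟩ := h
  obtain ⟨a0, b0, hab0, hd0, -⟩ := QF.lcommon (by omega) hF.1 hF.1
  obtain ⟨s0, t0, hst, -, -, e1, e2, e3, e4⟩ := QF.dual hF.1 hab0 hd0
  have H : Dual B u v s0 t0 := ⟨hF.1, hst, e1, e2, e3, e4⟩
  set W := B.perp ![u, v, s0, t0] with hW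
  set B' := B.res W (res4 H) with hB'
  have hfr : 5 ≤ Module.finrank K W := by
    have : Module.finrank K V ≤ Module.finrank K W + 4 := B.finrank_perp ![u, v, s0, t0]
    omega
  have w1 : ∀ x : W, B.h x u = 0 := fun x => x.2 0
  have w2 : ∀ x : W, B.h x v = 0 := fun x => x.2 1
  have w3 : ∀ x : W, B.h x s0 = 0 := fun x => x.2 2
  have w4 : ∀ x : W, B.h x t0 = 0 := fun x => x.2 3
  -- projections
  have hpr : ∀ z, B.Q z = 0 → B.h z u = 0 → B.h z v = 0 → ∃ b : W, B.Q b = 0 ∧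
      (b : V) = z - B.h z t0 • u + B.h z s0 • v := by
    intro z hz hzu hzv
    have hm : z - B.h z t0 • u + B.h z s0 • v ∈ W := by
      intro i
      fin_cases i
      · change B.h _ u = 0
        simp only [B.add_left, B.sub_left, B.smul_left, H.L.1.hself, H.L.hvu, hzu]
        ring
      · change B.h _ v = 0
        simp only [B.add_left, B.sub_left, B.smul_left, H.L.2.1.hself, H.L.huv, hzv]
        ring
      · change B.h _ s0 = 0
        simp only [B.add_left, B.sub_left, B.smul_left, H.us, H.vs]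
        ring
      · change B.h _ t0 = 0
        simp only [B.add_left, B.sub_left, B.smul_left, H.ut, H.vt]
        ring
    refine ⟨⟨_, hm⟩, ?_, rfl⟩
    change B.Q (z - B.h z t0 • u + B.h z s0 • v) = 0
    rw [B.qadd, B.qsub, B.qsmul, B.qsmul, hz, hF.1.1.2, hF.1.2.1.2, B.smul_right, hzu,
      B.smul_right, B.sub_left, B.smul_left, hzv, H.L.huv]
    ring
  obtain ⟨-, hM, f1, f2, f3, f4, -⟩ := id hF
  obtain ⟨b1, hb1, hb1'⟩ := hpr s hM.1.2 f1 f2
  obtain ⟨b2, hb2, hb2'⟩ := hpr t hM.2.1.2 f3 f4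
  have hbh : ∀ (x : W), B.h x b1 = B.h x s ∧ B.h x b2 = B.h x t := by
    intro x
    rw [hb1', hb2']
    simp only [B.add_right, B.sub_right, B.smul_right, w1, w2]
    constructor <;> ring
  have hLb : B'.Ln b1 b2 := by
    refine ⟨⟨fun h0 => ?_, hb1⟩, ⟨fun h0 => ?_, hb2⟩, ?_, fun c hc => ?_⟩
    · have h1 : (b1 : V) = 0 := congrArg Subtype.val h0
      rw [hb1'] at h1
      have h2 := hF.zero (a := -B.h s t0) (b := B.h s s0) (c := 1) (d := 0) (by
        rw [← h1]; module)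
      exact one_ne_zero h2.2.2.1
    · have h1 : (b2 : V) = 0 := congrArg Subtype.val h0
      rw [hb2'] at h1
      have h2 := hF.zero (a := -B.h t t0) (b := B.h t s0) (c := 0) (d := 1) (by
        rw [← h1]; module)
      exact one_ne_zero h2.2.2.2
    · change B.h b2 b1 = 0
      rw [(hbh b2).1, hb2', B.add_left, B.sub_left, B.smul_left, B.smul_left, hM.hvu,
        B.symm s u, B.symm s v, f1, f2]
      ring
    · have h1 : (b2 : V) = c • (b1 : V) := congrArg Subtype.val hc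
      rw [hb2', hb1'] at h1
      have h2 := hF.zero (a := -B.h t t0 + c * B.h s t0) (b := B.h t s0 - c * B.h s s0)
        (c := -c) (d := 1) (by
        have h3 := sub_eq_zero.2 h1
        rw [← h3]
        module)
      exact one_ne_zero h2.2.2.2
  -- lines of the subspace
  have hln : ∀ a b : W, B'.Ln a b → B.Ln (a : V) (b : V) := by
    intro a b hab
    exact ⟨⟨fun h0 => hab.1.1 (Subtype.ext h0), hab.1.2⟩,
      ⟨fun h0 => hab.2.1.1 (Subtype.ext h0), hab.2.1.2⟩, hab.2.2.1,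
      fun c hc => hab.2.2.2 c (Subtype.ext hc)⟩
  have hF4 : ∀ a b : W, B'.Ln a b → D.C3 (D.A u v) (D.A (a : V) (b : V)) := by
    intro a b hab
    refine ⟨u, v, a, b, ⟨hF.1, hln a b hab, w1 a, w2 a, w1 b, w2 b, ?_⟩, rfl, rfl⟩
    rw [Fintype.linearIndependent_iff]
    intro g hg
    rw [Fin.sum_univ_four] at hg
    have hg' : g 0 • u + g 1 • v + g 2 • (a : V) + g 3 • (b : V) = 0 := hg
    have k1 := congrArg (fun y => B.h y s0) hg'
    have k2 := congrArg (fun y => B.h y t0) hg'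
    simp only [B.add_left, B.smul_left, B.zero_left, H.us, H.vs, H.ut, H.vt, w3, w4, mul_zero,
      mul_one, add_zero, zero_add] at k1 k2
    have k3 : g 1 = 0 := by linear_combination -k1
    rw [k2, k3, zero_smul, zero_smul, zero_add, zero_add] at hg'
    have k4 := (hln a b hab).zero hg'
    intro i
    fin_cases i
    · exact k2
    · exact k3
    · exact k4.1
    · exact k4.2
  have hdl : ∀ a b : W, B'.dl b1 b2 a b = B.dl (a : V) (b : V) s t := by
    intro a b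
    change B.h b1 a * B.h b2 b - B.h b1 b * B.h b2 a = B.h a s * B.h b t - B.h a t * B.h b s
    rw [← (hbh a).1, ← (hbh b).1, ← (hbh a).2, ← (hbh b).2, B.symm b1 a, B.symm b2 b, B.symm b1 b,
      B.symm b2 a]
    ring
  have hdl' : ∀ a b c d : W, B'.dl a b c d = B.dl (a : V) (b : V) (c : V) (d : V) :=
    fun a b c d => rfl
  obtain ⟨a1, a2, ha, hd1, -⟩ := QF.lcommon hfr hLb hLb
  obtain ⟨c1, c2, hc, -, -, g1, g2, g3, g4⟩ := QF.dual hLb ha hd1
  have hbc : B'.Ln b1 c1 := by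
    refine ⟨hLb.1, hc.1, g1, fun c hcc => ?_⟩
    rw [hcc, B'.smul_left, hLb.huv, mul_zero] at g2
    exact one_ne_zero (neg_eq_zero.1 g2.symm)
  obtain ⟨d1, d2, hd, hdd1, hdd2⟩ := QF.lcommon hfr hLb hbc
  intro hpi
  have q1 := C3.pol (p := p) D hn7 (hF4 c1 c2 hc)
  have q2 := C3.pol (p := p) D hn7 (hF4 b1 c1 hbc)
  have q3 := C3.pol (p := p) D hn7 (hF4 d1 d2 hd)
  refine hpi _ _ _ q1 q2 q3 ?_ ?_ ?_ ?_ ?_
  · rw [D.opp_iff hn7 (hln c1 c2 hc) hM, ← hdl]
    change B'.h b1 c1 * B'.h b2 c2 - B'.h b1 c2 * B'.h b2 c1 ≠ 0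
    rw [B'.symm c1 b1, B'.symm c2 b2, B'.symm c2 b1, B'.symm c1 b2, g1, g2, g3, g4]
    simp
  · rw [D.opp_iff hn7 (hln b1 c1 hbc) hM, not_not, ← hdl]
    change B'.h b1 b1 * B'.h b2 c1 - B'.h b1 c1 * B'.h b2 b1 = 0
    rw [hLb.1.hself, hLb.hvu]
    ring
  · exact D.not_opp_pt hn7 (hln b1 c1 hbc) (hln c1 c2 hc) (hln c1 c2 hc).1.1 (In.right _ _)
      (hln c1 c2 hc).1.hself (hln c1 c2 hc).huv
  · rw [D.opp_iff hn7 (hln d1 d2 hd) (hln b1 c1 hbc), ← hdl', QF.dl_symm]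
    exact hdd2
  · rw [D.opp_iff hn7 (hln d1 d2 hd) hM, ← hdl]
    exact hdd1

/-- The group theoretic description of the first relation. -/
lemma T2_iff [Finite K] [FiniteDimensional K V] (hn : 7 ≤ Module.finrank K V)
    (hN : 9 ≤ Module.finrank K V ∨ NoFour B) {X Y : Subgroup (Pr G)} :
    T2 p D.R X Y ↔ D.C2 X Y := by
  constructor
  · rintro ⟨h1, h2, h3⟩
    rcases D.pol_cases (p := p) hn h1 h2 with h4 | h4
    · exact h4
    · exfalso
      rcases hN with h5 | h5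
      · exact C3.not_pi0 D h5 h4 h3
      · obtain ⟨u, v, s, t, hF, -, -⟩ := h4
        exact h5 u v s t hF
  · intro h
    exact ⟨(Mv.mem D (C2.mv D h)).1, C2.pol (p := p) D hn h, C2.pi0 D hn h⟩

/-- The group theoretic description of meeting lines. -/
lemma Mt_iff [Finite K] [FiniteDimensional K V] (hn : 7 ≤ Module.finrank K V)
    (hN : 9 ≤ Module.finrank K V ∨ NoFour B) {X Y : Subgroup (Pr G)} :
    Mt p D.R X Y ↔ D.Mv X Y := by
  constructor
  · rintro ⟨h1, h2, h3⟩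
    rcases h3 with rfl | ⟨h3, h4 | h4⟩
    · obtain ⟨u, v, h, rfl⟩ := h1
      exact ⟨u, v, v, h, h, rfl, rfl⟩
    · rcases D.cm_cases (p := p) hn h1 h2 h3 with h5 | h5
      · exact h5
      · exact absurd h4 (C3.not_col (p := p) D hn h5)
    · exact C2.mv D ((D.T2_iff hn hN).1 h4)
  · intro h
    refine ⟨(Mv.mem D h).1, (Mv.mem D h).2, ?_⟩
    by_cases he : X = Y
    · exact Or.inl he
    · refine Or.inr ⟨Mv.cm D h, ?_⟩
      obtain ⟨x, y, y', h1, h2, rfl, rfl⟩ := h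
      by_cases h3 : B.h y y' = 0
      · exact Or.inl (Mv.col (p := p) D hn h1 h2 h3 he)
      · exact Or.inr ((D.T2_iff hn hN).2 ⟨x, y, y', h1, h2, h3, rfl, rfl⟩)

end RepO

end Pool.Agent.BSpi.Orth
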