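import Pool.Agent.BSpi.Orth.Pts

set_option autoImplicit false
set_option linter.unusedSimpArgs false
set_option linter.unusedVariables false
set_option linter.unusedSectionVars false

open Matrix Matrix.SpecialLinearGroup
open scoped MatrixGroups

namespace Pool.Agent.BSpi.Orth

open Pool.Agent.BSpi.PSL Pool.Agent.BSpi.Cls

variable {K V : Type} [Field K] [AddCommGroup V] [Module K V] {B : QF K V}
variable {p : ℕ} [hp : Fact p.Prime] [CharP K p] {G : Type} [Group G]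

/-- Projections. -/
lemma proj4 {u v s t : V} (H : Dual B u v s t) {z : V} (hz : B.Q z = 0) (hzu : B.h z u = 0)
    (hzv : B.h z v = 0) : ∃ b : B.perp ![u, v, s, t], B.Q b = 0 ∧
      (b : V) = z - B.h z t • u + B.h z s • v := by
  have hm : z - B.h z t • u + B.h z s • v ∈ B.perp ![u, v, s, t] := by
    intro i
    fin_cases i
    · change B.h _ u = 0
      simp only [B.add_left, B.sub_left, B.smul_left, H.L.1.hself, H.L.hvu, hzu]
      ring
    · change B.h _ v = 0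
      simp only [B.add_left, B.sub_left, B.smul_left, H.L.2.1.hself, H.L.huv, hzv]
      ring
    · change B.h _ s = 0
      simp only [B.add_left, B.sub_left, B.smul_left, H.us, H.vs]
      ring
    · change B.h _ t = 0
      simp only [B.add_left, B.sub_left, B.smul_left, H.ut, H.vt]
      ring
  refine ⟨⟨_, hm⟩, ?_, rfl⟩
  change B.Q (z - B.h z t • u + B.h z s • v) = 0
  rw [B.qadd, B.qsub, B.qsmul, B.qsmul, hz, H.L.1.2, H.L.2.1.2, B.smul_right, hzu,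
    B.smul_right, B.sub_left, B.smul_left, hzv, H.L.huv]
  ring

lemma exists_dual [Finite K] [FiniteDimensional K V] (hn : 7 ≤ Module.finrank K V) {u v : V}
    (h : B.Ln u v) : ∃ s t, Dual B u v s t := by
  obtain ⟨a0, b0, hab0, hd0, -⟩ := QF.lcommon (by omega) h h
  obtain ⟨s0, t0, hst, -, -, e1, e2, e3, e4⟩ := QF.dual h hab0 hd0
  exact ⟨s0, t0, h, hst, e1, e2, e3, e4⟩

namespace RepO

variable (D : RepO B G)

lemma perp_cm {u v s t : V} (h1 : B.Ln u v) (h2 : B.Ln s t) (e1 : B.h s u = 0) (e2 : B.h s v = 0)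
    (e3 : B.h t u = 0) (e4 : B.h t v = 0) : Cm (D.A u v) (D.A s t) := by
  intro a ha b hb
  obtain ⟨a, rfl⟩ := (D.mem_A' h1).1 ha
  obtain ⟨b, rfl⟩ := (D.mem_A' h2).1 hb
  have f1 : B.h (a • v) u = 0 := by rw [B.smul_left, h1.hvu, mul_zero]
  have f2 : B.h (b • t) s = 0 := by rw [B.smul_left, h2.hvu, mul_zero]
  rw [← map_mul, ← map_mul]
  congr 1
  have h3 := D.es_conj h2.1.2 f2 (D.es u (a • v))
  have h4 : ∀ x, B.h x u = 0 → B.h x v = 0 → D.ρ (D.es u (a • v)) x = x := by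
    intro x hx hx'
    rw [D.es_apply h1.1.2 f1, hx, B.smul_right, hx']
    module
  rw [h4 s e1 e2, h4 (b • t) (by rw [B.smul_left, e3, mul_zero])
    (by rw [B.smul_left, e4, mul_zero])] at h3
  exact mul_inv_eq_iff_eq_mul.1 h3

/-- Distinct orthogonal meeting lines. -/
def Cl (X Y : Subgroup (Pr G)) : Prop :=
  ∃ x y y', B.Ln x y ∧ B.Ln x y' ∧ B.h y y' = 0 ∧ X = D.A x y ∧ Y = D.A x y' ∧ X ≠ Y

include hp in
lemma Cl_iff [Finite K] [FiniteDimensional K V] (hn : 7 ≤ Module.finrank K V)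
    {X Y : Subgroup (Pr G)} : D.Cl X Y ↔ X ∈ D.R ∧ Y ∈ D.R ∧ X ≠ Y ∧ Cm X Y ∧ Col D.R X Y := by
  constructor
  · rintro ⟨x, y, y', h1, h2, h3, h4, h5, h6⟩
    have hM : D.Mv X Y := ⟨x, y, y', h1, h2, h4, h5⟩
    refine ⟨(Mv.mem D hM).1, (Mv.mem D hM).2, h6, Mv.cm D hM, ?_⟩
    subst h4
    subst h5
    exact Mv.col (p := p) D hn h1 h2 h3 h6
  · rintro ⟨h1, h2, h3, h4, h5⟩
    rcases D.cm_cases (p := p) hn h1 h2 h4 with h6 | h6
    · obtain ⟨x, y, y', a1, a2, rfl, rfl⟩ := h6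
      refine ⟨x, y, y', a1, a2, ?_, rfl, rfl, h3⟩
      by_contra h7
      exact C2.not_col (p := p) D hn ⟨x, y, y', a1, a2, h7, rfl, rfl⟩ h5
    · exact absurd h5 (C3.not_col (p := p) D hn h6)

include hp in
lemma Cl_im [Finite K] [FiniteDimensional K V] (hn : 7 ≤ Module.finrank K V)
    {f : MulAut (Pr G)} (hf : PP D.R f) {X Y : Subgroup (Pr G)} (h : D.Cl X Y) :
    D.Cl (im f X) (im f Y) := by
  rw [D.Cl_iff (p := p) hn] at h ⊢
  exact ⟨hf.1 X h.1, hf.1 Y h.2.1, fun e => h.2.2.1 (im_injective f e), h.2.2.2.1.im f,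
    h.2.2.2.2.im hf⟩

lemma Cl.symm {X Y : Subgroup (Pr G)} (h : D.Cl X Y) : D.Cl Y X := by
  obtain ⟨x, y, y', h1, h2, h3, h4, h5, h6⟩ := h
  exact ⟨x, y', y, h2, h1, by rw [B.symm, h3], h5, h4, h6.symm⟩

include hp in
lemma in_of_eq [Finite K] [FiniteDimensional K V] (hn : 7 ≤ Module.finrank K V)
    {x y u v : V} (h : B.Ln x y) (h' : B.Ln u v) (he : D.A x y = D.A u v) :
    In x u v K ∧ In y u v K := by
  refine D.in_of_A (p := p) hn h h' ?_
  rw [← he]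
  exact (D.mem_A' h).2 ⟨1, by rw [one_smul]⟩

include hp in
lemma mv_pt [Finite K] [FiniteDimensional K V] (hn : 7 ≤ Module.finrank K V)
    {x y u v : V} (h : B.Ln x y) (h' : B.Ln u v) (hM : D.Mv (D.A x y) (D.A u v)) :
    ∃ z, z ≠ 0 ∧ In z x y K ∧ In z u v K := by
  obtain ⟨z, a, b, h1, h2, h3, h4⟩ := hM
  exact ⟨z, h1.1.1, (D.in_of_eq (p := p) hn h1 h h3.symm).1, (D.in_of_eq (p := p) hn h2 h' h4.symm).1⟩

include hp in
lemma c3_perp [Finite K] [FiniteDimensional K V] (hn : 7 ≤ Module.finrank K V)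
    {x y u v : V} (h : B.Ln x y) (h' : B.Ln u v) (hM : D.C3 (D.A x y) (D.A u v)) {a b : V}
    (ha : In a x y K) (hb : In b u v K) : B.h a b = 0 := by
  obtain ⟨u', v', s', t', hF, h1, h2⟩ := hM
  obtain ⟨e1, e2⟩ := D.in_of_eq (p := p) hn h hF.1 h1
  obtain ⟨e3, e4⟩ := D.in_of_eq (p := p) hn h' hF.2.1 h2
  have h3 := ha.trans e1 e2
  have h4 := hb.trans e3 e4
  obtain ⟨-, -, f1, f2, f3, f4, -⟩ := hF
  have g1 : B.h u' b = 0 := h4.h0' (by rw [B.symm, f1]) (by rw [B.symm, f3])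
  have g2 : B.h v' b = 0 := h4.h0' (by rw [B.symm, f2]) (by rw [B.symm, f4])
  exact h3.h0 g1 g2

/-- Two common points determine the line. -/
lemma eq_of_two {x y u v a b : V} (h : B.Ln x y) (h' : B.Ln u v) (hab : B.Ln a b)
    (h1 : In a x y K) (h2 : In b x y K) (h3 : In a u v K) (h4 : In b u v K) :
    D.A x y = D.A u v := (D.A_eq h hab h1 h2).symm.trans (D.A_eq h' hab h3 h4)

include hp in
/-- Non-commuting lines. -/
lemma not_cm [Finite K] [FiniteDimensional K V] (hn : 7 ≤ Module.finrank K V)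
    {w c q y : V} (h : B.Ln w c) (h' : B.Ln q y) (hw : B.h w y = 0) (hcy : B.h c y ≠ 0)
    (hne : ¬ In w q y K) : ¬ Cm (D.A w c) (D.A q y) := by
  intro hcm
  rcases D.cm_cases (p := p) hn ⟨w, c, h, rfl⟩ ⟨q, y, h', rfl⟩ hcm with h1 | h1
  · obtain ⟨z, hz, hz1, hz2⟩ := D.mv_pt (p := p) hn h h' h1
    have h3 : B.h z y = 0 := h'.hh hz2 (In.right q y)
    obtain ⟨α, β, hαβ⟩ := hz1
    rw [hαβ, B.add_left, B.smul_left, B.smul_left, hw, mul_zero, zero_add] at h3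
    have hβ := (mul_eq_zero.1 h3).resolve_right hcy
    rw [hβ, zero_smul, add_zero] at hαβ
    have hα : α ≠ 0 := by
      rintro rfl
      exact hz (by rw [hαβ, zero_smul])
    apply hne
    have h4 : w = α⁻¹ • z := by rw [hαβ, smul_smul, inv_mul_cancel₀ hα, one_smul]
    rw [h4]
    exact In.smul _ hz2
  · exact hcy (D.c3_perp (p := p) hn h h' h1 (In.right w c) (In.right q y))

/-- If some root group is moved to a distinct collinear one, then some root group is moved to an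
opposite one. -/
lemma opp_of_col [Finite K] [FiniteDimensional K V] (hn : 7 ≤ Module.finrank K V)
    {f : MulAut (Pr G)} (hf : PP D.R f) {X : Subgroup (Pr G)} (hcl : D.Cl X (im f X)) :
    ∃ Z ∈ D.R, Opp p Z (im f Z) := by
  have hcl' : D.Cl (im f⁻¹ X) X := by
    have h1 := D.Cl_im (p := p) hn hf.inv hcl
    rwa [im_inv'] at h1
  obtain ⟨q, y, y1, hL0, hL1, hyy, rfl, hfX, hne⟩ := hcl
  obtain ⟨q', y2, y', hLm, hL0', hyy', hfX', hX0, hne'⟩ := hcl'
  rw [hfX'] at hne'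
  rw [hfX] at hne
  obtain ⟨hq', hy'⟩ := D.in_of_eq (p := p) hn hL0' hL0 hX0.symm
  -- the vector `y2` is orthogonal to the line
  have hin0 := D.in_of_eq (p := p) hn hL0 hL0' hX0
  have hy2q : B.h y2 q = 0 := hin0.1.h0' hLm.hvu hyy'
  have hy2y : B.h y2 y = 0 := hin0.2.h0' hLm.hvu hyy'
  have hy1q : B.h y1 q = 0 := hL1.hvu
  have hy1y : B.h y1 y = 0 := by rw [B.symm, hyy]
  obtain ⟨α, β, hαβ⟩ := id hq'
  obtain ⟨γ, hγ⟩ : ∃ γ : K, γ * β ≠ α := by
    by_cases hα : α = 0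
    · refine ⟨1, ?_⟩
      rw [one_mul, hα]
      rintro rfl
      exact hLm.1.1 (by rw [hαβ, hα]; module)
    · exact ⟨0, by rw [zero_mul]; exact fun h => hα h.symm⟩
  set w := y + γ • q with hw
  have hwin : In w q y K := ⟨γ, 1, by rw [hw]; module⟩
  have hLqw : B.Ln q w := hL0.of_in (In.left q y) hwin hL0.1.1 (fun c hc => by
    have h1 := hL0.zero (a := γ - c) (b := 1) (by
      have h2 := sub_eq_zero.2 hc
      rw [← h2, hw]
      module)
    exact one_ne_zero h1.2)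
  have hLwq' : B.Ln w q' := hL0.of_in hwin hq' hLqw.2.1.1 (fun c hc => by
    have h1 := hL0.zero (a := α - c * γ) (b := β - c) (by
      have h2 := sub_eq_zero.2 hc
      rw [← h2, hαβ, hw]
      module)
    apply hγ
    have h3 := h1.2
    have h4 := h1.1
    linear_combination (-γ) * (-h3) - h4)
  -- the common opposite point
  obtain ⟨s0, t0, H⟩ := exists_dual hn hL0
  set W := B.perp ![q, y, s0, t0] with hW
  set B' := B.res W (res4 H) with hB'
  have hfr : 3 ≤ Module.finrank K W := by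
    have : Module.finrank K V ≤ Module.finrank K W + 4 := B.finrank_perp ![q, y, s0, t0]
    omega
  have hpr : ∀ z, B.Sg z → B.h z q = 0 → B.h z y = 0 → ¬ In z q y K → ∃ b : W, B'.Sg b ∧
      ∀ c : W, B.h c b = B.h c z := by
    intro z hz h1 h2 h3
    obtain ⟨b, hb, hbe⟩ := proj4 H hz.2 h1 h2
    refine ⟨b, ⟨fun h0 => h3 ?_, hb⟩, fun c => ?_⟩
    · have h4 : (b : V) = 0 := congrArg Subtype.val h0
      refine ⟨B.h z t0, -B.h z s0, ?_⟩
      rw [← sub_eq_zero, ← h4, hbe]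
      module
    · have c1 : B.h c q = 0 := c.2 0
      have c2 : B.h c y = 0 := c.2 1
      rw [hbe, B.add_right, B.sub_right, B.smul_right, B.smul_right, c1, c2]
      ring
  have hn1 : ¬ In y1 q y K := fun h => hne (D.A_eq hL0 hL1 (In.left q y) h).symm
  have hn2 : ¬ In y2 q y K := fun h => hne' (D.A_eq hL0 hLm hq' h)
  obtain ⟨b1, hb1, hb1'⟩ := hpr y1 hL1.2.1 hy1q hy1y hn1
  obtain ⟨b2, hb2, hb2'⟩ := hpr y2 hLm.2.1 hy2q hy2y hn2
  obtain ⟨c, hc, hcb1, hcb2⟩ := QF.pcommon (B := B') hfr hb1 hb2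
  have hc1 : B.h c y1 ≠ 0 := by rw [← hb1' c]; exact hcb1
  have hc2 : B.h c y2 ≠ 0 := by rw [← hb2' c]; exact hcb2
  have hcq : B.h c q = 0 := c.2 0
  have hcy : B.h c y = 0 := c.2 1
  have hcw : B.h c w = 0 := hwin.h0' hcq hcy
  have hwy1 : B.h w y1 = 0 := hwin.h0 hL1.huv hyy
  have hwy2 : B.h w y2 = 0 := hwin.h0 (by rw [B.symm, hy2q]) (by rw [B.symm, hy2y])
  have hcS : B.Sg (c : V) := ⟨fun h0 => hc.1 (Subtype.ext h0), hc.2⟩
  have hLwc : B.Ln w (c : V) := ⟨hLqw.2.1, hcS, hcw, fun k hk => hc1 (by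
    rw [hk, B.smul_left, hwy1, mul_zero])⟩
  have hwn1 : ¬ In w q y1 K := fun h => hne
    (D.eq_of_two hL0 hL1 hLqw (In.left q y) hwin (In.left q y1) h)
  have hwn2 : ¬ In w q' y2 K := fun h => hne'
    (D.eq_of_two hLm hL0 hLwq' h (In.left q' y2) hwin hq')
  have hZ1 : ¬ Cm (D.A w c) (D.A q y1) := D.not_cm (p := p) hn hLwc hL1 hwy1 hc1 hwn1
  have hZ2 : ¬ Cm (D.A w c) (D.A q' y2) := D.not_cm (p := p) hn hLwc hLm hwy2 hc2 hwn2
  refine ⟨D.A w c, ⟨w, c, hLwc, rfl⟩, ?_⟩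
  -- the image
  have hXw : D.A q y = D.A w q := D.eq_of_two hL0 hLqw.symm hLqw (In.left q y) hwin
    (In.right w q) (In.left w q)
  have hclZ : D.Cl (D.A w c) (D.A q y) := by
    refine ⟨w, c, q, hLwc, hLqw.symm, hcq, rfl, hXw, fun he => ?_⟩
    have h1 := (D.in_of_eq (p := p) hn hLwc hL0 he).2
    exact hc1 (h1.h0 hL1.huv hyy)
  have hclf := D.Cl_im (p := p) hn hf hclZ
  have hZ3 : ¬ Cm (im f (D.A w c)) (D.A q y) := by
    intro h
    apply hZ2
    have h1 := h.im f⁻¹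
    rwa [im_inv', hfX'] at h1
  rw [hfX] at hclf
  obtain ⟨n1, c1, c1', k1, k2, k3, k4, k5, k6⟩ := hclf
  have hn1in := (D.in_of_eq (p := p) hn k2 hL1 k5.symm).1
  have hL1in := D.in_of_eq (p := p) hn hL1 k2 k5
  have hc1q : B.h c1 q = 0 := hL1in.1.h0' k1.hvu k3
  rw [k4] at hZ3 ⊢
  obtain ⟨a, b, hab⟩ := id hn1in
  have hn1y : B.h n1 q = 0 ∧ B.h n1 w = 0 :=
    ⟨hn1in.h0 hL1.1.hself hy1q, hn1in.h0 hLqw.huv (by rw [B.symm, hwy1])⟩
  have hb : b ≠ 0 := by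
    rintro rfl
    rw [zero_smul, add_zero] at hab
    apply hZ3
    refine Mv.cm D (D.mv_of_in k1 hL0 k1.1.1 (In.left n1 c1) ⟨a, 0, ?_⟩)
    rw [hab]
    module
  have hwc1 : B.h w c1 ≠ 0 := by
    intro h0
    apply hZ3
    rw [hXw]
    refine D.perp_cm k1 hLqw.symm ?_ h0 ?_ ?_
    · rw [B.symm, hn1y.2]
    · rw [B.symm, hn1y.1]
    · rw [B.symm, hc1q]
  rw [D.opp_iff hn hLwc k1, QF.dl, B.symm n1 w, hn1y.2, zero_mul, zero_sub, neg_ne_zero]
  refine mul_ne_zero hwc1 ?_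
  rw [hab, B.add_right, B.smul_right, B.smul_right, hcq, mul_zero, zero_add]
  exact mul_ne_zero hb hc1

include hp in
/-- Root groups in the join of two collinear ones. -/
lemma col_form [Finite K] [FiniteDimensional K V] (hn : 7 ≤ Module.finrank K V)
    {x y y' : V} (h : B.Ln x y) (h' : B.Ln x y') (hyy : B.h y y' = 0) {Z : Subgroup (Pr G)}
    (hZ : Z ∈ D.R) (hle : Z ≤ D.A x y ⊔ D.A x y') :
    ∃ a b : K, B.Ln x (a • y + b • y') ∧ Z = D.A x (a • y + b • y') := by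
  obtain ⟨u, v, huv, rfl⟩ := hZ
  have hcm : Cm (D.A x y) (D.A x y') := Mv.cm D ⟨x, y, y', h, h', rfl, rfl⟩
  obtain ⟨_, hx1, _, hx2, hx3⟩ := mem_sup_cm hcm
    (hle ((D.mem_A' huv).2 ⟨1, by rw [one_smul]⟩ : pj (D.es u v) ∈ D.A u v))
  obtain ⟨a, rfl⟩ := (D.mem_A' h).1 hx1
  obtain ⟨b, rfl⟩ := (D.mem_A' h').1 hx2
  have e1 : B.h (a • y) x = 0 := by rw [B.smul_left, h.hvu, mul_zero]
  have e2 : B.h (b • y') x = 0 := by rw [B.smul_left, h'.hvu, mul_zero]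
  have e3 : B.h (a • y + b • y') x = 0 := by rw [B.add_left, e1, e2, add_zero]
  rw [← map_mul, D.es_mul h.1.2 e1 e2] at hx3
  have hL : B.Ln x (a • y + b • y') := by
    have hne : ∀ c : K, a • y + b • y' ≠ c • x := by
      intro c hc
      rw [hc, D.es_self h.1.2, map_one] at hx3
      exact D.pj_es_ne (p := p) hn huv hx3
    refine ⟨h.1, ⟨fun h0 => hne 0 (by rw [h0, zero_smul]), ?_⟩, e3, hne⟩
    rw [B.qadd, B.qsmul, B.qsmul, h.2.1.2, h'.2.1.2, B.smul_left, B.smul_right, hyy]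
    ring
  have h1 : pj (D.es u v) ∈ D.A x (a • y + b • y') := (D.mem_A' hL).2 ⟨1, by rw [one_smul, hx3]⟩
  obtain ⟨h2, h3⟩ := D.in_of_A (p := p) hn huv hL h1
  exact ⟨a, b, hL, D.A_eq hL huv h2 h3⟩

/-- The special case. -/
lemma special_step [Finite K] [FiniteDimensional K V] (hn : 7 ≤ Module.finrank K V)
    {f : MulAut (Pr G)} (hf : PP D.R f) {X : Subgroup (Pr G)} (hX : X ∈ D.R)
    (h1 : ¬ Cm X (im f X)) (h2 : ¬ Opp p X (im f X)) :
    (∃ C ∈ D.R, Cm C (im f C)) ∨ ∃ Z ∈ D.R, Opp p Z (im f Z) := by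
  obtain ⟨u, v, huv, rfl⟩ := hX
  obtain ⟨u', v', huv', hfX⟩ := hf.1 _ ⟨u, v, huv, rfl⟩
  rw [hfX] at h1 h2
  rw [D.opp_iff hn huv huv', not_not] at h2
  obtain ⟨x0, z0, hL0, hx0, hz0, hx0u, hx0v⟩ := QF.exists_rad huv h2
  obtain ⟨x1, z1, hL1, hx1, hz1, hx1u, hx1v⟩ := QF.exists_rad huv' (by rw [QF.dl_symm]; exact h2)
  have hA0 := D.A_eq huv hL0 hx0 hz0
  have hA1 := D.A_eq huv' hL1 hx1 hz1
  have f1 : B.h x0 x1 = 0 := hx1.h0' hx0u hx0v
  have f2 : B.h x0 z1 = 0 := hz1.h0' hx0u hx0v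
  have f3 : B.h x1 z0 = 0 := hz0.h0' hx1u hx1v
  have f4 : B.h z0 z1 ≠ 0 := by
    intro h0
    apply h1
    rw [← hA0, ← hA1]
    exact D.perp_cm hL0 hL1 (by rw [B.symm, f1]) f3 (by rw [B.symm, f2]) (by rw [B.symm, h0])
  have hx1n : ¬ In x1 u v K := fun h => h1 (Mv.cm D (D.mv_of_in huv huv' hL1.1.1 h hx1))
  have hC : B.Ln x0 x1 := ⟨hL0.1, hL1.1, by rw [B.symm, f1], fun c hc => hx1n (by
    rw [hc]
    exact In.smul c hx0)⟩
  have hC' : D.A x0 x1 = D.A x1 x0 := D.A_eq hC.symm hC (In.right x1 x0) (In.left x1 x0)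
  have hclC : D.Cl (D.A x0 x1) (D.A u v) := by
    rw [← hA0]
    refine ⟨x0, x1, z0, hC, hL0, f3, rfl, rfl, fun he => hx1n ?_⟩
    exact ((D.in_of_eq (p := p) hn hC hL0 he).2).trans hx0 hz0
  by_cases hcmC : Cm (D.A x0 x1) (im f (D.A x0 x1))
  · exact Or.inl ⟨_, ⟨x0, x1, hC, rfl⟩, hcmC⟩
  right
  have hclf := D.Cl_im (p := p) hn hf hclC
  rw [hfX, ← hA1] at hclf
  obtain ⟨y, c, c', k1, k2, k3, k4, k5, k6⟩ := hclf
  have hyin := (D.in_of_eq (p := p) hn k2 hL1 k5.symm).1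
  have hL1in := D.in_of_eq (p := p) hn hL1 k2 k5
  obtain ⟨a, b, hab⟩ := id hyin
  have hcx1 : B.h c x1 = 0 := hL1in.1.h0' k1.hvu k3
  rw [k4] at hcmC
  have hb : b ≠ 0 := by
    rintro rfl
    rw [zero_smul, add_zero] at hab
    apply hcmC
    refine Mv.cm D (D.mv_of_in hC k1 k1.1.1 ⟨0, a, ?_⟩ (In.left y c))
    rw [hab]
    module
  have hx0y : B.h x0 y = 0 := hyin.h0' f1 f2
  have hx1y : B.h x1 y = 0 := hL1.hh (In.left x1 z1) hyin
  have hx0c : B.h x0 c ≠ 0 := by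
    intro h0
    apply hcmC
    exact D.perp_cm hC k1 (by rw [B.symm, hx0y]) (by rw [B.symm, hx1y]) (by rw [B.symm, h0]) hcx1
  -- the third member of the pencil
  have hQz : B.Q (z0 + x1) = 0 := by rw [B.qadd, hL0.2.1.2, hL1.1.2, B.symm x1 z0, f3]; ring
  have hLZ : B.Ln x0 (z0 + x1) := by
    have hnin : ∀ k : K, z0 + x1 ≠ k • x0 := fun k hk => hx1n (by
      have h5 : x1 = k • x0 - z0 := by rw [← hk]; abel
      rw [h5]
      exact (In.smul k hx0).sub hz0)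
    exact ⟨hL0.1, ⟨fun h0 => hnin 0 (by rw [h0, zero_smul]), hQz⟩, by
      rw [B.add_left, hL0.hvu, hC.hvu, add_zero], hnin⟩
  have hZle : D.A x0 (z0 + x1) ≤ D.A x0 z0 ⊔ D.A x0 x1 := by
    intro z hz
    obtain ⟨a, rfl⟩ := (D.mem_A' hLZ).1 hz
    rw [smul_add, ← D.es_mul hL0.1.2 (by rw [B.smul_left, hL0.hvu, mul_zero])
      (by rw [B.smul_left, hC.hvu, mul_zero]), map_mul]
    exact mul_mem (Subgroup.mem_sup_left ((D.mem_A' hL0).2 ⟨a, rfl⟩))
      (Subgroup.mem_sup_right ((D.mem_A' hC).2 ⟨a, rfl⟩))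
  have hZX : D.A x0 (z0 + x1) ≠ D.A x0 z0 := by
    intro he
    have h5 := ((D.in_of_eq (p := p) hn hLZ hL0 he).2).sub (In.right x0 z0)
    rw [add_sub_cancel_left] at h5
    exact hx1n (h5.trans hx0 hz0)
  have hZC : D.A x0 (z0 + x1) ≠ D.A x0 x1 := by
    intro he
    have h5 := ((D.in_of_eq (p := p) hn hLZ hC he).2).sub (In.right x0 x1)
    rw [add_sub_cancel_right] at h5
    obtain ⟨a1, b1, hab1⟩ := h5
    apply f4
    rw [hab1, B.add_left, B.smul_left, B.smul_left, f2, hL1.huv]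
    ring
  refine ⟨D.A x0 (z0 + x1), ⟨_, _, hLZ, rfl⟩, ?_⟩
  have hfle : im f (D.A x0 (z0 + x1)) ≤ D.A y x1 ⊔ D.A y c := by
    have h5 := im_mono f hZle
    rw [im_sup, hA0, hfX, ← hA1, k4] at h5
    have h6 : D.A x1 z1 = D.A y x1 := by
      refine (D.A_eq hL1 (hL1.of_in hyin (In.left x1 z1) k1.1.1 ?_) hyin (In.left x1 z1)).symm
      intro k hk
      have h7 := hL1.zero (a := k * a - 1) (b := k * b) (by
        have h8 := sub_eq_zero.2 hk
        rw [← neg_eq_zero, ← h8, hab]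
        module)
      have h8 := (mul_eq_zero.1 h7.2).resolve_right hb
      rw [h8, zero_mul, zero_sub] at h7
      exact one_ne_zero (neg_eq_zero.1 h7.1)
    rwa [h6] at h5
  have hLy : B.Ln y x1 := by
    refine hL1.of_in hyin (In.left x1 z1) k1.1.1 ?_
    intro k hk
    have h7 := hL1.zero (a := k * a - 1) (b := k * b) (by
      have h8 := sub_eq_zero.2 hk
      rw [← neg_eq_zero, ← h8, hab]
      module)
    have h8 := (mul_eq_zero.1 h7.2).resolve_right hb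
    rw [h8, zero_mul, zero_sub] at h7
    exact one_ne_zero (neg_eq_zero.1 h7.1)
  obtain ⟨a', b', hL', hfZ⟩ := D.col_form (p := p) hn hLy k1 (by rw [B.symm, hcx1])
    (hf.1 _ ⟨_, _, hLZ, rfl⟩) hfle
  have hb' : b' ≠ 0 := by
    rintro rfl
    apply hZX
    apply im_injective f
    rw [hfZ, hA0, hfX, ← hA1]
    exact (D.A_eq hL1 hL' hyin ⟨a', 0, by module⟩)
  rw [hfZ, D.opp_iff hn hLZ hL', QF.dl, hx0y, zero_mul, zero_sub, neg_ne_zero]
  refine mul_ne_zero ?_ ?_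
  · rw [B.add_right, B.smul_right, B.smul_right, f1, mul_zero, zero_add]
    exact mul_ne_zero hb' hx0c
  · rw [B.add_left, hx1y, add_zero, hab, B.add_right, B.smul_right, B.smul_right, B.symm x1 z0, f3,
      mul_zero, zero_add]
    exact mul_ne_zero hb f4

end RepO

end Pool.Agent.BSpi.Orth
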