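import Pool.Agent.BSpi.Orth.Geo2

set_option autoImplicit false
set_option linter.unusedSimpArgs false
set_option linter.unusedVariables false
set_option linter.unusedSectionVars false

open Matrix Matrix.SpecialLinearGroup
open scoped MatrixGroups

namespace Pool.Agent.BSpi.Orth

open Pool.Agent.BSpi.PSL Pool.Agent.BSpi.Cls

variable {K V : Type} [Field K] [AddCommGroup V] [Module K V] {B : QF K V}
variable {p : ℕ} [hp : Fact p.Prime] [CharP K p] {G : Type} [Group G]

lemma E_comp {z y y' : V} (hz : B.Q z = 0) (hy : B.h y z = 0) (hy' : B.h y' z = 0) (x : V) :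
    E B z y (E B z y' x) = E B z (y + y') x := by
  have hzz : B.h z z = 0 := by rw [B.hself, hz, mul_zero]
  rw [E_apply, E_apply, E_apply]
  simp only [B.add_left, B.sub_left, B.smul_left, B.add_right, hzz, hy', hy, B.symm y z, mul_zero,
    add_zero, sub_zero, B.qadd, B.symm y y']
  module

lemma E_iter {z y : V} (hz : B.Q z = 0) (hy : B.h y z = 0) (n : ℕ) (x : V) :
    (E B z y)^[n] x = E B z ((n : K) • y) x := by
  induction n with
  | zero =>
    rw [Function.iterate_zero, id, Nat.cast_zero, zero_smul, E_apply, B.zero_right, B.qzero]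
    module
  | succ n ih =>
    rw [Function.iterate_succ_apply', ih, E_comp hz hy (by rw [B.smul_left, hy, mul_zero])]
    congr 2
    push_cast
    rw [add_smul, one_smul, add_comm]

lemma E_iter_p {z y : V} (hz : B.Q z = 0) (hy : B.h y z = 0) (x : V) : (E B z y)^[p] x = x := by
  rw [E_iter hz hy, CharP.cast_eq_zero, zero_smul, E_apply, B.zero_right, B.qzero]
  module

lemma E_fix {z y : V} (hz : B.Sg z) (hy : B.h y z = 0) (hne : ∀ c : K, y ≠ c • z) {x : V}
    (hx : E B z y x = x) : B.h x z = 0 ∧ B.h x y = 0 := by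
  rw [E_apply] at hx
  have h1 : B.h x z • y - B.h x y • z - (B.Q y * B.h x z) • z = 0 := by
    have h2 : x + B.h x z • y - B.h x y • z - (B.Q y * B.h x z) • z - x = 0 := by
      rw [hx, sub_self]
    rw [← h2]
    abel
  have h3 : B.h x z = 0 := by
    by_contra h4
    apply hne ((B.h x z)⁻¹ * (B.h x y + B.Q y * B.h x z))
    have h5 : B.h x z • y = (B.h x y + B.Q y * B.h x z) • z := by
      rw [← sub_eq_zero, ← h1]
      module
    rw [mul_smul, ← h5, smul_smul, inv_mul_cancel₀ h4, one_smul]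
  refine ⟨h3, ?_⟩
  rw [h3] at h1
  have h4 : B.h x y • z = 0 := by
    have : B.h x y • z = -((0 : K) • y - B.h x y • z - (B.Q y * 0) • z) := by module
    rw [this, h1, neg_zero]
  exact (smul_eq_zero.1 h4).resolve_right hz.1

lemma fix_E {z y : V} {x : V} (h1 : B.h x z = 0) (h2 : B.h x y = 0) : E B z y x = x := by
  rw [E_apply, h1, h2]
  module

/-- The number of singular vectors. -/
lemma count_all [Finite K] [FiniteDimensional K V] [Finite V] (hn : 5 ≤ Module.finrank K V) :
    p ∣ Nat.card {x : V // B.Q x = 0} := by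
  obtain ⟨z, hz, -⟩ := B.sg_perp (k := 0) (fun i => i.elim0) (by omega)
  obtain ⟨y, hyc, hyn⟩ := B.perp_not ![z] ![z] (by omega)
  have hy : B.h y z = 0 := hyc 0
  have hne : ∀ c : K, y ≠ c • z := by
    intro c hc
    apply hyn
    rw [hc]
    exact Submodule.smul_mem _ _ (Submodule.subset_span ⟨0, rfl⟩)
  let f : {x : V // B.Q x = 0} → {x : V // B.Q x = 0} := fun x =>
    ⟨E B z y x.1, by rw [E_iso B hz.2 hy]; exact x.2⟩
  have hfi : ∀ n x, ((f^[n] x : {x : V // B.Q x = 0}) : V) = (E B z y)^[n] x.1 := by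
    intro n
    induction n with
    | zero => intro x; rfl
    | succ n ih => intro x; rw [Function.iterate_succ_apply', Function.iterate_succ_apply', ← ih]
  have h1 := card_fix (p := p) f (by
    funext x
    apply Subtype.ext
    rw [hfi, E_iter_p hz.2 hy]
    rfl)
  have hfz : ∀ x, f x = x → B.h x.1 z = 0 ∧ B.h x.1 y = 0 :=
    fun x hx => E_fix hz hy hne (congrArg Subtype.val hx)
  have hzf : ∀ x, B.h x.1 z = 0 → B.h x.1 y = 0 → f x = x :=
    fun x hx hx' => Subtype.ext (fix_E hx hx')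
  let f2 : {x // f x = x} → {x // f x = x} := fun x =>
    ⟨⟨x.1.1 + (1 : K) • z, by
      have e0 := hfz x.1 x.2
      rw [one_smul, B.qadd, x.1.2, hz.2, e0.1]
      ring⟩, hzf _ (by
      change B.h (x.1.1 + (1 : K) • z) z = 0
      rw [one_smul, B.add_left, hz.hself, (hfz x.1 x.2).1, add_zero]) (by
      change B.h (x.1.1 + (1 : K) • z) y = 0
      rw [one_smul, B.add_left, (hfz x.1 x.2).2, B.symm y z, hy, add_zero])⟩
  have h2 := dvd_free (p := p) f2 (iterate_shift (fun x => x.1.1)
    (fun x y hxy => Subtype.ext (Subtype.ext hxy)) f2 z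
    (fun x => (1 : K)) (fun x => rfl) (fun x => rfl)) (fun x hx => by
      have h3 : x.1.1 + (1 : K) • z = x.1.1 := congrArg (fun y => y.1.1) hx
      rw [one_smul, add_eq_left] at h3
      exact hz.1 h3)
  exact (h1.dvd_iff (dvd_refl p)).2 h2

namespace RepO

variable (D : RepO B G)

/-- Groups of `p`-power order fix a flag. -/
lemma fixed_flag [Finite K] [FiniteDimensional K V] [Finite V] (hn : 7 ≤ Module.finrank K V)
    {H : Subgroup G} (hH : IsPGroup p H) : ∃ u x, B.Ln u x ∧ (∀ g ∈ H, D.ρ g u = u) ∧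
      ∀ g ∈ H, ∃ c : K, D.ρ g x = x + c • u := by
  obtain ⟨u, hu, hfix⟩ : ∃ u, B.Sg u ∧ ∀ g ∈ H, D.ρ g u = u := by
    let _ : MulAction H {x : V // B.Q x = 0} :=
      { smul := fun g x => ⟨D.ρ g.1 x.1, by rw [D.iso]; exact x.2⟩
        one_smul := fun x => Subtype.ext (D.one_apply x.1)
        mul_smul := fun g g' x => Subtype.ext (D.mul_apply g.1 g'.1 x.1) }
    have h0 : (⟨0, B.qzero⟩ : {x : V // B.Q x = 0}) ∈
        MulAction.fixedPoints H {x : V // B.Q x = 0} := fun g => Subtype.ext (map_zero _)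
    obtain ⟨w, hw, hw0⟩ := hH.exists_fixed_point_of_prime_dvd_card_of_fixed_point _
      (count_all (B := B) (p := p) (by omega)) h0
    refine ⟨w.1, ⟨fun h => hw0 (Subtype.ext h.symm), w.2⟩, fun g hg => ?_⟩
    exact congrArg Subtype.val (hw ⟨g, hg⟩)
  obtain ⟨w, hw, huw⟩ := QF.partner hu
  have hwu : B.h w u = 1 := by rw [B.symm, huw]
  let W := B.perp ![u, w]
  let B' := B.res W (QF.res2 hu hw huw)
  have hfr : 5 ≤ Module.finrank K W := by
    have h1 : Module.finrank K V ≤ Module.finrank K W + 2 := B.finrank_perp ![u, w]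
    omega
  have hgu : ∀ (g : H) (x : V), B.h (D.ρ g.1 x) u = B.h x u := by
    intro g x
    nth_rewrite 1 [← hfix g.1 g.2]
    rw [D.hiso]
  have hmem : ∀ (g : H) (x : W), D.ρ g.1 x - B.h (D.ρ g.1 x) w • u ∈ W := by
    intro g x i
    have h1 : B.h x u = 0 := x.2 0
    fin_cases i
    · change B.h _ u = 0
      rw [B.sub_left, B.smul_left, hgu, h1, hu.hself]
      ring
    · change B.h _ w = 0
      rw [B.sub_left, B.smul_left, huw]
      ring
  let _ : MulAction H {x : W // B'.Q x = 0} :=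
    { smul := fun g x => ⟨⟨_, hmem g x.1⟩, by
        have h1 : B.h x.1 u = 0 := x.1.2 0
        have h2 : B.Q x.1 = 0 := x.2
        change B.Q (D.ρ g.1 x.1 - B.h (D.ρ g.1 x.1) w • u) = 0
        rw [B.qsub, B.qsmul, B.smul_right, D.iso, h2, hu.2, hgu, h1]
        ring⟩
      one_smul := fun x => Subtype.ext (Subtype.ext (by
        have h1 : B.h x.1 w = 0 := x.1.2 1
        change D.ρ 1 x.1 - B.h (D.ρ 1 x.1) w • u = x.1
        rw [D.one_apply, h1, zero_smul, sub_zero]))
      mul_smul := fun g g' x => Subtype.ext (Subtype.ext (by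
        change D.ρ (g.1 * g'.1) x.1 - B.h (D.ρ (g.1 * g'.1) x.1) w • u =
          D.ρ g.1 (D.ρ g'.1 x.1 - B.h (D.ρ g'.1 x.1) w • u) -
          B.h (D.ρ g.1 (D.ρ g'.1 x.1 - B.h (D.ρ g'.1 x.1) w • u)) w • u
        rw [D.mul_apply, map_sub, map_smul, hfix g.1 g.2, B.sub_left, B.smul_left, huw]
        module)) }
  have h0 : (⟨0, B'.qzero⟩ : {x : W // B'.Q x = 0}) ∈
      MulAction.fixedPoints H {x : W // B'.Q x = 0} := fun g => Subtype.ext (Subtype.ext (by
    change D.ρ g.1 (0 : V) - B.h (D.ρ g.1 (0 : V)) w • u = 0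
    rw [map_zero, B.zero_left, zero_smul, sub_zero]))
  obtain ⟨x, hx, hx0⟩ := hH.exists_fixed_point_of_prime_dvd_card_of_fixed_point _
    (count_all (B := B') (p := p) hfr) h0
  have hxu : B.h x.1 u = 0 := x.1.2 0
  have hxw : B.h x.1 w = 0 := x.1.2 1
  have hxs : B.Sg (x.1 : V) := ⟨fun h => hx0 (Subtype.ext (Subtype.ext h.symm)), x.2⟩
  refine ⟨u, x.1, QF.ln_of_h hu hxs hxu (by rw [huw]; exact one_ne_zero) hxw, hfix, fun g hg => ?_⟩
  have h1 : D.ρ g x.1 - B.h (D.ρ g x.1) w • u = x.1 :=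
    congrArg (fun y => ((y.1 : W) : V)) (hx ⟨g, hg⟩)
  exact ⟨B.h (D.ρ g x.1) w, by nth_rewrite 2 [← h1]; abel⟩

/-- Centres of Sylow subgroups are root groups. -/
lemma center_form [Finite K] [FiniteDimensional K V] [Finite V] [Finite G]
    (hn : 7 ≤ Module.finrank K V) {U : Subgroup (Pr G)} (hU : MaxP p U) :
    ∃ X ∈ D.R, ZU U = X := by
  obtain ⟨H, hH, hHU⟩ := sylow_onto hp.out (pj : G →* Pr G) mk_surjective U hU.1
  obtain ⟨u, x, hux, hfu, hfx⟩ := D.fixed_flag hn hH
  have hUN : ∀ s ∈ U, Nm (D.A u x) s := by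
    intro s hs
    rw [← hHU] at hs
    obtain ⟨g, hg, rfl⟩ := hs
    obtain ⟨c, hc⟩ := hfx g hg
    exact (D.Nm_iff (p := p) hn hux).2 ⟨by rw [hfu g hg]; exact In.left u x, by
      rw [hc]; exact ⟨c, 1, by module⟩⟩
  have hQU : (D.QP u).map pj ≤ U := hU.absorb (D.QP_pgroup hux.1) (fun s hs => by
    rw [← hHU] at hs
    obtain ⟨g, hg, rfl⟩ := hs
    exact D.QP_Nm one_ne_zero (by rw [hfu g hg, one_smul]))
  have hLU : (D.QL u x).map pj ≤ U := hU.absorb (D.QL_pgroup hux) (fun s hs =>
    D.QL_Nm (p := p) hn hux (hUN s hs))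
  refine ⟨D.A u x, ⟨u, x, hux, rfl⟩, le_antisymm ?_ ?_⟩
  · intro y hy
    obtain ⟨hyU, hyc⟩ := mem_ZU.1 hy
    rw [← hHU] at hyU
    obtain ⟨g, hg, rfl⟩ := hyU
    have hgu := hfu g hg
    obtain ⟨c, hc⟩ := hfx g hg
    -- commuting with the first group
    have h1 : ∀ d, B.h d u = 0 → ∃ e : K, D.ρ g d = d + e • u := by
      intro d hd
      have h2 : pj g * pj (D.es u d) = pj (D.es u d) * pj g :=
        (hyc _ (hQU ⟨_, D.es_mem hux.1.2 hd, rfl⟩)).symm
      have h3 := D.comm_lift (p := p) hn (D.es_p1 hux.1.2 hd) h2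
      rw [D.es_conj hux.1.2 hd, hgu] at h3
      exact D.es_inj hux.1 (by rw [← hgu, D.hiso, hd]) hd h3
    obtain ⟨d, hd, hgd⟩ := D.QP_form hux.1 ⟨hgu, h1⟩
    -- commuting with the second group
    have h2 : ∀ y, B.h y u = 0 → B.h y x = 0 → D.es (D.ρ g x) (D.ρ g y) = D.es x y := by
      intro y hyu hyx
      have h2 : pj g * pj (D.es x y) = pj (D.es x y) * pj g :=
        (hyc _ (hLU ⟨_, D.es_mem_QL' hux hyu hyx, rfl⟩)).symm
      have h3 := D.comm_lift (p := p) hn (D.es_p1 hux.2.1.2 hyx) h2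
      rw [D.es_conj hux.2.1.2 hyx] at h3
      exact h3
    have hgy : ∀ y, B.h y u = 0 → D.ρ g y = y - B.h y d • u := by
      intro y hy
      rw [hgd, D.es_apply hux.1.2 hd, hy]
      module
    have hxd : B.h x d = 0 := by
      by_contra hne
      obtain ⟨y, hyc, hyn⟩ := B.perp_not ![u, x] ![u, x] (by omega)
      have hyu : B.h y u = 0 := hyc 0
      have hyx : B.h y x = 0 := hyc 1
      obtain ⟨s, hsu, hsx⟩ := hux.vals 1 0
      have h3 : D.ρ (D.es (D.ρ g x) (D.ρ g y)) s = D.ρ (D.es x y) s := by rw [h2 y hyu hyx]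
      rw [D.es_apply (by rw [D.iso, hux.2.1.2]) (by rw [D.hiso, hyx]),
        D.es_apply hux.2.1.2 hyx, hsx, hgy x hux.hvu, hgy y hyu] at h3
      simp only [B.sub_right, B.smul_right, hsx, hsu] at h3
      apply hyn
      have h4 : In y u x K := by
        refine ⟨(B.h x d)⁻¹ * (B.h x d * B.h y d - B.h s y * -B.h x d + B.h y d * -B.h x d -
          B.Q (y - B.h y d • u) * -B.h x d * -B.h x d), (B.h x d)⁻¹ * (B.h y d +
          B.Q (y - B.h y d • u) * B.h x d), ?_⟩
        have h5 : B.h x d • y = (B.h x d * B.h y d - B.h s y * -B.h x d + B.h y d * -B.h x d -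
          B.Q (y - B.h y d • u) * -B.h x d * -B.h x d) • u + (B.h y d +
          B.Q (y - B.h y d • u) * B.h x d) • x := by
          rw [← sub_eq_zero]
          have h6 := sub_eq_zero.2 h3
          rw [← neg_eq_zero, ← h6]
          module
        rw [mul_smul, mul_smul, ← smul_add, ← h5, smul_smul, inv_mul_cancel₀ hne, one_smul]
      obtain ⟨a, b, hab⟩ := h4
      rw [hab]
      exact add_mem (Submodule.smul_mem _ _ (Submodule.subset_span ⟨0, rfl⟩))
        (Submodule.smul_mem _ _ (Submodule.subset_span ⟨1, rfl⟩))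
    have hgx : D.ρ g x = x := by rw [hgy x hux.hvu, hxd, zero_smul, sub_zero]
    have hyd : ∀ y, (∀ i, B.h y (![u, x] i) = 0) → B.h y d = 0 := by
      intro y hyc
      have hyu : B.h y u = 0 := hyc 0
      have hyx : B.h y x = 0 := hyc 1
      have h3 := h2 y hyu hyx
      rw [hgx] at h3
      obtain ⟨e, he⟩ := D.es_inj hux.2.1 (by rw [← hgx, D.hiso, hyx]) hyx h3
      rw [hgy y hyu] at he
      have h4 := hux.zero (a := B.h y d) (b := e) (by
        have : B.h y d • u + e • x = (y + e • x) - (y - B.h y d • u) := by abel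
        rw [this, ← he, sub_self])
      exact h4.1
    obtain ⟨a, ha⟩ := B.span_of_perp _ hyd
    rw [Fin.sum_univ_two] at ha
    have ha' : d = a 1 • x + a 0 • u := by rw [ha]; exact add_comm _ _
    refine (D.mem_A' hux).2 ⟨a 1, ?_⟩
    rw [hgd, ha', D.es_shift hux.1.2 (by rw [B.smul_left, hux.hvu, mul_zero])]
  · intro y hy
    refine mem_ZU.2 ⟨hQU (D.A_le_QP hux hy), fun s hs => ?_⟩
    obtain ⟨a, rfl⟩ := (D.mem_A' hux).1 hy
    rw [← hHU] at hs
    obtain ⟨g, hg, rfl⟩ := hs
    have hax : B.h (a • x) u = 0 := by rw [B.smul_left, hux.hvu, mul_zero]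
    rw [← map_mul, ← map_mul]
    congr 1
    obtain ⟨c, hc⟩ := hfx g hg
    have h1 := D.es_conj hux.1.2 hax g
    rw [hfu g hg, map_smul, hc, smul_add, smul_smul, D.es_shift hux.1.2 hax] at h1
    exact mul_inv_eq_iff_eq_mul.1 h1

include hp in
/-- All automorphisms preserve the set of root groups. -/
lemma pres_all [Finite K] [FiniteDimensional K V] [Finite V] [Finite G]
    (hn : 7 ≤ Module.finrank K V) (hS : IsSimpleGroup (Pr G)) (f : MulAut (Pr G)) :
    Pres D.R f := by
  intro C hC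
  have hG := D.geo (p := p) hn hS
  obtain ⟨U, hU⟩ := exists_maxP (S := Pr G) p
  obtain ⟨X, hX, hXU⟩ := D.center_form hn hU
  obtain ⟨Y, hY, hXY, hCY⟩ := hG.common X hX C hC
  obtain ⟨Q, -, -, -, htr⟩ := hG.trans Y hY
  obtain ⟨g, -, hg⟩ := htr X hX C hC hXY.symm hCY.symm
  rw [← hg, ← hXU, ZU_im, ZU_im]
  obtain ⟨Z, hZ, hZe⟩ := D.center_form hn ((hU.im (MulAut.conj g)).im f)
  rw [hZe]
  exact hZ

/-- The number of root groups. -/
lemma hcard [Finite K] [FiniteDimensional K V] [Finite V] [Finite G]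
    (hn : 7 ≤ Module.finrank K V) : ¬ p ∣ Nat.card D.R := by
  obtain ⟨U, hU⟩ := exists_maxP (S := Pr G) p
  obtain ⟨X, hX, hXU⟩ := D.center_form hn hU
  let _ : MulAction U D.R :=
    { smul := fun s C => ⟨im (MulAut.conj s.1) C.1, D.conj_pres s.1 C.1 C.2⟩
      one_smul := fun C => Subtype.ext (by
        change im (MulAut.conj (1 : Pr G)) C.1 = C.1
        rw [map_one, im_one])
      mul_smul := fun s t C => Subtype.ext (by
        change im (MulAut.conj (s.1 * t.1)) C.1 = im (MulAut.conj s.1) (im (MulAut.conj t.1) C.1)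
        rw [map_mul, im_mul]) }
  have : Finite D.R := Finite.of_injective (fun A : D.R => A.1) Subtype.val_injective
  have h1 := hU.1.card_modEq_card_fixedPoints D.R
  have h2 : Nat.card (MulAction.fixedPoints U D.R) = 1 := by
    rw [Nat.card_eq_one_iff_unique]
    constructor
    · constructor
      have key : ∀ C : MulAction.fixedPoints U D.R, C.1.1 = X := by
        intro C
        obtain ⟨⟨C, hC⟩, hCf⟩ := C
        have hCn : ∀ s ∈ U, Nm C s := fun s hs => congrArg Subtype.val (hCf ⟨s, hs⟩)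
        obtain ⟨u, v, h, rfl⟩ := hC
        -- a central element of `U` in `C`
        let _ : MulAction U (D.A u v) :=
          { smul := fun s c => ⟨s.1 * c.1 * s.1⁻¹, (hCn s.1 s.2).conj_mem c.2⟩
            one_smul := fun c => Subtype.ext (by
              change (1 : Pr G) * c.1 * (1 : Pr G)⁻¹ = c.1
              group)
            mul_smul := fun s t c => Subtype.ext (by
              change (s.1 * t.1) * c.1 * (s.1 * t.1)⁻¹ = s.1 * (t.1 * c.1 * t.1⁻¹) * s.1⁻¹
              group) }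
        have h0 : (1 : D.A u v) ∈ MulAction.fixedPoints U (D.A u v) := fun s => Subtype.ext (by
          change s.1 * (1 : Pr G) * s.1⁻¹ = 1
          group)
        have hne : pj (D.es u v) ≠ 1 := D.pj_es_ne (p := p) hn h
        have hd : p ∣ Nat.card (D.A u v) := by
          obtain ⟨n, hn'⟩ := (IsPGroup.iff_card).1 (D.A_pgroup (p := p) h)
          rw [hn']
          refine dvd_pow_self p ?_
          rintro rfl
          rw [pow_zero, Subgroup.card_eq_one] at hn'
          apply hne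
          rw [← Subgroup.mem_bot, ← hn']
          exact (D.mem_A' h).2 ⟨1, by rw [one_smul]⟩
        obtain ⟨c, hc, hc1⟩ := hU.1.exists_fixed_point_of_prime_dvd_card_of_fixed_point _ hd h0
        obtain ⟨c, hcA⟩ := c
        obtain ⟨a, rfl⟩ := (D.mem_A' h).1 hcA
        have ha : a ≠ 0 := by
          rintro rfl
          apply hc1
          apply Subtype.ext
          change (1 : Pr G) = pj (D.es u ((0 : K) • v))
          rw [zero_smul, D.es_zero h.1.2, map_one]
        have hcU : ∀ s ∈ U, Nm (ZU U) s := by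
          intro s hs
          rw [Nm, ZU_im]
          congr 1
          ext x
          constructor
          · rintro ⟨y, hy, rfl⟩
            exact mul_mem (mul_mem hs hy) (inv_mem hs)
          · intro hx
            refine ⟨s⁻¹ * x * s, mul_mem (mul_mem (inv_mem hs) hx) hs, ?_⟩
            change s * (s⁻¹ * x * s) * s⁻¹ = x
            group
        have hcomm : ∀ s ∈ U, s * pj (D.es u (a • v)) = pj (D.es u (a • v)) * s := by
          intro s hs
          have h3 : s * pj (D.es u (a • v)) * s⁻¹ = pj (D.es u (a • v)) :=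
            congrArg Subtype.val (hc ⟨s, hs⟩)
          exact mul_inv_eq_iff_eq_mul.1 h3
        -- it lies in `U`
        have hCU : D.A u v ≤ U := hU.absorb (D.A_pgroup h) hCn
        have h3 : pj (D.es u (a • v)) ∈ X := by
          rw [← hXU]
          exact mem_ZU.2 ⟨hCU hcA, hcomm⟩
        obtain ⟨u', v', h', rfl⟩ := hX
        have hL : B.Ln u (a • v) := by
          refine h.of_in (In.left u v) (In.smul a (In.right u v)) h.1.1 fun c hc => ?_
          have := h.zero (a := c) (b := -a) (by rw [neg_smul, hc]; abel)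
          exact ha (neg_eq_zero.1 this.2)
        obtain ⟨h4, h5⟩ := D.in_of_A (p := p) hn hL h' h3
        have h6 := D.A_eq h' hL h4 h5
        have h7 := D.A_eq h hL (In.left u v) (In.smul a (In.right u v))
        change D.A u v = D.A u' v'
        rw [← h6, h7]
      intro C C'
      exact Subtype.ext (Subtype.ext ((key C).trans (key C').symm))
    · refine ⟨⟨⟨X, hX⟩, fun s => Subtype.ext ?_⟩⟩
      change im (MulAut.conj s.1) X = X
      rw [← hXU, ZU_im]
      congr 1
      ext x
      constructor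
      · rintro ⟨y, hy, rfl⟩
        exact mul_mem (mul_mem s.2 hy) (inv_mem s.2)
      · intro hx
        refine ⟨s.1⁻¹ * x * s.1, mul_mem (mul_mem (inv_mem s.2) hx) s.2, ?_⟩
        change s.1 * (s.1⁻¹ * x * s.1) * s.1⁻¹ = x
        group
  rw [h2] at h1
  intro h3
  exact hp.out.one_lt.ne' (Nat.dvd_one.1 ((h1.dvd_iff (dvd_refl p)).1 h3))

end RepO

end Pool.Agent.BSpi.Orth
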