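import Pool.Agent.BSpi.Orth.Orb2

set_option autoImplicit false
set_option linter.unusedSimpArgs false
set_option linter.unusedVariables false
set_option linter.unusedSectionVars false

open Matrix Matrix.SpecialLinearGroup
open scoped MatrixGroups

namespace Pool.Agent.BSpi.Orth

open Pool.Agent.BSpi.PSL Pool.Agent.BSpi.Cls

variable {K V : Type} [Field K] [AddCommGroup V] [Module K V] {B : QF K V}
variable {p : ℕ} [hp : Fact p.Prime] [CharP K p] {G : Type} [Group G]

namespace RepO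

variable (D : RepO B G)

/-- Automorphisms exchanging the two types of pairs. -/
structure NP (f : MulAut (Pr G)) : Prop where
  c3 : ∀ X Y, D.C2 X Y → D.C3 (im f X) (im f Y)
  c3' : ∀ X Y, D.C2 X Y → D.C3 (im f⁻¹ X) (im f⁻¹ Y)

lemma c2_of_orb {X Y X' Y' : Subgroup (Pr G)} (h : D.C2 X Y) (ho : Orb X Y X' Y') : D.C2 X' Y' := by
  obtain ⟨s, rfl, rfl⟩ := ho
  exact D.C2_conj h s

include hp in
lemma c3_of_orb [Finite K] [FiniteDimensional K V] (hn : 7 ≤ Module.finrank K V)
    {X Y X' Y' : Subgroup (Pr G)} (h : D.C3 X Y) (ho : Orb X Y X' Y') : D.C3 X' Y' := by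
  obtain ⟨s, rfl, rfl⟩ := ho
  exact D.C3_conj (p := p) hn h s

include hp in
/-- All or no pairs of the first type are preserved. -/
lemma c2_all [Finite K] [FiniteDimensional K V] (hn : 7 ≤ Module.finrank K V)
    {f : MulAut (Pr G)} {X Y : Subgroup (Pr G)} (h : D.C2 X Y) (hf : D.C2 (im f X) (im f Y))
    {X' Y' : Subgroup (Pr G)} (h' : D.C2 X' Y') : D.C2 (im f X') (im f Y') :=
  D.c2_of_orb hf ((D.C2_orb hn h h').im f)

include hp in
lemma cp_or_np [Finite K] [FiniteDimensional K V] (hn : 7 ≤ Module.finrank K V)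
    {f : MulAut (Pr G)} (hf : PP D.R f) : D.CP f ∨ D.NP f := by
  -- images are of one of the types
  have hcase : ∀ {f : MulAut (Pr G)}, PP D.R f → ∀ {X Y}, D.C2 X Y →
      D.C2 (im f X) (im f Y) ∨ D.C3 (im f X) (im f Y) := by
    intro f hf X Y h
    exact D.pol_cases (p := p) hn (hf.1 _ (Mv.mem D (C2.mv D h)).1)
      ((C2.pol (p := p) D hn h).im hf)
  -- preservation by an automorphism and by its inverse
  have hinv : ∀ {f : MulAut (Pr G)}, PP D.R f → (∀ X Y, D.C2 X Y → D.C2 (im f X) (im f Y)) →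
      ∀ X Y, D.C2 X Y → D.C2 (im f⁻¹ X) (im f⁻¹ Y) := by
    intro f hf h1 X Y h
    have h2 := (D.C2_orb hn h (h1 X Y h)).im f⁻¹
    rw [im_inv', im_inv'] at h2
    exact D.c2_of_orb h h2.symm
  by_cases h1 : ∀ X Y, D.C2 X Y → D.C2 (im f X) (im f Y)
  · exact Or.inl ⟨hf, h1, hinv hf h1⟩
  · right
    push Not at h1
    obtain ⟨X0, Y0, h0, h2⟩ := h1
    have h3 : ∀ X Y, D.C2 X Y → D.C3 (im f X) (im f Y) := by
      intro X Y h
      rcases hcase hf h with h4 | h4
      · exact absurd (D.c2_all (p := p) hn h h4 h0) h2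
      · exact h4
    refine ⟨h3, fun X Y h => ?_⟩
    rcases hcase hf.inv h with h4 | h4
    · exfalso
      have h5 := h3 _ _ h4
      rw [im_inv, im_inv] at h5
      exact D.not_C2_C3 (p := p) hn h h5
    · exact h4

lemma NP.inv {f : MulAut (Pr G)} (h : D.NP f) : D.NP f⁻¹ :=
  ⟨h.c3', by rw [inv_inv]; exact h.c3⟩

lemma exists_c2 [Finite K] [FiniteDimensional K V] (hn : 7 ≤ Module.finrank K V) :
    ∃ X Y, D.C2 X Y := by
  obtain ⟨u, v, h⟩ := exists_ln (B := B) hn
  obtain ⟨y, y', h1, h2, h3⟩ := exists_two hn h.1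
  exact ⟨_, _, u, y, y', h1, h2, by rw [h3]; exact one_ne_zero, rfl, rfl⟩

include hp in
/-- Automorphisms exchanging the types have order divisible by three or are even. -/
lemma np_three [Finite K] [FiniteDimensional K V] (hn : Module.finrank K V = 8)
    {f : MulAut (Pr G)} (hpp : PP D.R f) (hf : D.NP f) {r : ℕ} (hr : r.Prime) (hr2 : r ≠ 2)
    (hfr : f ^ r = 1) : f ^ 3 = 1 ∧ ∀ X Y, X ∈ D.R → Pol D.R X Y →
      ∃ k : ℕ, D.C2 (im (f ^ k) X) (im (f ^ k) Y) := by
  have hn7 : 7 ≤ Module.finrank K V := by omega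
  have himp : ∀ (k : ℕ) (X : Subgroup (Pr G)), im f (im (f ^ k) X) = im (f ^ (k + 1)) X := by
    intro k X
    rw [← im_mul, ← pow_succ']
  obtain ⟨m, hm⟩ := hr.odd_of_ne_two hr2
  -- powers preserving the type
  have hpow : ∀ g : MulAut (Pr G), (∀ X Y, D.C2 X Y → D.C2 (im g X) (im g Y)) →
      ∀ k : ℕ, ∀ X Y, D.C2 X Y → D.C2 (im (g ^ k) X) (im (g ^ k) Y) := by
    intro g hg k
    induction k with
    | zero => intro X Y h; rwa [pow_zero, im_one, im_one]
    | succ k ih =>
      intro X Y h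
      rw [pow_succ', im_mul, im_mul]
      exact hg _ _ (ih X Y h)
  obtain ⟨X, Y, h0⟩ := D.exists_c2 hn7
  have h1 := hf.c3 X Y h0
  have hX := (Mv.mem D (C2.mv D h0)).1
  -- the square
  have h2 : D.C3 (im f (im f X)) (im f (im f Y)) := by
    rcases D.pol_cases (p := p) hn7 (hpp.1 _ (hpp.1 _ hX)) ((C3.pol (p := p) D hn7 h1).im hpp)
      with h2 | h2
    · exfalso
      rw [← im_mul, ← im_mul] at h2
      have h3 : ∀ X' Y', D.C2 X' Y' → D.C2 (im (f * f) X') (im (f * f) Y') :=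
        fun X' Y' h' => D.c2_all (p := p) hn7 h0 h2 h'
      have h4 := hpow _ h3 (m + 1) X Y h0
      have h5 : (f * f) ^ (m + 1) = f := by
        rw [← pow_two, ← pow_mul]
        have h6 : 2 * (m + 1) = r + 1 := by omega
        rw [h6, pow_succ, hfr, one_mul]
      rw [h5] at h4
      exact D.not_C2_C3 (p := p) hn7 h4 h1
    · exact h2
  -- different orbits
  have h01 : ¬ Orb X Y (im f X) (im f Y) := fun h =>
    D.not_C2_C3 (p := p) hn7 (D.c2_of_orb h0 h) h1
  have hback : ∀ {X Y X' Y' : Subgroup (Pr G)}, Orb (im f X) (im f Y) (im f X') (im f Y') →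
      Orb X Y X' Y' := by
    intro X Y X' Y' h
    have h3 := h.im f⁻¹
    rwa [im_inv', im_inv', im_inv', im_inv'] at h3
  have h12 : ¬ Orb (im f X) (im f Y) (im f (im f X)) (im f (im f Y)) := fun h => h01 (hback h)
  -- the cube
  have h3 : D.C2 (im f (im f (im f X))) (im f (im f (im f Y))) := by
    rcases D.pol_cases (p := p) hn7 (hpp.1 _ (hpp.1 _ (hpp.1 _ hX)))
      ((C3.pol (p := p) D hn7 h2).im hpp) with h3 | h3
    · exact h3
    · exfalso
      rcases D.c3_two (p := p) hn h1 h2 h3 with h4 | h4 | h4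
      · exact h12 h4
      · exact D.not_C2_C3 (p := p) hn7 (D.c2_of_orb h0 (hback h4)) h2
      · exact h12 (hback h4)
  have h3' : ∀ X' Y', D.C2 X' Y' → D.C2 (im (f ^ 3) X') (im (f ^ 3) Y') := by
    intro X' Y' h'
    have h4 : ∀ X : Subgroup (Pr G), im f (im f (im f X)) = im (f ^ 3) X := by
      intro X
      rw [← im_mul, ← im_mul, pow_succ, pow_two, mul_assoc]
    rw [h4, h4] at h3
    exact D.c2_all (p := p) hn7 h0 h3 h'
  have hr3 : r = 3 := by
    by_contra hne
    have hcop : Nat.Coprime 3 r := (Nat.coprime_primes Nat.prime_three hr).2 (Ne.symm hne)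
    obtain ⟨j, -, hj⟩ := Nat.exists_mul_mod_eq_one_of_coprime hcop hr.one_lt
    have h4 := hpow _ h3' j X Y h0
    have h5 : (f ^ 3) ^ j = f := by
      rw [← pow_mul, pow_eq_pow_mod _ hfr, hj, pow_one]
    rw [h5] at h4
    exact D.not_C2_C3 (p := p) hn7 h4 h1
  refine ⟨by rw [← hr3]; exact hfr, fun X' Y' hX' hP => ?_⟩
  have hf3 : f ^ 3 = 1 := by rw [← hr3]; exact hfr
  rcases D.pol_cases (p := p) hn7 hX' hP with h4 | h4
  · exact ⟨0, by rwa [pow_zero, im_one, im_one]⟩
  · have hcyc : ∀ Z : Subgroup (Pr G), im f (im f (im f Z)) = Z := by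
      intro Z
      rw [← im_mul, ← im_mul, ← pow_two, ← pow_succ, hf3, im_one]
    rcases D.c3_two (p := p) hn h1 h2 h4 with h5 | h5 | h5
    · exact absurd h5 h12
    · -- the image of the first pair
      refine ⟨2, ?_⟩
      have h6 := (h5.im f).im f
      rw [hcyc, hcyc] at h6
      rw [pow_two, im_mul, im_mul]
      exact D.c2_of_orb h0 h6
    · refine ⟨1, ?_⟩
      have h6 := h5.im f
      rw [hcyc, hcyc] at h6
      rw [pow_one]
      exact D.c2_of_orb h0 h6

end RepO

end Pool.Agent.BSpi.Orth
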