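import Pool.Agent.BSpi.Orth.Tri

set_option autoImplicit false
set_option linter.unusedSimpArgs false
set_option linter.unusedVariables false
set_option linter.unusedSectionVars false

open Matrix Matrix.SpecialLinearGroup
open scoped MatrixGroups

namespace Pool.Agent.BSpi.Orth

open Pool.Agent.BSpi.PSL Pool.Agent.BSpi.Cls

variable {K V : Type} [Field K] [AddCommGroup V] [Module K V] {B : QF K V}
variable {p : ℕ} [hp : Fact p.Prime] [CharP K p] {G : Type} [Group G]

/-- Products of unipotent matrices of given order modulo scalars. -/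
lemma scalar_dvd [Finite K] {ℓ : ℕ} (hℓ : ℓ.Prime)
    (hd : ℓ ∣ Nat.card K - 1 ∨ ℓ ∣ Nat.card K + 1) : ∃ α β : K, ∀ (k : ℕ) (l : K),
      ((PSL.u α * PSL.v β) ^ k) 0 0 = l → ((PSL.u α * PSL.v β) ^ k) 0 1 = 0 →
      ((PSL.u α * PSL.v β) ^ k) 1 0 = 0 → ((PSL.u α * PSL.v β) ^ k) 1 1 = l → ℓ ∣ k := by
  by_cases h2 : ℓ = 2
  · refine ⟨1, -2, fun k l h00 h01 h10 h11 => ?_⟩
    rw [h2]
    by_contra hodd
    have hk : Odd k := by
      rw [← Nat.not_even_iff_odd, even_iff_two_dvd]
      exact hodd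
    obtain ⟨j, hj⟩ := hk
    set M : SL(2, K) := PSL.u 1 * PSL.v (-2) with hM
    have hMM : M ^ 2 = -1 := by
      rw [pow_two]
      apply sl_ext
      · simp only [hM, mul00, mul01, mul10, mul11, u00, u01, u10, u11, v00, v01, v10, v11, neg00,
          one00]
        ring
      · simp only [hM, mul00, mul01, mul10, mul11, u00, u01, u10, u11, v00, v01, v10, v11, neg01,
          one01]
        ring
      · simp only [hM, mul00, mul01, mul10, mul11, u00, u01, u10, u11, v00, v01, v10, v11, neg10,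
          one10]
        ring
      · simp only [hM, mul00, mul01, mul10, mul11, u00, u01, u10, u11, v00, v01, v10, v11, neg11,
          one11]
        ring
    have h01' : M 0 1 = 1 := by
      simp only [hM, mul01, u00, u01, v01, v11]
      ring
    have h3 : ∀ j : ℕ, ((M ^ (2 * j + 1)) 0 1 = 1 ∨ (M ^ (2 * j + 1)) 0 1 = -1) := by
      intro j
      have h4 : ∀ j : ℕ, M ^ (2 * j) = 1 ∨ M ^ (2 * j) = -1 := by
        intro j
        rw [pow_mul, hMM]
        rcases Nat.even_or_odd j with hj | hj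
        · left
          exact hj.neg_one_pow
        · right
          exact hj.neg_one_pow
      rw [pow_succ]
      rcases h4 j with h5 | h5
      · left
        rw [h5, one_mul, h01']
      · right
        rw [h5, neg_one_mul, neg01, h01']
    rw [hj] at h01
    rcases h3 j with h4 | h4
    · rw [h01] at h4
      exact zero_ne_one h4
    · rw [h01] at h4
      exact one_ne_zero (neg_eq_zero.1 h4.symm)
  · obtain ⟨y, hy, hyM⟩ := exists_trace (F := K) (κ := 1) one_ne_zero hℓ hd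
    refine ⟨y, y, fun k l h00 h01 h10 h11 => ?_⟩
    set M : SL(2, K) := PSL.u y * PSL.v y with hM
    have h3 : ℓ ∣ orderOf M := hyM M (by
      simp only [hM, mul00, mul11, u00, u01, u10, u11, v00, v01, v10, v11]
      ring)
    have h4 : M ^ (k * 2) = 1 := by
      have hdet := det_eq (M ^ k)
      rw [h00, h01, h10, h11] at hdet
      rw [pow_mul, pow_two]
      apply sl_ext
      · rw [mul00, h00, h01, one00]
        linear_combination hdet
      · rw [mul01, h00, h01, h11, one01]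
        ring
      · rw [mul10, h00, h10, h11, one10]
        ring
      · rw [mul11, h10, h11, one11]
        linear_combination hdet
    rcases hℓ.dvd_mul.1 (h3.trans (orderOf_dvd_of_pow_eq_one h4)) with h5 | h5
    · exact h5
    · exact absurd ((Nat.prime_dvd_prime_iff_eq hℓ Nat.prime_two).1 h5) h2

namespace RepO

variable (D : RepO B G)

/-- Powers of elements preserving a line. -/
lemma pow_line {u v : V} {g : G} {M : SL(2, K)} (hu : D.ρ g u = M 0 0 • u + M 1 0 • v)
    (hv : D.ρ g v = M 0 1 • u + M 1 1 • v) (k : ℕ) :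
    D.ρ (g ^ k) u = (M ^ k) 0 0 • u + (M ^ k) 1 0 • v ∧
      D.ρ (g ^ k) v = (M ^ k) 0 1 • u + (M ^ k) 1 1 • v := by
  induction k with
  | zero =>
    rw [pow_zero, pow_zero, D.one_apply, D.one_apply, one00, one01, one10, one11]
    constructor
    · module
    · module
  | succ k ih =>
    obtain ⟨h1, h2⟩ := ih
    rw [pow_succ', pow_succ', D.mul_apply, D.mul_apply, h1, h2]
    simp only [map_add, map_smul, hu, hv, mul00, mul01, mul10, mul11]
    constructor
    · module
    · module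

/-- The elements of the subgroup lift to elements fixing two vectors. -/
def Fx (u v : V) (Y : Subgroup (Pr G)) : Prop :=
  ∀ y ∈ Y, ∃ g : G, pj g = y ∧ D.ρ g u = u ∧ D.ρ g v = v

lemma fx_of_perp {u v s t : V} (h : B.Ln s t) (e1 : B.h s u = 0) (e2 : B.h s v = 0)
    (e3 : B.h t u = 0) (e4 : B.h t v = 0) : D.Fx u v (D.A s t) := by
  intro y hy
  obtain ⟨a, rfl⟩ := (D.mem_A' h).1 hy
  have f1 : B.h (a • t) s = 0 := by rw [B.smul_left, h.hvu, mul_zero]
  refine ⟨D.es s (a • t), rfl, ?_, ?_⟩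
  · rw [D.es_apply h.1.2 f1, B.symm s u, e1, B.smul_right, B.symm t u, e3]
    module
  · rw [D.es_apply h.1.2 f1, B.symm s v, e2, B.smul_right, B.symm t v, e4]
    module

include hp in
lemma fx_c3 [Finite K] [FiniteDimensional K V] (hn : 7 ≤ Module.finrank K V) {u v : V}
    (h : B.Ln u v) {Y : Subgroup (Pr G)} (hY : D.C3 (D.A u v) Y) : D.Fx u v Y := by
  obtain ⟨s, t, hF, rfl⟩ := D.four_rebase (p := p) hn h hY
  exact D.fx_of_perp hF.2.1 hF.2.2.1 hF.2.2.2.1 hF.2.2.2.2.1 hF.2.2.2.2.2.1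

lemma fx_self {u v : V} (h : B.Ln u v) : D.Fx u v (D.A u v) :=
  D.fx_of_perp h h.1.hself h.huv h.hvu h.2.1.hself

/-- Bad automorphisms of a special form. -/
lemma tri_primes [Finite K] [FiniteDimensional K V] (hn : 7 ≤ Module.finrank K V) {π : Set ℕ}
    (hinj : Function.Injective (MulAut.conj : Pr G →* MulAut (Pr G))) {f : MulAut (Pr G)}
    (hbad : BadAut π (Pr G) f) {u v m n : V} (h : B.Ln u v) (hm : B.Ln u m) (hn' : B.Ln v n)
    (hmv : B.h m v = 1) (hnu : B.h n u = 1) (hM : D.Fx u v (im f⁻¹ (D.A u m)))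
    (hN : D.Fx u v (im f (D.A v n))) (ℓ : ℕ) (hℓ : ℓ.Prime)
    (hd : ℓ ∣ Nat.card K - 1 ∨ ℓ ∣ Nat.card K + 1) : ℓ ∈ π := by
  obtain ⟨α, β, hk⟩ := scalar_dvd (K := K) hℓ hd
  have e1 : B.h ((-α) • m) u = 0 := by rw [B.smul_left, hm.hvu, mul_zero]
  have e2 : B.h ((-β) • n) v = 0 := by rw [B.smul_left, hn'.hvu, mul_zero]
  -- the element
  set a := f⁻¹ (pj (D.es u ((-α) • m))) with ha
  set b := (pj (D.es v ((-β) • n)))⁻¹ with hb
  have ha' : a ∈ im f⁻¹ (D.A u m) := mem_im f⁻¹ _ ((D.mem_A' hm).2 ⟨-α, rfl⟩)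
  have hb' : b ∈ D.A v n := inv_mem ((D.mem_A' hn').2 ⟨-β, rfl⟩)
  obtain ⟨g2, hg2, g2u, g2v⟩ := hN _ (mem_im f _ hb')
  obtain ⟨g4, hg4, g4u, g4v⟩ := hM _ (inv_mem ha')
  have hfa : f a = pj (D.es u ((-α) • m)) := by rw [ha, MulAut.apply_inv_self]
  refine bad_order hinj hbad (a * b) ℓ hℓ ?_
  set g := D.es u ((-α) • m) * g2 * (D.es v ((-β) • n) * g4) with hg
  have hbi : pj (D.es v ((-β) • n)) = b⁻¹ := by rw [hb, _root_.inv_inv]
  have h1 : f (a * b) * (a * b)⁻¹ = pj g := by
    rw [hg, map_mul f, map_mul pj, map_mul pj, map_mul pj, hg2, hg4, ← hfa, hbi,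
      _root_.mul_inv_rev]
  rw [h1]
  -- the action on the line
  have p1 : D.ρ (D.es v ((-β) • n)) u = u + β • v := by
    rw [D.es_apply hn'.1.2 e2, h.huv, B.smul_right, B.symm n u, hnu]
    module
  have p2 : D.ρ (D.es v ((-β) • n)) v = v := by
    rw [D.es_apply hn'.1.2 e2, hn'.1.hself, B.smul_right, hn'.huv]
    module
  have p3 : D.ρ (D.es u ((-α) • m)) v = v + α • u := by
    rw [D.es_apply hm.1.2 e1, h.hvu, B.smul_right, B.symm m v, hmv]
    module
  have p4 : D.ρ (D.es u ((-α) • m)) u = u := by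
    rw [D.es_apply hm.1.2 e1, hm.1.hself, B.smul_right, hm.huv]
    module
  set M : SL(2, K) := PSL.u α * PSL.v β with hMdef
  have hgu : D.ρ g u = M 0 0 • u + M 1 0 • v := by
    rw [hg, D.mul_apply, D.mul_apply, D.mul_apply, g4u, p1, map_add, map_smul, g2u, g2v, map_add,
      map_smul, p3, p4]
    simp only [hMdef, mul00, mul10, u00, u01, u10, u11, v00, v10]
    module
  have hgv : D.ρ g v = M 0 1 • u + M 1 1 • v := by
    rw [hg, D.mul_apply, D.mul_apply, D.mul_apply, g4v, p2, g2v, p3]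
    simp only [hMdef, mul01, mul11, u00, u01, u10, u11, v01, v11]
    module
  have h2 : g ^ orderOf (pj g) ∈ Subgroup.center G :=
    mk_eq_one.1 (by rw [map_pow, pow_orderOf_eq_one])
  obtain ⟨l, hl⟩ := D.center_scalar hn h2
  obtain ⟨h3, h4⟩ := D.pow_line hgu hgv (orderOf (pj g))
  rw [hl] at h3 h4
  have h5 := h.uniq (a := l) (b := 0) (c := (M ^ orderOf (pj g)) 0 0)
    (d := (M ^ orderOf (pj g)) 1 0) (by rw [← h3]; module)
  have h6 := h.uniq (a := 0) (b := l) (c := (M ^ orderOf (pj g)) 0 1)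
    (d := (M ^ orderOf (pj g)) 1 1) (by rw [← h4]; module)
  exact hk _ l h5.1.symm h6.1.symm h5.2.symm h6.2.symm

end RepO

end Pool.Agent.BSpi.Orth
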