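import Pool.Agent.BSpi.Orth.Tri2

set_option autoImplicit false
set_option linter.unusedSimpArgs false
set_option linter.unusedVariables false
set_option linter.unusedSectionVars false

open Matrix Matrix.SpecialLinearGroup
open scoped MatrixGroups

namespace Pool.Agent.BSpi.Orth

open Pool.Agent.BSpi.PSL Pool.Agent.BSpi.Cls

variable {K V : Type} [Field K] [AddCommGroup V] [Module K V] {B : QF K V}
variable {p : ℕ} [hp : Fact p.Prime] [CharP K p] {G : Type} [Group G]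

lemma ln_of_pair {u v n : V} (h : B.Ln u v) (hn : B.Q n = 0) (h1 : B.h n v = 0)
    (h2 : B.h n u = 1) : B.Ln v n := by
  refine ⟨h.2.1, ⟨?_, hn⟩, h1, fun c hc => ?_⟩
  · rintro rfl
    rw [B.zero_left] at h2
    exact zero_ne_one h2
  · rw [hc, B.smul_left, h.hvu, mul_zero] at h2
    exact zero_ne_one h2

namespace RepO

variable (D : RepO B G)

lemma C2.symm {X Y : Subgroup (Pr G)} (h : D.C2 X Y) : D.C2 Y X := by
  obtain ⟨x, y, y', h1, h2, h3, h4, h5⟩ := h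
  exact ⟨x, y', y, h2, h1, by rw [B.symm y y']; exact h3, h5, h4⟩

lemma A_comm {u v : V} (h : B.Ln u v) : D.A v u = D.A u v :=
  D.A_eq h h.symm (In.right u v) (In.left u v)

include hp in
/-- The case of a fixed line. -/
lemma tri_fixed [Finite K] [FiniteDimensional K V] (hn : 7 ≤ Module.finrank K V) {π : Set ℕ}
    (hinj : Function.Injective (MulAut.conj : Pr G →* MulAut (Pr G))) {f : MulAut (Pr G)}
    (hbad : BadAut π (Pr G) f) (hf : D.NP f) {X : Subgroup (Pr G)} (hX : X ∈ D.R)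
    (hfX : im f X = X) (ℓ : ℕ) (hℓ : ℓ.Prime)
    (hd : ℓ ∣ Nat.card K - 1 ∨ ℓ ∣ Nat.card K + 1) : ℓ ∈ π := by
  obtain ⟨u, v, h, rfl⟩ := hX
  obtain ⟨s, t, H⟩ := exists_dual hn h
  have hfX' : im f⁻¹ (D.A u v) = D.A u v := by
    nth_rewrite 1 [← hfX]
    rw [im_inv']
  have hmv : B.h (-s) v = 1 := by rw [B.neg_left, H.sv, neg_neg]
  have hvm : B.h v (-s) ≠ 0 := by
    rw [B.symm, hmv]
    exact one_ne_zero
  have hm : B.Ln u (-s) := by
    refine ln_of_pair h.symm (by rw [B.qneg, H.M.1.2]) ?_ hmv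
    rw [B.neg_left, H.su, neg_zero]
  have hn' : B.Ln v t := ln_of_pair h H.M.2.1.2 H.tv H.tu
  have hut : B.h u t ≠ 0 := by rw [H.ut]; exact one_ne_zero
  have c1 : D.C2 (D.A u v) (D.A u (-s)) := ⟨u, v, -s, h, hm, hvm, rfl, rfl⟩
  have c2 : D.C2 (D.A u v) (D.A v t) := ⟨v, u, t, h.symm, hn', hut, (D.A_comm h).symm, rfl⟩
  have c3 := hf.c3' _ _ c1
  have c4 := hf.c3 _ _ c2
  rw [hfX'] at c3
  rw [hfX] at c4
  exact D.tri_primes hn hinj hbad h hm hn' hmv H.tu (D.fx_c3 (p := p) hn h c3)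
    (D.fx_c3 (p := p) hn h c4) ℓ hℓ hd

include hp in
/-- The case of a pair of the first type. -/
lemma tri_c2 [Finite K] [FiniteDimensional K V] (hn : 7 ≤ Module.finrank K V) {π : Set ℕ}
    (hinj : Function.Injective (MulAut.conj : Pr G →* MulAut (Pr G))) {f : MulAut (Pr G)}
    (hbad : BadAut π (Pr G) f) (hpp : PP D.R f) (hf : D.NP f) (hf3 : f ^ 3 = 1)
    {X : Subgroup (Pr G)} (hX : D.C2 X (im f X)) (ℓ : ℕ) (hℓ : ℓ.Prime)
    (hd : ℓ ∣ Nat.card K - 1 ∨ ℓ ∣ Nat.card K + 1) : ℓ ∈ π := by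
  have hcyc : ∀ Z : Subgroup (Pr G), im f (im f Z) = im f⁻¹ Z := by
    intro Z
    apply im_injective f
    rw [im_inv, ← im_mul, ← im_mul, ← pow_two, ← pow_succ, hf3, im_one]
  have c1 : D.C3 (im f X) (im f⁻¹ X) := by
    have := hf.c3 _ _ hX
    rwa [hcyc] at this
  have c2 : D.C3 X (im f⁻¹ X) := by
    have := hf.c3' _ _ (C2.symm D hX)
    rwa [im_inv'] at this
  obtain ⟨u, v, y1, h, h1, h2, rfl, hfX⟩ := hX
  have h2' : B.h y1 v ≠ 0 := by rw [B.symm]; exact h2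
  obtain ⟨hm, hmA⟩ := D.ln_smul h1 (inv_ne_zero h2')
  have hmv : B.h ((B.h y1 v)⁻¹ • y1) v = 1 := by rw [B.smul_left, inv_mul_cancel₀ h2']
  set m := (B.h y1 v)⁻¹ • y1 with hmdef
  rw [← hmA] at hfX
  clear_value m
  obtain ⟨z1, z2, hF, hZ⟩ := D.four_rebase (p := p) hn h c2
  -- the second partner
  obtain ⟨n0, hn0⟩ := B.vals _ hF.2.2.2.2.2.2 ![1, 0, 0, 0]
  have p1 : B.h n0 u = 1 := hn0 0
  have p2 : B.h n0 v = 0 := hn0 1
  have p3 : B.h n0 z1 = 0 := hn0 2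
  have p4 : B.h n0 z2 = 0 := hn0 3
  obtain ⟨n, q0, q1, q2, q3, q4⟩ : ∃ n, B.Q n = 0 ∧ B.h n u = 1 ∧ B.h n v = 0 ∧ B.h n z1 = 0 ∧
      B.h n z2 = 0 := by
    refine ⟨n0 - B.Q n0 • u, ?_, ?_, ?_, ?_, ?_⟩
    · rw [B.qsub, B.qsmul, h.1.2, B.smul_right, p1]
      ring
    · rw [B.sub_left, B.smul_left, h.1.hself, p1]
      ring
    · rw [B.sub_left, B.smul_left, h.huv, p2]
      ring
    · rw [B.sub_left, B.smul_left, B.symm z1 u, hF.2.2.1, p3]
      ring
    · rw [B.sub_left, B.smul_left, B.symm z2 u, hF.2.2.2.2.1, p4]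
      ring
  have hn' : B.Ln v n := ln_of_pair h q0 q2 q1
  have c3 : D.C3 (D.A z1 z2) (D.A v n) := by
    refine ⟨z1, z2, v, n, ⟨hF.2.1, hn', ?_, ?_, q3, q4, ?_⟩, rfl, rfl⟩
    · rw [B.symm, hF.2.2.2.1]
    · rw [B.symm, hF.2.2.2.2.2.1]
    · rw [Fintype.linearIndependent_iff]
      intro g hg
      rw [Fin.sum_univ_four] at hg
      have hg' : g 0 • z1 + g 1 • z2 + g 2 • v + g 3 • n = 0 := hg
      have k := congrArg (fun y => B.h y u) hg'
      simp only [B.add_left, B.smul_left, B.zero_left, hF.2.2.1, hF.2.2.2.2.1, h.hvu, q1, mul_zero,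
        mul_one, zero_add, add_zero] at k
      rw [k, zero_smul, add_zero] at hg'
      have k2 := hF.zero (a := 0) (b := g 2) (c := g 0) (d := g 1) (by
        rw [← hg']
        module)
      intro i
      fin_cases i
      · exact k2.2.2.1
      · exact k2.2.2.2
      · exact k2.2.1
      · exact k
  have hAR : D.A z1 z2 ∈ D.R := ⟨z1, z2, hF.2.1, rfl⟩
  have hfZ : im f (D.A z1 z2) = D.A u v := by rw [← hZ, im_inv]
  have c4 : Pol D.R (D.A u v) (im f (D.A v n)) := by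
    have := (C3.pol (p := p) D hn c3).im hpp
    rwa [hfZ] at this
  have c5 : D.C3 (D.A u v) (im f (D.A v n)) := by
    rcases D.pol_cases (p := p) hn ⟨u, v, h, rfl⟩ c4 with c5 | c5
    · exfalso
      obtain ⟨x', y, y', a1, a2, a3, a4, a5⟩ := c5
      rw [a4] at c2
      have h3 := D.C3_not_opp (p := p) hn a1 a2 c2
      apply h3
      rw [← a5, ← a4, ← hcyc]
      apply Opp.symm
      rw [opp_im, hfX, D.opp_iff hn hm hn', QF.dl, h.huv, hmv, B.symm n u, q1]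
      simp
    · exact c5
  have c6 : im f⁻¹ (D.A u m) = D.A u v := by rw [← hfX, im_inv']
  exact D.tri_primes hn hinj hbad h hm hn' hmv q1 (by rw [c6]; exact D.fx_self h)
    (D.fx_c3 (p := p) hn h c5) ℓ hℓ hd

include hp in
/-- Automorphisms of odd prime order in dimension eight. -/
lemma hmove8 [Finite K] [FiniteDimensional K V] (hn : Module.finrank K V = 8) {π : Set ℕ}
    (hinj : Function.Injective (MulAut.conj : Pr G →* MulAut (Pr G))) {f : MulAut (Pr G)}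
    {r : ℕ} (hr : r.Prime) (hr2 : r ≠ 2) (hfr : orderOf f = r) (hbad : BadAut π (Pr G) f)
    (hpp : PP D.R f) : (∃ X ∈ D.R, Opp p X (im f X)) ∨
      ∀ ℓ : ℕ, ℓ.Prime → ℓ ∣ Nat.card K - 1 ∨ ℓ ∣ Nat.card K + 1 → ℓ ∈ π := by
  have hn7 : 7 ≤ Module.finrank K V := by omega
  have hf1 : f ^ r = 1 := by rw [← hfr]; exact pow_orderOf_eq_one f
  rcases D.cp_or_np (p := p) hn7 hpp with hcp | hnp
  · left
    obtain ⟨m, hm⟩ := hr.odd_of_ne_two hr2
    refine D.hmove_c2 hn7 (m := m) (by rw [← hm]; exact hf1) hcp ?_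
    rintro rfl
    rw [orderOf_one] at hfr
    exact hr.one_lt.ne hfr
  · obtain ⟨hf3, hpol⟩ := D.np_three (p := p) hn hpp hnp hr hr2 hf1
    -- a commuting pair is enough
    have key : ∀ X ∈ D.R, Cm X (im f X) → (∃ X ∈ D.R, Opp p X (im f X)) ∨
        ∀ ℓ : ℕ, ℓ.Prime → ℓ ∣ Nat.card K - 1 ∨ ℓ ∣ Nat.card K + 1 → ℓ ∈ π := by
      intro X hX hc
      by_cases he : im f X = X
      · right
        exact D.tri_fixed (p := p) hn7 hinj hbad hnp hX he
      · by_cases hcol : Col D.R X (im f X)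
        · left
          exact D.opp_of_col (p := p) hn7 hpp
            ((D.Cl_iff (p := p) hn7).2 ⟨hX, hpp.1 _ hX, Ne.symm he, hc, hcol⟩)
        · right
          obtain ⟨k, hk⟩ := hpol X (im f X) hX ⟨hpp.1 _ hX, hc, Ne.symm he, hcol⟩
          refine D.tri_c2 (p := p) hn7 hinj hbad hpp hnp hf3 (X := im (f ^ k) X) ?_
          have h1 : im f (im (f ^ k) X) = im (f ^ k) (im f X) := by
            rw [← im_mul, ← im_mul, ← pow_succ, ← pow_succ']
          rw [h1]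
          exact hk
    obtain ⟨u, v, h⟩ := exists_ln (B := B) hn7
    by_cases hc : Cm (D.A u v) (im f (D.A u v))
    · exact key _ ⟨u, v, h, rfl⟩ hc
    · by_cases ho : Opp p (D.A u v) (im f (D.A u v))
      · exact Or.inl ⟨_, ⟨u, v, h, rfl⟩, ho⟩
      · rcases D.special_step hn7 hpp ⟨u, v, h, rfl⟩ hc ho with ⟨C, hC, hcC⟩ | h1
        · exact key C hC hcC
        · exact Or.inl h1

end RepO

end Pool.Agent.BSpi.Orth
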